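import Pool.Agent.Q35.ST.Cls2

/-!
# Descent of the classification of saturated subvarieties to non-closed fields
-/

set_option autoImplicit false

namespace Pool.Agent.Q35.ST

open MvPolynomial

section

variable {κ : Type} {n : κ → ℕ} {K C : Type} [Field K] [Field C] (φ : K →+* C)

lemma MH.map {T : Set κ} {u : κ → ℕ} {f : MvPolynomial (Pc n) K} (h : MH T u f) :
    MH T u (MvPolynomial.map φ f) := by
  intro m hm l hl
  exact h m (support_map_subset φ f hm) l hl

/-- the components of the base change of a saturated subvariety are saturated -/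
lemma Sat.over [CharZero C] (hM : S_MIN) {F : MvPolynomial (Pc n) K}
    {P : Ideal (MvPolynomial (Pc n) K)} (h : Sat F P) {Q : Ideal (MvPolynomial (Pc n) C)}
    (hQ : Q.IsPrime) (hPQ : ∀ f ∈ P, map φ f ∈ Q)
    (hX : ∀ l, ∃ i, (X ⟨l, i⟩ : MvPolynomial (Pc n) C) ∉ Q) :
    ∃ P' : Ideal (MvPolynomial (Pc n) C), P' ≤ Q ∧ Sat (map φ F) P' ∧ ∀ f ∈ P, map φ f ∈ P' := by
  classical
  set G : Set (MvPolynomial (Pc n) C) := (map φ) '' (P : Set (MvPolynomial (Pc n) K)) with hG
  have hGQ : Ideal.span G ≤ Q := by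
    rw [Ideal.span_le]
    rintro _ ⟨f, hf, rfl⟩
    exact hPQ f hf
  obtain ⟨P', hP', hP'Q⟩ := Ideal.exists_minimalPrimes_le hGQ
  have hle : ∀ f ∈ P, map φ f ∈ P' := fun f hf => hP'.1.2 (Ideal.subset_span ⟨f, hf, rfl⟩)
  refine ⟨P', hP'Q, ⟨hP'.1.1, hle F h.mem, ?_, ?_, ?_⟩, hle⟩
  · intro l
    refine StD.min hM (I := Ideal.span G) ?_ hP'
    intro i j f hf
    rw [← dd_apply]
    refine der_span (dd (map φ F) l i j) G _ Ideal.subset_span ?_ f hf
    rintro _ ⟨g, hg, rfl⟩
    apply Ideal.subset_span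
    refine ⟨_, h.std l i j g hg, ?_⟩
    rw [dd_apply, map_sub, map_mul, map_mul, pderiv_map, pderiv_map, pderiv_map, pderiv_map]
  · intro l
    refine StE.min hM (I := Ideal.span G) ?_ hP'
    intro f hf
    rw [← ee_apply]
    refine der_span (ee C n l) G _ Ideal.subset_span ?_ f hf
    rintro _ ⟨g, hg, rfl⟩
    apply Ideal.subset_span
    refine ⟨_, h.ste l g hg, ?_⟩
    rw [ee_apply, map_sum]
    refine Finset.sum_congr rfl (fun i _ => ?_)
    rw [map_mul, map_X, pderiv_map]
  · intro l
    obtain ⟨i, hi⟩ := hX l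
    exact ⟨i, fun hcon => hi (hP'Q hcon)⟩

/-- coefficientwise application of an additive map -/
noncomputable def cw {σ : Type} (ρ : C →+ K) (f : MvPolynomial σ C) : MvPolynomial σ K :=
  ∑ m ∈ f.support, monomial m (ρ (coeff m f))

lemma coeff_cw {σ : Type} (ρ : C →+ K) (f : MvPolynomial σ C) (m : σ →₀ ℕ) :
    coeff m (cw ρ f) = ρ (coeff m f) := by
  classical
  rw [cw, coeff_sum]
  by_cases hm : m ∈ f.support
  · rw [Finset.sum_eq_single m]
    · rw [coeff_monomial, if_pos rfl]
    · intro b _ hb; rw [coeff_monomial, if_neg hb]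
    · intro h; exact absurd hm h
  · rw [Finset.sum_eq_zero, notMem_support_iff.1 hm, map_zero]
    intro b hb
    rw [coeff_monomial, if_neg]
    rintro rfl; exact hm hb

/-- divisibility descends along field extensions -/
lemma dvd_of_map_dvd {σ : Type} {F f : MvPolynomial σ K} (h : map φ F ∣ map φ f) : F ∣ f := by
  classical
  obtain ⟨q, hq⟩ := h
  let : Algebra K C := φ.toAlgebra
  have hinj : Function.Injective (Algebra.linearMap K C) := φ.injective
  obtain ⟨ρ, hρ⟩ := (Algebra.linearMap K C).exists_leftInverse_of_injective (LinearMap.ker_eq_bot.2 hinj)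
  have hρ1 : ∀ a : K, ρ (φ a) = a := fun a => by
    have := LinearMap.congr_fun hρ a
    rw [LinearMap.comp_apply, LinearMap.id_apply] at this
    exact this
  have hρ2 : ∀ (a : K) (c : C), ρ (φ a * c) = a * ρ c := fun a c => by
    have := ρ.map_smul a c
    rw [Algebra.smul_def] at this
    exact this
  refine ⟨cw ρ.toAddMonoidHom q, ?_⟩
  ext m
  rw [coeff_mul]
  have h1 := congrArg (coeff m) hq
  rw [coeff_map, coeff_mul] at h1
  have h2 := congrArg ρ h1
  rw [hρ1, map_sum] at h2
  rw [h2]
  refine Finset.sum_congr rfl (fun x _ => ?_)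
  rw [coeff_map, hρ2, coeff_cw]
  rfl

end

section

variable {κ : Type} [Fintype κ] [DecidableEq κ] {n : κ → ℕ} {K : Type} [Field K]
  [CharZero K] {F : MvPolynomial (Pc n) K} {d : κ → ℕ}

attribute [local instance] MvPolynomial.algebraMvPolynomial in
/-- finitely many saturated subvarieties -/
theorem finite_sat_K (hA : S_A) (hM : S_MIN) (hU : S_U) (hF : MH Set.univ d F) (hd : ∀ l, d l ≠ 0)
    (hn : ∀ l, 2 ≤ n l) (hsm : Smth (map (algebraMap K (AlgebraicClosure K)) F)) :
    {P : Ideal (MvPolynomial (Pc n) K) | Sat F P}.Finite := by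
  classical
  set C := AlgebraicClosure K with hC
  have hfin := finite_sat hA hM hU (hF.map (algebraMap K C)) hd hn hsm
  have hex : ∀ P : Ideal (MvPolynomial (Pc n) K), ∃ P' : Ideal (MvPolynomial (Pc n) C), Sat F P →
      Sat (map (algebraMap K C) F) P' ∧ P'.comap (map (algebraMap K C)) = P := by
    intro P
    by_cases h : Sat F P
    · have := h.prime
      have hbot : (⊥ : Ideal (MvPolynomial (Pc n) C)).comap
          (algebraMap (MvPolynomial (Pc n) K) (MvPolynomial (Pc n) C)) ≤ P := by
        intro f hf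
        rw [Ideal.mem_comap, Ideal.mem_bot] at hf
        have hinj : Function.Injective (map (algebraMap K C) : MvPolynomial (Pc n) K →+* _) :=
          map_injective _ (algebraMap K C).injective
        have : f = 0 := hinj (by rw [map_zero]; exact hf)
        rw [this]; exact P.zero_mem
      obtain ⟨Q, -, hQ, hQc⟩ := Ideal.exists_ideal_over_prime_of_isIntegral P
        (⊥ : Ideal (MvPolynomial (Pc n) C)) hbot
      have hQc' : ∀ f, map (algebraMap K C) f ∈ Q ↔ f ∈ P := by
        intro f
        rw [← hQc, Ideal.mem_comap]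
        rfl
      obtain ⟨P', hP'Q, hP's, hP'⟩ := h.over (algebraMap K C) hM hQ (fun f hf => (hQc' f).2 hf) (by
        intro l
        obtain ⟨i, hi⟩ := h.prop l
        refine ⟨i, fun hcon => hi ?_⟩
        rw [← hQc', map_X]
        exact hcon)
      refine ⟨P', fun _ => ⟨hP's, le_antisymm ?_ ?_⟩⟩
      · intro f hf
        rw [Ideal.mem_comap] at hf
        exact (hQc' f).1 (hP'Q hf)
      · intro f hf
        rw [Ideal.mem_comap]
        exact hP' f hf
    · exact ⟨⊤, fun h' => absurd h' h⟩
  choose g hg using hex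
  refine Set.Finite.of_finite_image (f := g) (hfin.subset ?_) ?_
  · rintro _ ⟨P, hP, rfl⟩
    exact (hg P hP).1
  · intro P hP P' hP' heq
    rw [← (hg P hP).2, ← (hg P' hP').2, heq]

omit [CharZero K] in
/-- no proper saturated subvariety through points which are not special -/
theorem eq_of_not_spec_K (hA : S_A) (hM : S_MIN) (hU : S_U) (hF : MH Set.univ d F) (hd : ∀ l, d l ≠ 0)
    (hn : ∀ l, 2 ≤ n l) {C : Type} [Field C] [IsAlgClosed C] [CharZero C] (φ : K →+* C)
    (hsm : Smth (map φ F)) {P : Ideal (MvPolynomial (Pc n) K)} (h : Sat F P) {x : Pc n → C}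
    (hx : ∀ f ∈ P, eval₂ φ x f = 0) (hxn : Nz Set.univ x) (hsp : ¬ Spec (map φ F) x) :
    P = Ideal.span {F} := by
  classical
  have hker : (RingHom.ker (eval x)).IsPrime := RingHom.ker_isPrime _
  obtain ⟨P', hP'Q, hP's, hP'⟩ := h.over φ hM hker (fun f hf => by
    rw [RingHom.mem_ker, eval_map]; exact hx f hf) (by
    intro l
    obtain ⟨i, hi⟩ := hxn l (Set.mem_univ _)
    refine ⟨i, fun hcon => hi ?_⟩
    rw [RingHom.mem_ker, eval_X] at hcon
    exact hcon)
  have h1 : P' = Ideal.span {map φ F} := by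
    refine eq_of_not_spec hA hM hU (hF.map φ) hd hn hsm hP's (x := x) ?_ hxn hsp
    intro f hf
    have := hP'Q hf
    rwa [RingHom.mem_ker] at this
  refine le_antisymm ?_ ?_
  · intro f hf
    rw [Ideal.mem_span_singleton]
    apply dvd_of_map_dvd φ
    rw [← Ideal.mem_span_singleton, ← h1]
    exact hP' f hf
  · rw [Ideal.span_le]
    rintro g rfl
    exact h.mem

end

end Pool.Agent.Q35.ST
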