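import Pool.Agent.Q35.ST.Loc

/-!
# Local Zariski closures of the rational points of smooth hypersurfaces of multidegree at most two
-/

set_option autoImplicit false

namespace Pool.Agent.Q35.ST

open MvPolynomial Pool.Agent.TH178.MZ

section

variable {κ : Type} [Fintype κ] {n : κ → ℕ} {K : Type} [Field K]

/-- smoothness is a geometric property -/
lemma smth_ext {C : Type} [Field C] [Algebra K C] [IsAlgClosed C] {F : MvPolynomial (Pc n) K}
    (h : Smth (map (algebraMap K C) F)) {E : Type} [Field E] (φ : K →+* E) : Smth (map φ F) := by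
  classical
  intro z hz hzF
  by_contra hcon
  push Not at hcon
  have hb : ∀ l, ∃ i, z ⟨l, i⟩ ≠ 0 := fun l => hz l (Set.mem_univ _)
  choose b hb using hb
  set I : Ideal (MvPolynomial (Pc n) K) :=
    Ideal.span ({F} ∪ Set.range (fun s : Pc n => pderiv s F)) with hI
  have h1 : (∏ l, X (⟨l, b l⟩ : Pc n) : MvPolynomial (Pc n) K) ∈ I.radical := by
    rw [← vanishingIdeal_zeroLocus_eq_radical (K := C), mem_vanishingIdeal_iff]
    intro w hw
    rw [mem_zeroLocus_iff] at hw
    by_contra hne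
    rw [map_prod, ← ne_eq, Finset.prod_ne_zero_iff] at hne
    have hwn : Nz Set.univ w := by
      intro l _
      exact ⟨b l, by simpa using hne l (Finset.mem_univ _)⟩
    obtain ⟨s, hs⟩ := h w hwn (by
      rw [eval_map]
      exact hw F (Ideal.subset_span (Or.inl rfl)))
    apply hs
    rw [pderiv_map, eval_map]
    exact hw (pderiv s F) (Ideal.subset_span (Or.inr ⟨s, rfl⟩))
  obtain ⟨m, hm⟩ := h1
  have h2 : I ≤ RingHom.ker (eval₂Hom φ z) := by
    rw [hI, Ideal.span_le]
    rintro g (rfl | ⟨s, rfl⟩)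
    · rw [SetLike.mem_coe, RingHom.mem_ker, coe_eval₂Hom, ← eval_map]
      exact hzF
    · rw [SetLike.mem_coe, RingHom.mem_ker, coe_eval₂Hom, ← eval_map, ← pderiv_map]
      exact hcon s
  have h3 := h2 hm
  rw [RingHom.mem_ker, map_pow, map_prod] at h3
  refine pow_ne_zero m ?_ h3
  rw [Finset.prod_ne_zero_iff]
  intro l _
  rw [coe_eval₂Hom, eval₂_X]
  exact hb l

end

section

variable {κ : Type} [Fintype κ] [DecidableEq κ] {n : κ → ℕ} {K : Type} [Field K] [CharZero K]
  {L : Type} [NontriviallyNormedField L] {σ : K →+* L} {F : MvPolynomial (Pc n) K} {d : κ → ℕ}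

/-- the minimal primes of the local ideals are saturated -/
lemma sat_of_minimal (hM : S_MIN) (hR : S_RI) (hσ : DenseRange σ) (hF : MH Set.univ d F)
    (hd2 : ∀ l, d l ≤ 2) {x : Pc n → L} (hx : Nz Set.univ x) {P : Ideal (MvPolynomial (Pc n) K)}
    (hP : P ∈ (LI σ {y | eval y F = 0} x).minimalPrimes) : Sat F P := by
  refine ⟨hP.1.1, hP.1.2 ⟨Set.univ, Filter.univ_mem, fun y hy _ => hy⟩, ?_, ?_, ?_⟩
  · intro l
    refine StD.min hM ?_ hP
    intro i j f hf
    rw [← dd_apply]
    exact LI_stable hσ ((hR κ n K F d hF l (hd2 l)).1 i j) f hf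
  · intro l
    refine StE.min hM ?_ hP
    intro f hf
    rw [← ee_apply]
    exact LI_stable hσ ((hR κ n K F d hF l (hd2 l)).2) f hf
  · intro l
    obtain ⟨i, hi⟩ := hx l (Set.mem_univ _)
    refine ⟨i, fun hcon => hi ?_⟩
    have := minimal_vanish hP hcon
    rwa [eval₂_X] at this

theorem LI_finite (hA : S_A) (hM : S_MIN) (hU : S_U) (hR : S_RI) (hσ : DenseRange σ)
    (hF : MH Set.univ d F) (hd : ∀ l, d l ≠ 0) (hd2 : ∀ l, d l ≤ 2) (hn : ∀ l, 2 ≤ n l)
    (hsm : Smth (map (algebraMap K (AlgebraicClosure K)) F)) :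
    {J | ∃ x : Pc n → L, Nz Set.univ x ∧ J = LI σ {y | eval y F = 0} x}.Finite := by
  refine ((finite_sat_K hA hM hU hF hd hn hsm).powerset.image sInf).subset ?_
  rintro _ ⟨x, hx, rfl⟩
  refine ⟨(LI σ {y | eval y F = 0} x).minimalPrimes, ?_, ?_⟩
  · intro P hP
    exact sat_of_minimal hM hR hσ hF hd2 hx hP
  · rw [Ideal.sInf_minimalPrimes]
    exact (LI_radical _ x).radical

theorem LI_eq (hA : S_A) (hM : S_MIN) (hU : S_U) (hR : S_RI) (hσ : DenseRange σ)
    (hF : MH Set.univ d F) (hd : ∀ l, d l ≠ 0) (hd2 : ∀ l, d l ≤ 2) (hn : ∀ l, 2 ≤ n l)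
    (hsm : Smth (map (algebraMap K (AlgebraicClosure K)) F)) {C : Type} [Field C] [IsAlgClosed C]
    [Algebra L C] {x : Pc n → L} (hx : Nz Set.univ x)
    (hsp : ¬ Spec (map ((algebraMap L C).comp σ) F) (fun s => algebraMap L C (x s))) :
    LI σ {y | eval y F = 0} x = ⊤ ∨ LI σ {y | eval y F = 0} x = Ideal.span {F} := by
  classical
  have hCZ : CharZero C := charZero_of_injective_ringHom ((algebraMap L C).comp σ).injective
  have h1 : ∀ P ∈ (LI σ {y | eval y F = 0} x).minimalPrimes, P = Ideal.span {F} := by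
    intro P hP
    refine eq_of_not_spec_K hA hM hU hF hd hn ((algebraMap L C).comp σ)
      (smth_ext hsm _) (sat_of_minimal hM hR hσ hF hd2 hx hP) (x := fun s => algebraMap L C (x s))
      ?_ ?_ hsp
    · intro f hf
      have h2 := minimal_vanish hP hf
      have h3 := congrArg (algebraMap L C) h2
      rw [eval₂_comp_left, map_zero] at h3
      exact h3
    · intro l _
      obtain ⟨i, hi⟩ := hx l (Set.mem_univ _)
      exact ⟨i, fun h => hi ((algebraMap L C).injective (by rw [map_zero]; exact h))⟩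
  have h2 := Ideal.sInf_minimalPrimes (I := LI σ {y | eval y F = 0} x)
  rw [(LI_radical _ x).radical] at h2
  rw [← h2]
  by_cases he : (LI σ {y | eval y F = 0} x).minimalPrimes = ∅
  · left; rw [he, sInf_empty]
  · right
    have : (LI σ {y | eval y F = 0} x).minimalPrimes = {Ideal.span {F}} := by
      apply Set.eq_singleton_iff_nonempty_unique_mem.2
      exact ⟨Set.nonempty_iff_ne_empty.2 he, h1⟩
    rw [this, sInf_singleton]

end

end Pool.Agent.Q35.ST
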