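import Pool.Agent.Q35.ST.Spc

/-!
# Local Zariski closures at points which are not special
-/

set_option autoImplicit false

namespace Pool.Agent.Q35.ST

open MvPolynomial Pool.Agent.TH178.MZ

variable {κ : Type} [Fintype κ] [DecidableEq κ] {n : κ → ℕ} {K : Type} [Field K] [CharZero K]
  {L : Type} [NontriviallyNormedField L] {σ : K →+* L} {F : MvPolynomial (Pc n) K} {d : κ → ℕ}

theorem LI_eq' (hA : S_A) (hM : S_MIN) (hU : S_U) (hR : S_RI) (hσ : DenseRange σ)
    (hF : MH Set.univ d F) (hd : ∀ l, d l ≠ 0) (hd2 : ∀ l, d l ≤ 2) (hn : ∀ l, 2 ≤ n l)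
    (hsm : Smth (map (algebraMap K (AlgebraicClosure K)) F)) {x : Pc n → L} (hx : Nz Set.univ x)
    (hsp : ∀ S, ¬ SpecIn (map σ F) S x) :
    LI σ {y | eval y F = 0} x = ⊤ ∨ LI σ {y | eval y F = 0} x = Ideal.span {F} := by
  classical
  have hCZ : CharZero L := charZero_of_injective_ringHom σ.injective
  have h1 : ∀ P ∈ (LI σ {y | eval y F = 0} x).minimalPrimes, P = Ideal.span {F} := by
    intro P hP
    exact eq_of_not_spec_L hA hM hU hF hd hn σ (smth_ext hsm _)
      (sat_of_minimal hM hR hσ hF hd2 hx hP) (fun f hf => minimal_vanish hP hf) hx hsp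
  have h2 := Ideal.sInf_minimalPrimes (I := LI σ {y | eval y F = 0} x)
  rw [(LI_radical _ x).radical] at h2
  rw [← h2]
  by_cases he : (LI σ {y | eval y F = 0} x).minimalPrimes = ∅
  · left; rw [he, sInf_empty]
  · right
    have : (LI σ {y | eval y F = 0} x).minimalPrimes = {Ideal.span {F}} := by
      apply Set.eq_singleton_iff_nonempty_unique_mem.2
      exact ⟨Set.nonempty_iff_ne_empty.2 he, h1⟩
    rw [this, sInf_singleton]

end Pool.Agent.Q35.ST
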