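import Pool.Agent.Q35.ST.Main
import Pool.Agent.Q16.ST.A1
import Pool.Agent.Q16.ST.A2
import Pool.Agent.Q16.ST.PR
import Pool.Agent.Q16.ST.LN
import Pool.Agent.Q46.ST.CZ
import Pool.Agent.Q178.ST.Inf
import Pool.Agent.Q178.ST.Ul
import Pool.Agent.Q111.ST.U
import Pool.Agent.Q111.ST.RI

/-!
# All jobs of part 1 together
-/

set_option autoImplicit false

namespace Pool.Agent.Q35.ST

theorem sMIN : S_MIN := Pool.Agent.Q16.ST.mn
theorem sAL : S_AL := Pool.Agent.Q16.ST.al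
theorem sLN : S_LN := Pool.Agent.Q16.ST.ln
theorem sINF : S_INF := Pool.Agent.Q178.ST.inf'
theorem sLL : S_LL := Pool.Agent.Q16.ST.ll sAL sMIN
theorem sPR : S_PR := Pool.Agent.Q16.ST.pr sLL
theorem sCZ : S_CZ := Pool.Agent.Q46.ST.cz sLN sINF sMIN
theorem sUL : S_UL := Pool.Agent.Q178.ST.ul
theorem sA : S_A := S_A_of (Pool.Agent.Q16.ST.a1 sAL sLN sINF) (Pool.Agent.Q16.ST.a2 sMIN sLL sPR sUL sCZ)
theorem sU : S_U := Pool.Agent.Q111.ST.U.u sLN
theorem sRI : S_RI := Pool.Agent.Q111.ST.ri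

end Pool.Agent.Q35.ST
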