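import Pool.Agent.Q35.ST.PP

/-!
# The closure of the set of the rational points is a neighbourhood of its free points
-/

set_option autoImplicit false
set_option linter.unusedSectionVars false

namespace Pool.Agent.Q35.ST

open MvPolynomial

theorem S_OP_of (pp : S_PP) (wd : S_WD) (ml : S_ML) : S_OP := by
  classical
  intro κ _ _ n K _ _ ι _ _ L _ _ σ hσ F hF hF0 T hT hfree
  have hchar : ∀ v, CharZero (L v) := fun v => charZero_of_injective_ringHom (σ v).injective
  set W0 : Set (∀ v, Pc n → L v) := closure {S : ∀ v, Pc n → L v | ∃ y : Pc n → K, eval y F = 0 ∧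
    ND F y ∧ S = fun v s => σ v (y s)} with hW0
  have hTW : T ∈ W0 := by
    obtain ⟨v⟩ := (inferInstance : Nonempty ι)
    exact ml κ n K ι L σ hσ F hF hF0 T hT ⟨v, (hfree v).1, (hfree v).2.2⟩
  have hW0W : W0 ⊆ closure {S : ∀ v, Pc n → L v | ∃ y : Pc n → K, eval y F = 0 ∧
      S = fun v s => σ v (y s)} := by
    refine closure_mono ?_
    rintro S ⟨y, hy, _, rfl⟩
    exact ⟨y, hy, rfl⟩
  have hTF : ∀ v, eval (T v) (map (σ v) F) = 0 := by
    intro v
    have hcl : IsClosed {S : ∀ v, Pc n → L v | eval (S v) (map (σ v) F) = 0} :=
      isClosed_eq ((MvPolynomial.continuous_eval _).comp (continuous_apply v)) continuous_const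
    have : closure {S : ∀ v, Pc n → L v | ∃ y : Pc n → K, eval y F = 0 ∧
      S = fun v s => σ v (y s)} ⊆ {S : ∀ v, Pc n → L v | eval (S v) (map (σ v) F) = 0} := by
      refine closure_minimal ?_ hcl
      rintro S ⟨y, hy, rfl⟩
      show eval (fun s => σ v (y s)) (map (σ v) F) = 0
      rw [eval_map]
      have := eval₂_comp (σ v) y F
      rw [hy, map_zero] at this
      exact this.symm
    exact this hT
  -- chains of moves at one place
  have hchain : ∀ (v : ι) (S : ∀ v, Pc n → L v), S ∈ W0 → ∀ b : Pc n → L v,
      Relation.ReflTransGen (DM (map (σ v) F)) (S v) b → Function.update S v b ∈ W0 := by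
    intro v S hS b hb
    induction hb with
    | refl => rw [Function.update_eq_self]; exact hS
    | tail _ h2 ih =>
      have := wd κ n K ι L σ hσ F hF _ ih v _ (by rw [Function.update_self]; exact h2)
      rw [Function.update_idem] at this
      exact this
  have hall : ∀ b : ∀ v, Pc n → L v, (∀ v, Relation.ReflTransGen (DM (map (σ v) F)) (T v) (b v)) →
      b ∈ W0 := by
    intro b hb
    have h1 : ∀ A : Finset ι, (fun v => if v ∈ A then b v else T v) ∈ W0 := by
      intro A
      induction A using Finset.induction_on with
      | empty => simpa using hTW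
      | insert v A hv ih =>
        have h2 := hchain v _ ih (b v) (by simp only [hv, if_false]; exact hb v)
        have h3 : Function.update (fun v => if v ∈ A then b v else T v) v (b v) =
            fun u => if u ∈ insert v A then b u else T u := by
          funext u
          by_cases hu : u = v
          · subst hu; simp
          · rw [Function.update_of_ne hu]
            simp [hu]
        rw [h3] at h2
        exact h2
    have h4 := h1 Finset.univ
    simpa using h4
  have hMH : ∀ v, MH Set.univ (fun _ => 2) (map (σ v) F) := fun v => hF.map (σ v)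
  have hne : ∀ v, map (σ v) F ≠ 0 := by
    intro v h
    apply hF0
    apply map_injective (σ v) (σ v).injective
    rw [h, map_zero]
  have hnear : ∀ v, ∀ᶠ S : ∀ v, Pc n → L v in nhds T, eval (S v) (map (σ v) F) = 0 →
      Relation.ReflTransGen (DM (map (σ v) F)) (T v) (S v) := by
    intro v
    have := pp κ n (L v) (map (σ v) F) (hMH v) (hne v) (T v) (hTF v) (hfree v).1 (hfree v).2.1
    exact (continuous_apply v).continuousAt.eventually this
  rw [← Filter.eventually_all] at hnear
  filter_upwards [hnear] with S hS hSF
  exact hW0W (hall S (fun v => hS v (hSF v)))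

end Pool.Agent.Q35.ST
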