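import Pool.Agent.Q35.ST.All
import Pool.Agent.Q35.ST.Main2
import Pool.Agent.Q35.ST.OP
import Pool.Agent.Q178.ST.MA
import Pool.Agent.Q178.ST.MB
import Pool.Agent.Q178.ST.Ift
import Pool.Agent.Q178.ST.Wd
import Pool.Agent.Q151.ST.JAC
import Pool.Agent.Q151.ST.M3
import Pool.Agent.Q14.ST.ML

/-!
# All jobs of part 2 together
-/

set_option autoImplicit false

namespace Pool.Agent.Q35.ST

theorem sM1 : S_M1 := Pool.Agent.Q178.ST.m1
theorem sM2 : S_M2 := Pool.Agent.Q178.ST.m2 sM1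
theorem sJAC : S_JAC := Pool.Agent.Q151.ST.jac
theorem sIFT : S_IFT := Pool.Agent.Q178.ST.ift
theorem sWD : S_WD := Pool.Agent.Q178.ST.wd sM1
theorem sML : S_ML := Pool.Agent.Q14.ST.ml sMIN sRI
theorem sM3 : S_M3 := Pool.Agent.Q151.ST.m3 sM1 sM2
theorem sPP : S_PP := S_PP_of sM1 sM3 sJAC sIFT
theorem sOP : S_OP := S_OP_of sPP sWD sML

end Pool.Agent.Q35.ST
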