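import Pool.Agent.Q35.ST.Thm

/-!
# Basic lemmas: Nullstellensatz, Euler fields and scaling, multihomogeneous polynomials
-/

set_option autoImplicit false

namespace Pool.Agent.Q35.ST

open MvPolynomial

/-- a polynomial outside a prime ideal is nonzero at a zero of the ideal -/
lemma exists_pt {σ k : Type} [Finite σ] [Field k] [IsAlgClosed k] {P : Ideal (MvPolynomial σ k)}
    (hP : P.IsPrime) {f : MvPolynomial σ k} (hf : f ∉ P) : ∃ z, Van P z ∧ eval z f ≠ 0 := by
  by_contra hcon
  push Not at hcon
  apply hf
  rw [← MvPolynomial.IsPrime.vanishingIdeal_zeroLocus (K := k) P, mem_vanishingIdeal_iff]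
  intro z hz
  have := hcon z (fun g hg => by simpa [aeval_eq_eval] using hz g hg)
  simpa [aeval_eq_eval] using this

section euler

variable {κ : Type} {n : κ → ℕ} {k : Type} [Field k]

/-- degree of a monomial in the coordinates of the factor `l` -/
def bd (l : κ) (m : Pc n →₀ ℕ) : ℕ := ∑ i, m ⟨l, i⟩

lemma bd_add (l : κ) (m m' : Pc n →₀ ℕ) : bd l (m + m') = bd l m + bd l m' := by
  simp [bd, Finset.sum_add_distrib]

/-- the Euler vector field of the factor `l` -/
noncomputable def EU (l : κ) (f : MvPolynomial (Pc n) k) : MvPolynomial (Pc n) k :=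
  ∑ i : Fin (n l + 1), X ⟨l, i⟩ * pderiv ⟨l, i⟩ f

lemma EU_monomial (l : κ) (m : Pc n →₀ ℕ) (c : k) :
    EU l (monomial m c) = C (bd l m : k) * monomial m c := by
  unfold EU bd
  rw [Finset.sum_congr rfl (fun i _ => X_mul_pderiv_monomial (i := (⟨l, i⟩ : Pc n)) (m := m) (r := c))]
  rw [← Finset.sum_smul]
  simp [nsmul_eq_mul]

lemma EU_sum (l : κ) {ι : Type} (s : Finset ι) (f : ι → MvPolynomial (Pc n) k) :
    EU l (∑ i ∈ s, f i) = ∑ i ∈ s, EU l (f i) := by
  unfold EU
  rw [Finset.sum_comm]
  refine Finset.sum_congr rfl (fun i _ => ?_)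
  rw [map_sum, Finset.mul_sum]

lemma EU_add (l : κ) (f g : MvPolynomial (Pc n) k) : EU l (f + g) = EU l f + EU l g := by
  unfold EU
  rw [← Finset.sum_add_distrib]
  refine Finset.sum_congr rfl (fun i _ => ?_)
  rw [map_add, mul_add]

lemma EU_C_mul (l : κ) (a : k) (f : MvPolynomial (Pc n) k) : EU l (C a * f) = C a * EU l f := by
  unfold EU
  rw [Finset.mul_sum]
  refine Finset.sum_congr rfl (fun i _ => ?_)
  rw [pderiv_C_mul]
  ring

lemma EU_iter (l : κ) (j : ℕ) (f : MvPolynomial (Pc n) k) :
    (EU l)^[j] f = ∑ m ∈ f.support, C ((bd l m : k) ^ j) * monomial m (coeff m f) := by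
  induction j with
  | zero =>
    rw [Function.iterate_zero, id]
    conv_lhs => rw [f.as_sum]
    refine Finset.sum_congr rfl (fun m _ => ?_)
    simp
  | succ j ih =>
    rw [Function.iterate_succ_apply', ih, EU_sum]
    refine Finset.sum_congr rfl (fun m _ => ?_)
    rw [EU_C_mul, EU_monomial, ← mul_assoc, ← map_mul, pow_succ]

lemma eval_scale_monomial [Fintype κ] (c : κ → k) (z : Pc n → k) (m : Pc n →₀ ℕ) (a : k) :
    eval (fun s => c s.1 * z s) (monomial m a) = (∏ j, c j ^ bd j m) * eval z (monomial m a) := by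
  rw [eval_monomial, eval_monomial, Finsupp.prod_fintype _ _ (fun _ => pow_zero _),
    Finsupp.prod_fintype _ _ (fun _ => pow_zero _)]
  have : ∏ s : Pc n, (c s.1 * z s) ^ m s = (∏ j, c j ^ bd j m) * ∏ s : Pc n, z s ^ m s := by
    simp_rw [mul_pow]
    rw [Finset.prod_mul_distrib]
    congr 1
    rw [Fintype.prod_sigma]
    refine Finset.prod_congr rfl (fun j _ => ?_)
    rw [bd]
    exact Finset.prod_pow_eq_pow_sum Finset.univ (fun i => m (⟨j, i⟩ : Pc n)) (c j)
  rw [this]; ring

/-- the zeros of an ideal stable under the Euler vector field of a factor are stable under scaling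
the coordinates of this factor -/
lemma van_scale_one [DecidableEq κ] [Fintype κ] [CharZero k] {P : Ideal (MvPolynomial (Pc n) k)} {l : κ}
    (hl : StE P l) {z : Pc n → k} (hz : Van P z) (t : k) :
    Van P (fun s => (if s.1 = l then t else 1) * z s) := by
  intro f hf
  have hiter : ∀ j, (EU l)^[j] f ∈ P := by
    intro j
    induction j with
    | zero => exact hf
    | succ j ih => rw [Function.iterate_succ_apply']; exact hl _ ih
  have hq : ∀ q : Polynomial k,
      ∑ m ∈ f.support, q.eval (bd l m : k) * eval z (monomial m (coeff m f)) = 0 := by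
    intro q
    simp_rw [Polynomial.eval_eq_sum_range, Finset.sum_mul]
    rw [Finset.sum_comm]
    refine Finset.sum_eq_zero (fun j _ => ?_)
    have h1 := hz _ (hiter j)
    rw [EU_iter, map_sum] at h1
    have h2 : ∑ m ∈ f.support, q.coeff j * (bd l m : k) ^ j * eval z (monomial m (coeff m f)) =
        q.coeff j * ∑ m ∈ f.support, eval z (C ((bd l m : k) ^ j) * monomial m (coeff m f)) := by
      rw [Finset.mul_sum]
      refine Finset.sum_congr rfl (fun m _ => ?_)
      rw [map_mul, eval_C, mul_assoc]
    rw [h2, h1, mul_zero]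
  have hs : ∀ m : Pc n →₀ ℕ, (∏ j, (if j = l then t else 1) ^ bd j m) = t ^ bd l m := by
    intro m
    rw [Finset.prod_eq_single l]
    · simp
    · intro j _ hj; simp [hj]
    · simp
  conv_lhs => rw [f.as_sum]
  rw [map_sum]
  set N := f.support.image (fun m => bd l m) with hN
  set q := Lagrange.interpolate N (fun a : ℕ => (a : k)) (fun a => t ^ a) with hqd
  rw [← hq q]
  refine Finset.sum_congr rfl (fun m hm => ?_)
  rw [eval_scale_monomial (fun j => if j = l then t else 1) z m, hs m]
  congr 1
  rw [hqd, Lagrange.eval_interpolate_at_node _ (fun a _ b _ h => by exact_mod_cast h)]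
  exact Finset.mem_image_of_mem _ hm

/-- scaling in several factors -/
lemma van_scale [DecidableEq κ] [Fintype κ] [CharZero k] {P : Ideal (MvPolynomial (Pc n) k)} (T : Finset κ)
    (hl : ∀ l ∈ T, StE P l) {z : Pc n → k} (hz : Van P z) (c : κ → k) (hc : ∀ l, l ∉ T → c l = 1) :
    Van P (fun s => c s.1 * z s) := by
  classical
  induction T using Finset.induction_on generalizing c with
  | empty =>
    have : (fun s : Pc n => c s.1 * z s) = z := by
      funext s; rw [hc _ (by simp), one_mul]
    rw [this]; exact hz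
  | insert l T hlT ih =>
    have h1 := ih (fun m hm => hl m (Finset.mem_insert_of_mem hm)) (Function.update c l 1) (by
      intro m hm
      by_cases hml : m = l
      · subst hml; simp
      · rw [Function.update_of_ne hml]
        exact hc m (by simp [hml, hm]))
    have h2 := van_scale_one (hl l (Finset.mem_insert_self _ _)) h1 (c l)
    have : (fun s : Pc n => (if s.1 = l then c l else 1) * (Function.update c l 1 s.1 * z s)) =
        fun s => c s.1 * z s := by
      funext s
      by_cases hs : s.1 = l
      · rw [if_pos hs, hs]; simp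
      · rw [if_neg hs, Function.update_of_ne hs, one_mul]
    rw [this] at h2
    exact h2

/-! ### multihomogeneous polynomials -/

lemma MH.bd_eq {T : Set κ} {u : κ → ℕ} {f : MvPolynomial (Pc n) k} (h : MH T u f) {m : Pc n →₀ ℕ}
    (hm : coeff m f ≠ 0) {l : κ} (hl : l ∈ T) : bd l m = u l :=
  h m (mem_support_iff.2 hm) l hl

lemma MH.eval_scale [Fintype κ] {u : κ → ℕ} {f : MvPolynomial (Pc n) k} (h : MH Set.univ u f)
    (c : κ → k) (z : Pc n → k) :
    eval (fun s => c s.1 * z s) f = (∏ j, c j ^ u j) * eval z f := by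
  conv_lhs => rw [f.as_sum]
  conv_rhs => rw [f.as_sum]
  rw [map_sum, map_sum, Finset.mul_sum]
  refine Finset.sum_congr rfl (fun m hm => ?_)
  rw [eval_scale_monomial]
  congr 1
  refine Finset.prod_congr rfl (fun j _ => ?_)
  rw [h.bd_eq (mem_support_iff.1 hm) (Set.mem_univ j)]

lemma MH.EU {T : Set κ} {u : κ → ℕ} {f : MvPolynomial (Pc n) k} (h : MH T u f) {l : κ}
    (hl : l ∈ T) : EU l f = C (u l : k) * f := by
  have := EU_iter l 1 f
  rw [Function.iterate_one] at this
  rw [this]
  conv_rhs => rw [f.as_sum, Finset.mul_sum]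
  refine Finset.sum_congr rfl (fun m hm => ?_)
  rw [pow_one, h.bd_eq (mem_support_iff.1 hm) hl]

lemma MH.mul {T : Set κ} {u v : κ → ℕ} {f g : MvPolynomial (Pc n) k} (hf : MH T u f)
    (hg : MH T v g) : MH T (fun l => u l + v l) (f * g) := by
  classical
  intro m hm l hl
  obtain ⟨a, ha, b, hb, rfl⟩ := Finset.mem_add.1 (support_mul f g hm)
  have h1 := hf a ha l hl
  have h2 := hg b hb l hl
  simp only [Finsupp.add_apply, Finset.sum_add_distrib]
  rw [h1, h2]

lemma MH.sub {T : Set κ} {u : κ → ℕ} {f g : MvPolynomial (Pc n) k} (hf : MH T u f)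
    (hg : MH T u g) : MH T u (f - g) := by
  classical
  intro m hm l hl
  rcases Finset.mem_union.1 (support_sub _ f g hm) with h | h
  · exact hf m h l hl
  · exact hg m h l hl

lemma MH.pderiv {T : Set κ} {u : κ → ℕ} {f : MvPolynomial (Pc n) k} (hf : MH T u f)
    (s : Pc n) [DecidableEq κ] :
    MH T (fun l => u l - if l = s.1 then 1 else 0) (pderiv s f) := by
  classical
  intro m hm l hl
  have h0 : coeff (m + Finsupp.single s 1) f ≠ 0 := by
    intro h
    apply mem_support_iff.1 hm
    conv_lhs => rw [f.as_sum]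
    rw [map_sum, coeff_sum]
    refine Finset.sum_eq_zero (fun a ha => ?_)
    rw [pderiv_monomial, coeff_monomial]
    split_ifs with hh
    · by_cases ha0 : a s = 0
      · simp [ha0]
      · exfalso
        have : a = m + Finsupp.single s 1 := by
          rw [← hh]
          ext t
          by_cases hts : t = s
          · subst hts; simp; omega
          · simp [Ne.symm hts]
        rw [this] at ha
        exact (mem_support_iff.1 ha) h
    · rfl
  have h1 := hf.bd_eq h0 hl
  rw [bd_add] at h1
  have h2 : bd l (Finsupp.single s 1 : Pc n →₀ ℕ) = if l = s.1 then 1 else 0 := by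
    unfold bd
    obtain ⟨j, i⟩ := s
    by_cases hlj : l = j
    · subst hlj
      simp only [if_true]
      rw [Finset.sum_eq_single i]
      · simp
      · intro b _ hb
        rw [Finsupp.single_apply, if_neg]
        intro h
        apply hb
        simpa using h.symm
      · simp
    · simp only [hlj, if_false]
      refine Finset.sum_eq_zero (fun b _ => ?_)
      rw [Finsupp.single_apply, if_neg]
      intro h
      exact hlj (Sigma.mk.inj_iff.1 h).1.symm
  rw [h2] at h1
  change bd l m = u l - if l = s.1 then 1 else 0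
  omega

end euler

end Pool.Agent.Q35.ST
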