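import Pool.Agent.Q35.ST.Bas

/-!
# The classification of saturated subvarieties over an algebraically closed field
-/

set_option autoImplicit false

namespace Pool.Agent.Q35.ST

open MvPolynomial

section

variable {κ : Type} {n : κ → ℕ} {k : Type} [Field k]

/-- the prime ideals of the saturated subvarieties of the hypersurface `F = 0` -/
structure Sat (F : MvPolynomial (Pc n) k) (P : Ideal (MvPolynomial (Pc n) k)) : Prop where
  prime : P.IsPrime
  mem : F ∈ P
  std : ∀ l, StD F P l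
  ste : ∀ l, StE P l
  prop : ∀ l, ∃ i, (X ⟨l, i⟩ : MvPolynomial (Pc n) k) ∉ P

/-- the hypersurface `F = 0` is smooth -/
def Smth (F : MvPolynomial (Pc n) k) : Prop :=
  ∀ z : Pc n → k, Nz Set.univ z → eval z F = 0 → ∃ s, eval z (pderiv s F) ≠ 0

open Classical in
/-- the directions in which all derivatives of `F` vanish on `P` -/
noncomputable def crit [Fintype κ] (F : MvPolynomial (Pc n) k)
    (P : Ideal (MvPolynomial (Pc n) k)) : Finset κ :=
  Finset.univ.filter (fun l => ∀ i, pderiv ⟨l, i⟩ F ∈ P)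

lemma mem_crit [Fintype κ] {F : MvPolynomial (Pc n) k} {P : Ideal (MvPolynomial (Pc n) k)} {l : κ} :
    l ∈ crit F P ↔ ∀ i, pderiv ⟨l, i⟩ F ∈ P := by
  simp [crit]

/-- tangential vector fields -/
noncomputable def dd (F : MvPolynomial (Pc n) k) (l : κ) (i j : Fin (n l + 1)) :
    Derivation k (MvPolynomial (Pc n) k) (MvPolynomial (Pc n) k) :=
  (pderiv (⟨l, i⟩ : Pc n) F) • (pderiv (⟨l, j⟩ : Pc n)) -
    (pderiv (⟨l, j⟩ : Pc n) F) • (pderiv (⟨l, i⟩ : Pc n))

/-- Euler vector fields -/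
noncomputable def ee (k : Type) [Field k] (n : κ → ℕ) (l : κ) :
    Derivation k (MvPolynomial (Pc n) k) (MvPolynomial (Pc n) k) :=
  ∑ i : Fin (n l + 1), (X (⟨l, i⟩ : Pc n) : MvPolynomial (Pc n) k) • (pderiv (⟨l, i⟩ : Pc n))

lemma dd_apply (F : MvPolynomial (Pc n) k) (l : κ) (i j : Fin (n l + 1))
    (f : MvPolynomial (Pc n) k) :
    dd F l i j f = pderiv ⟨l, i⟩ F * pderiv ⟨l, j⟩ f - pderiv ⟨l, j⟩ F * pderiv ⟨l, i⟩ f := by
  simp [dd]

lemma ee_apply (l : κ) (f : MvPolynomial (Pc n) k) :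
    ee k n l f = ∑ i : Fin (n l + 1), X ⟨l, i⟩ * pderiv ⟨l, i⟩ f := by
  rw [ee, ← Derivation.coeFnAddMonoidHom_apply, map_sum, Finset.sum_apply]
  refine Finset.sum_congr rfl (fun i _ => ?_)
  rw [Derivation.coeFnAddMonoidHom_apply, Derivation.smul_apply, smul_eq_mul]

lemma StD.min [CharZero k] (hM : S_MIN) {F : MvPolynomial (Pc n) k}
    {I P : Ideal (MvPolynomial (Pc n) k)} {l : κ} (h : StD F I l) (hP : P ∈ I.minimalPrimes) :
    StD F P l := by
  intro i j f hf
  rw [← dd_apply]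
  exact hM _ _ (dd F l i j) I P (fun g hg => by rw [dd_apply]; exact h i j g hg) hP f hf

lemma StE.min [CharZero k] (hM : S_MIN) {I P : Ideal (MvPolynomial (Pc n) k)} {l : κ}
    (h : StE I l) (hP : P ∈ I.minimalPrimes) : StE P l := by
  intro f hf
  rw [← ee_apply]
  exact hM _ _ (ee k n l) I P (fun g hg => by rw [ee_apply]; exact h g hg) hP f hf

lemma der_span (D : Derivation k (MvPolynomial (Pc n) k) (MvPolynomial (Pc n) k))
    (G : Set (MvPolynomial (Pc n) k)) (I : Ideal (MvPolynomial (Pc n) k)) (hG : G ⊆ I)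
    (h : ∀ g ∈ G, D g ∈ I) : ∀ f ∈ Ideal.span G, D f ∈ I := by
  intro f hf
  have hle : Ideal.span G ≤ I := Ideal.span_le.2 hG
  induction hf using Submodule.span_induction with
  | mem x hx => exact h x hx
  | zero => simp
  | add x y hx hy h1 h2 => rw [map_add]; exact I.add_mem h1 h2
  | smul a x hx h1 =>
    rw [smul_eq_mul, Derivation.leibniz, smul_eq_mul, smul_eq_mul]
    exact I.add_mem (I.mul_mem_left _ h1) (I.mul_mem_right _ (hle hx))

lemma der_sup (D : Derivation k (MvPolynomial (Pc n) k) (MvPolynomial (Pc n) k))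
    (P : Ideal (MvPolynomial (Pc n) k)) (T : Set κ) (z : Pc n → k) (h : ∀ g ∈ P, D g ∈ P)
    (hD : ∀ s : Pc n, s.1 ∉ T → D (X s) = 0) : ∀ f ∈ P ⊔ Fro T z, D f ∈ P ⊔ Fro T z := by
  intro f hf
  obtain ⟨p, hp, q, hq, rfl⟩ := Submodule.mem_sup.1 hf
  rw [map_add]
  refine Ideal.add_mem _ (Ideal.mem_sup_left (h p hp)) ?_
  refine der_span D _ (P ⊔ Fro T z) ?_ ?_ q hq
  · exact fun g hg => Ideal.mem_sup_right (Ideal.subset_span hg)
  · rintro g ⟨s, hs, rfl⟩
    rw [map_sub, hD s hs]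
    have : D (C (z s)) = 0 := by
      rw [← algebraMap_eq]; exact D.map_algebraMap _
    rw [this, sub_zero]
    exact Ideal.zero_mem _

end

variable {κ : Type} [Fintype κ] [DecidableEq κ] {n : κ → ℕ} {k : Type} [Field k] [CharZero k]
  [IsAlgClosed k] {F : MvPolynomial (Pc n) k} {d : κ → ℕ}

/-- the theorem on saturated subvarieties, for the generic fibres over the critical directions -/
theorem step1 (hA : S_A) (hM : S_MIN) (hF : MH Set.univ d F) (hd : ∀ l, d l ≠ 0)
    (hn : ∀ l, 2 ≤ n l) (hsm : Smth F) {P : Ideal (MvPolynomial (Pc n) k)} (h : Sat F P) :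
    ∃ f, f ∉ P ∧ ∀ z, Van P z → eval z f ≠ 0 → Nz Set.univ z ∧
      ∀ g ∈ P, ∃ h, g - F * h ∈ Fro (((crit F P)ᶜ : Finset κ) : Set κ) z := by
  classical
  set T : Finset κ := (crit F P)ᶜ with hT
  have hprime := h.prime
  have hb := h.prop
  choose b hb using hb
  have ha : ∀ l, ∃ i, l ∈ T → pderiv (⟨l, i⟩ : Pc n) F ∉ P := by
    intro l
    by_cases hl : l ∈ T
    · rw [hT, Finset.mem_compl, mem_crit] at hl
      push Not at hl
      obtain ⟨i, hi⟩ := hl
      exact ⟨i, fun _ => hi⟩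
    · exact ⟨0, fun h => absurd h hl⟩
  choose a ha using ha
  have hX : (∏ l, X (⟨l, b l⟩ : Pc n) : MvPolynomial (Pc n) k) ∉ P := by
    rw [hprime.prod_mem_iff]
    push Not
    exact fun l _ => hb l
  have hnz : ∀ z : Pc n → k, eval z (∏ l, X (⟨l, b l⟩ : Pc n)) ≠ 0 → Nz Set.univ z := by
    intro z hz l _
    rw [map_prod, Finset.prod_ne_zero_iff] at hz
    exact ⟨b l, by simpa using hz l (Finset.mem_univ _)⟩
  have hcr : ∀ z : Pc n → k, Van P z → ∀ s : Pc n, eval z (pderiv s F) ≠ 0 → s.1 ∈ T := by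
    intro z hz s hs
    rw [hT, Finset.mem_compl, mem_crit]
    intro hall
    exact hs (hz _ (hall s.2))
  have hTne : T.Nonempty := by
    obtain ⟨z, hz, hz'⟩ := exists_pt hprime hX
    obtain ⟨s, hs⟩ := hsm z (hnz z hz') (hz F h.mem)
    exact ⟨s.1, hcr z hz s hs⟩
  refine ⟨(∏ l ∈ T, pderiv (⟨l, a l⟩ : Pc n) F) * ∏ l, X (⟨l, b l⟩ : Pc n), ?_, ?_⟩
  · intro hcon
    rcases hprime.mem_or_mem hcon with h1 | h1
    · rw [hprime.prod_mem_iff] at h1
      obtain ⟨l, hl, hl'⟩ := h1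
      exact ha l hl hl'
    · exact hX h1
  intro z hz hfz
  rw [map_mul] at hfz
  have hfz1 := left_ne_zero_of_mul hfz
  have hfz2 := right_ne_zero_of_mul hfz
  have hNz := hnz z hfz2
  refine ⟨hNz, ?_⟩
  set I : Ideal (MvPolynomial (Pc n) k) := P ⊔ Fro (T : Set κ) z with hI
  have hker : (RingHom.ker (eval z)).IsPrime := RingHom.ker_isPrime _
  have hIk : I ≤ RingHom.ker (eval z) := by
    rw [hI, sup_le_iff]
    refine ⟨fun g hg => ?_, ?_⟩
    · rw [RingHom.mem_ker]; exact hz g hg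
    · unfold Fro
      rw [Ideal.span_le]
      rintro g ⟨s, hs, rfl⟩
      rw [SetLike.mem_coe, RingHom.mem_ker]
      simp
  obtain ⟨P₁, hP₁, hP₁k⟩ := Ideal.exists_minimalPrimes_le hIk
  have hIP : I ≤ P₁ := hP₁.1.2
  have hPP : P ≤ P₁ := le_trans le_sup_left hIP
  have hXT : ∀ l ∈ T, ∀ i : Fin (n l + 1), ∀ s : Pc n, s.1 ∉ (T : Set κ) →
      pderiv (⟨l, i⟩ : Pc n) (X s : MvPolynomial (Pc n) k) = 0 := by
    intro l hl i s hs
    apply pderiv_X_of_ne
    rintro rfl
    exact hs (by simpa using hl)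
  have H : Hyp F T z P₁ := by
    refine ⟨hP₁.1.1, hPP h.mem, ?_, ?_, ?_, ?_, ?_, ?_⟩
    · intro l hl
      refine StD.min hM (I := I) ?_ hP₁
      intro i j f hf
      rw [← dd_apply]
      refine der_sup (dd F l i j) P T z (fun g hg => ?_) (fun s hs => ?_) f hf
      · rw [dd_apply]; exact h.std l i j g hg
      · rw [dd_apply, hXT l hl i s hs, hXT l hl j s hs, mul_zero, mul_zero, sub_zero]
    · intro l hl
      refine StE.min hM (I := I) ?_ hP₁
      intro f hf
      rw [← ee_apply]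
      refine der_sup (ee k n l) P T z (fun g hg => ?_) (fun s hs => ?_) f hf
      · rw [ee_apply]; exact h.ste l g hg
      · rw [ee_apply]
        refine Finset.sum_eq_zero (fun i _ => ?_)
        rw [hXT l hl i s hs, mul_zero]
    · intro s hs
      apply hIP
      apply Ideal.mem_sup_right
      exact Ideal.subset_span ⟨s, by simpa using hs, rfl⟩
    · intro l _
      refine ⟨b l, fun hcon => ?_⟩
      have := hP₁k hcon
      rw [RingHom.mem_ker] at this
      apply hfz2
      rw [map_prod]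
      exact Finset.prod_eq_zero (Finset.mem_univ l) this
    · intro l hl
      refine ⟨a l, fun hcon => ?_⟩
      have := hP₁k hcon
      rw [RingHom.mem_ker] at this
      apply hfz1
      rw [map_prod]
      exact Finset.prod_eq_zero hl this
    · intro y hy hyT
      have hyP : Van P y := fun g hg => hy g (hPP hg)
      have hyn : Nz Set.univ y := by
        intro l _
        by_cases hl : l ∈ T
        · exact hyT l (by simpa using hl)
        · obtain ⟨i, hi⟩ := hNz l (Set.mem_univ _)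
          refine ⟨i, ?_⟩
          have := hy _ (hIP (Ideal.mem_sup_right (Ideal.subset_span ⟨⟨l, i⟩, by simpa using hl, rfl⟩)))
          rw [map_sub, eval_X, eval_C, sub_eq_zero] at this
          rw [this]; exact hi
      obtain ⟨s, hs⟩ := hsm y hyn (hyP F h.mem)
      exact ⟨s.1, hcr y hyP s hs, s.2, hs⟩
  intro g hg
  exact hA κ n k F d hF hd hn T z P₁ H hTne g (hPP hg)

end Pool.Agent.Q35.ST
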