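import Pool.Agent.Q35.ST.Co

/-!
# The classification of saturated subvarieties over an algebraically closed field: results
-/

set_option autoImplicit false

namespace Pool.Agent.Q35.ST

open MvPolynomial

variable {κ : Type} [Fintype κ] [DecidableEq κ] {n : κ → ℕ} {k : Type} [Field k] [CharZero k]
  [IsAlgClosed k] {F : MvPolynomial (Pc n) k} {d : κ → ℕ}

/-- there are non-critical directions -/
lemma crit_ne (hsm : Smth F) {P : Ideal (MvPolynomial (Pc n) k)} (h : Sat F P) :
    crit F P ≠ Finset.univ := by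
  classical
  have hb := h.prop
  choose b hb using hb
  have hX : (∏ l, X (⟨l, b l⟩ : Pc n) : MvPolynomial (Pc n) k) ∉ P := by
    rw [h.prime.prod_mem_iff]
    push Not
    exact fun l _ => hb l
  obtain ⟨z, hz, hz'⟩ := exists_pt h.prime hX
  have hnz : Nz Set.univ z := by
    intro l _
    rw [map_prod, Finset.prod_ne_zero_iff] at hz'
    exact ⟨b l, by simpa using hz' l (Finset.mem_univ _)⟩
  obtain ⟨s, hs⟩ := hsm z hnz (hz F h.mem)
  intro hcon
  have : s.1 ∈ crit F P := by rw [hcon]; simp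
  rw [mem_crit] at this
  exact hs (hz _ (this s.2))

/-- the derivatives in the critical directions are proportional to the polynomial -/
lemma minors_mem (hA : S_A) (hM : S_MIN) (hF : MH Set.univ d F) (hd : ∀ l, d l ≠ 0)
    (hn : ∀ l, 2 ≤ n l) (hsm : Smth F) {P : Ideal (MvPolynomial (Pc n) k)} (h : Sat F P) :
    mi (crit F P) F ≤ P := by
  classical
  obtain ⟨f, hf, hfz⟩ := step1 hA hM hF hd hn hsm h
  set S := crit F P with hS
  unfold mi
  rw [Ideal.span_le]
  rintro g ⟨c, hc, c', hc', s, hs, rfl⟩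
  rw [SetLike.mem_coe]
  by_contra hcon
  have hmul : f * (co S F c' * pderiv s (co S F c) - co S F c * pderiv s (co S F c')) ∉ P := by
    intro h1
    rcases h.prime.mem_or_mem h1 with h2 | h2
    · exact hf h2
    · exact hcon h2
  obtain ⟨z, hz, hz'⟩ := exists_pt h.prime hmul
  rw [map_mul] at hz'
  obtain ⟨_, hz2⟩ := hfz z hz (left_ne_zero_of_mul hz')
  apply right_ne_zero_of_mul hz'
  have hsP : pderiv s F ∈ P := by
    have : s.1 ∈ crit F P := hs
    rw [mem_crit] at this
    exact this s.2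
  obtain ⟨q, hq⟩ := hz2 _ hsP
  set T : Set κ := (((crit F P)ᶜ : Finset κ) : Set κ) with hT
  have hTm : ∀ l, l ∈ T ↔ l ∉ S := by intro l; simp [hT, hS]
  have h0 := frz_fro T z hq
  rw [map_sub, map_mul, sub_eq_zero] at h0
  -- the restrictions to the fibre
  have e1 : ∀ a ∈ MM S F, frz T z (co S F a * monomial a 1) = monomial a (eval z (co S F a)) := by
    intro a ha
    rw [map_mul, frz_of_vars T z _ (fun t ht => by rw [hTm]; simpa using co_vars S F a t ht),
      frz_monomial T z a (fun t ht => by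
        rw [hTm, not_not] at ht
        exact MM_zero S F a ha t ht), C_mul_monomial, mul_one]
  have hF1 : frz T z F = ∑ a ∈ MM S F, monomial a (eval z (co S F a)) := by
    conv_lhs => rw [co_sum S F]
    rw [map_sum]
    exact Finset.sum_congr rfl e1
  have e2 : ∀ a ∈ MM S F, frz T z (pderiv s (co S F a * monomial a 1)) =
      monomial a (eval z (pderiv s (co S F a))) := by
    intro a ha
    have h3 : pderiv s (monomial a (1 : k)) = 0 := by
      rw [pderiv_monomial, MM_zero S F a ha s hs]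
      simp
    have hv := vars_pderiv_sub (k := k) s (co S F a) {t : Pc n | t.1 ∈ S} (co_vars S F a)
    rw [Derivation.leibniz, h3, smul_zero, zero_add, smul_eq_mul, map_mul, mul_comm,
      frz_of_vars T z _ (fun t ht => by rw [hTm, not_not]; exact hv t ht),
      frz_monomial T z a (fun t ht => by
        rw [hTm, not_not] at ht
        exact MM_zero S F a ha t ht), C_mul_monomial, mul_one]
  have hF2 : frz T z (pderiv s F) = ∑ a ∈ MM S F, monomial a (eval z (pderiv s (co S F a))) := by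
    conv_lhs => rw [co_sum S F]
    rw [map_sum, map_sum]
    exact Finset.sum_congr rfl e2
  have hco : ∀ (w : (Pc n →₀ ℕ) → k), ∀ a ∈ MM S F, coeff a (∑ b ∈ MM S F, monomial b (w b)) = w a := by
    intro w a ha
    rw [coeff_sum, Finset.sum_eq_single a]
    · rw [coeff_monomial, if_pos rfl]
    · intro b _ hba
      rw [coeff_monomial, if_neg hba]
    · intro h; exact absurd ha h
  have hdeg : ∀ m, coeff m (frz T z F) ≠ 0 → m.degree = ∑ l, if l ∈ S then 0 else d l := by
    intro m hm
    rw [hF1, coeff_sum] at hm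
    obtain ⟨a, ha, ha'⟩ := Finset.exists_ne_zero_of_sum_ne_zero hm
    rw [coeff_monomial] at ha'
    have : a = m := by
      by_contra hne
      rw [if_neg hne] at ha'
      exact ha' rfl
    rw [← this]
    exact MM_degree S F hF a ha
  have key : ∀ a ∈ MM S F, eval z (pderiv s (co S F a)) =
      eval z (co S F a) * coeff 0 (frz T z q) := by
    intro a ha
    have h4 := congrArg (coeff a) h0
    rw [coeff_mul_hom hdeg (MM_degree S F hF a ha), hF1, hF2,
      hco (fun b => eval z (pderiv s (co S F b))) a ha, hco (fun b => eval z (co S F b)) a ha] at h4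
    exact h4
  rw [map_sub, map_mul, map_mul, key c hc, key c' hc']
  ring

lemma co_notMem (hsm : Smth F) {P : Ideal (MvPolynomial (Pc n) k)} (h : Sat F P) :
    ∃ c ∈ MM (crit F P) F, co (crit F P) F c ∉ P := by
  classical
  by_contra hcon
  push Not at hcon
  have h1 := crit_ne hsm h
  obtain ⟨l, hl⟩ : ∃ l, l ∉ crit F P := by
    by_contra h2
    push Not at h2
    exact h1 (Finset.eq_univ_iff_forall.2 h2)
  apply hl
  rw [mem_crit]
  intro i
  rw [co_sum (crit F P) F, map_sum]
  refine Ideal.sum_mem _ (fun c hc => ?_)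
  have h2 : pderiv (⟨l, i⟩ : Pc n) (co (crit F P) F c) = 0 := by
    apply pderiv_eq_zero_of_notMem_vars
    intro h3
    exact hl (co_vars _ F c _ h3)
  rw [Derivation.leibniz, h2, smul_zero, add_zero, smul_eq_mul]
  exact Ideal.mul_mem_right _ _ (hcon c hc)

/-- a saturated subvariety is a point in the critical directions, and more precisely so is every
minimal prime of the ideal of minors below it -/
lemma isol (hU : S_U) (hF : MH Set.univ d F) (hd : ∀ l, d l ≠ 0)
    (hn : ∀ l, 2 ≤ n l) (hsm : Smth F) {P Q : Ideal (MvPolynomial (Pc n) k)} (h : Sat F P)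
    (hQP : Q ≤ P) (hQ : Q.IsPrime) (hQs : ∀ l, StE Q l) (hQm : mi (crit F P) F ≤ Q) :
    ∀ y y', Van Q y → Van Q y' → Nz Set.univ y → Nz Set.univ y' → ∀ l ∈ crit F P,
    ∃ c : k, ∀ i, y' ⟨l, i⟩ = c * y ⟨l, i⟩ := by
  classical
  refine hU κ n k F d hF hd hn hsm (crit F P) (crit_ne hsm h) (MM (crit F P) F) (co (crit F P) F)
    (MM_zero _ F) (MM_deg _ F hF) (fun c _ => co_vars _ F c) (fun c _ => co_MH _ F hF c)
    (co_sum _ F) Q hQ hQs ?_ ?_ ?_
  · intro l
    obtain ⟨i, hi⟩ := h.prop l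
    exact ⟨i, fun hcon => hi (hQP hcon)⟩
  · intro c hc c' hc' s hs
    exact hQm (Ideal.subset_span ⟨c, hc, c', hc', s, hs, rfl⟩)
  · obtain ⟨c, hc, hc'⟩ := co_notMem hsm h
    exact ⟨c, hc, fun hcon => hc' (hQP hcon)⟩

/-- if the coordinates in the critical directions of a point of `F = 0` are proportional to those of
a point of the saturated subvariety then the point lies on the subvariety -/
lemma fibre (hA : S_A) (hM : S_MIN) (hU : S_U) (hF : MH Set.univ d F) (hd : ∀ l, d l ≠ 0)
    (hn : ∀ l, 2 ≤ n l) (hsm : Smth F) {P : Ideal (MvPolynomial (Pc n) k)} (h : Sat F P)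
    {x y : Pc n → k} (hx : Van P x) (hxn : Nz Set.univ x)
    (hxy : ∀ l ∈ crit F P, ∃ c : k, c ≠ 0 ∧ ∀ i, y ⟨l, i⟩ = c * x ⟨l, i⟩) (hy : eval y F = 0) :
    Van P y := by
  classical
  obtain ⟨f, hf, hfz⟩ := step1 hA hM hF hd hn hsm h
  obtain ⟨p, hp, hpf⟩ := exists_pt h.prime hf
  obtain ⟨hpn, hp2⟩ := hfz p hp hpf
  have hpr := isol hU hF hd hn hsm h (le_refl P) h.prime h.ste (minors_mem hA hM hF hd hn hsm h)
    p x hp hx hpn hxn
  have hc : ∀ l, ∃ c : k, c ≠ 0 ∧ ((l ∈ crit F P → ∀ i, y ⟨l, i⟩ = c * p ⟨l, i⟩) ∧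
      (l ∉ crit F P → c = 1)) := by
    intro l
    by_cases hl : l ∈ crit F P
    · obtain ⟨c, hc⟩ := hpr l hl
      obtain ⟨c', hc'0, hc'⟩ := hxy l hl
      have hc0 : c ≠ 0 := by
        rintro rfl
        obtain ⟨i, hi⟩ := hxn l (Set.mem_univ _)
        apply hi
        rw [hc i, zero_mul]
      refine ⟨c' * c, mul_ne_zero hc'0 hc0, fun _ i => ?_, fun h => absurd hl h⟩
      rw [hc' i, hc i, mul_assoc]
    · exact ⟨1, one_ne_zero, fun h => absurd h hl, fun _ => rfl⟩
  choose c hc0 hc1 hc2 using hc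
  set y' : Pc n → k := fun s => (c s.1)⁻¹ * y s with hy'
  have hy'F : eval y' F = 0 := by
    rw [hy', hF.eval_scale (fun l => (c l)⁻¹) y, hy, mul_zero]
  have hy'P : Van P y' := by
    intro g hg
    obtain ⟨q, hq⟩ := hp2 g hg
    have h1 : ∀ r ∈ Fro (((crit F P)ᶜ : Finset κ) : Set κ) p, eval y' r = 0 := by
      intro r hr
      have : Fro (((crit F P)ᶜ : Finset κ) : Set κ) p ≤ RingHom.ker (eval y') := by
        unfold Fro
        rw [Ideal.span_le]
        rintro r ⟨s, hs, rfl⟩
        rw [SetLike.mem_coe, RingHom.mem_ker, map_sub, eval_X, eval_C, sub_eq_zero]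
        have hs' : s.1 ∈ crit F P := by simpa using hs
        rw [hy']
        have h2 : y s = c s.1 * p s := hc1 s.1 hs' s.2
        simp only
        rw [h2, ← mul_assoc, inv_mul_cancel₀ (hc0 _), one_mul]
      exact this hr
    have h2 := h1 _ hq
    rw [map_sub, map_mul, hy'F, zero_mul, sub_zero] at h2
    exact h2
  have h3 := van_scale Finset.univ (fun l _ => h.ste l) hy'P c (fun l hl => absurd (Finset.mem_univ l) hl)
  have h4 : (fun s : Pc n => c s.1 * y' s) = y := by
    funext s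
    rw [hy']
    simp only
    rw [← mul_assoc, mul_inv_cancel₀ (hc0 _), one_mul]
  rw [h4] at h3
  exact h3

/-- a saturated subvariety is determined by its critical directions and a component of the ideal of
minors -/
lemma le_of_same (hA : S_A) (hM : S_MIN) (hU : S_U) (hF : MH Set.univ d F) (hd : ∀ l, d l ≠ 0)
    (hn : ∀ l, 2 ≤ n l) (hsm : Smth F) {P P' Q : Ideal (MvPolynomial (Pc n) k)} (h : Sat F P)
    (h' : Sat F P') (hcr : crit F P = crit F P') (hQ : Q ∈ (mi (crit F P) F).minimalPrimes)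
    (hQP : Q ≤ P) (hQP' : Q ≤ P') : P ≤ P' := by
  classical
  intro g hg
  by_contra hcon
  have hb := h'.prop
  choose b hb using hb
  have hX : (∏ l, X (⟨l, b l⟩ : Pc n) : MvPolynomial (Pc n) k) ∉ P' := by
    rw [h'.prime.prod_mem_iff]
    push Not
    exact fun l _ => hb l
  have hmul : (∏ l, X (⟨l, b l⟩ : Pc n) : MvPolynomial (Pc n) k) * g ∉ P' := by
    intro h1
    rcases h'.prime.mem_or_mem h1 with h2 | h2
    · exact hX h2
    · exact hcon h2
  obtain ⟨z, hz, hz'⟩ := exists_pt h'.prime hmul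
  rw [map_mul] at hz'
  have hzn : Nz Set.univ z := by
    intro l _
    have := left_ne_zero_of_mul hz'
    rw [map_prod, Finset.prod_ne_zero_iff] at this
    exact ⟨b l, by simpa using this l (Finset.mem_univ _)⟩
  obtain ⟨f, hf, hfz⟩ := step1 hA hM hF hd hn hsm h
  obtain ⟨p, hp, hpf⟩ := exists_pt h.prime hf
  obtain ⟨hpn, _⟩ := hfz p hp hpf
  apply right_ne_zero_of_mul hz'
  have hste : ∀ l, StE Q l := fun l => StE.min hM (mi_ste (crit F P) hF l) hQ
  have h1 := isol hU hF hd hn hsm h hQP hQ.1.1 hste hQ.1.2 p z (fun r hr => hp r (hQP hr))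
    (fun r hr => hz r (hQP' hr)) hpn hzn
  refine fibre hA hM hU hF hd hn hsm h hp hpn (fun l hl => ?_) (hz F h'.mem) g hg
  obtain ⟨c, hc⟩ := h1 l hl
  refine ⟨c, ?_, hc⟩
  rintro rfl
  obtain ⟨i, hi⟩ := hzn l (Set.mem_univ _)
  apply hi
  rw [hc i, zero_mul]

/-- a smooth hypersurface has finitely many saturated subvarieties -/
theorem finite_sat (hA : S_A) (hM : S_MIN) (hU : S_U) (hF : MH Set.univ d F) (hd : ∀ l, d l ≠ 0)
    (hn : ∀ l, 2 ≤ n l) (hsm : Smth F) :
    {P : Ideal (MvPolynomial (Pc n) k) | Sat F P}.Finite := by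
  classical
  have hex : ∀ P : Ideal (MvPolynomial (Pc n) k), ∃ Q : Ideal (MvPolynomial (Pc n) k), Sat F P →
      Q ∈ (mi (crit F P) F).minimalPrimes ∧ Q ≤ P := by
    intro P
    by_cases h : Sat F P
    · have := h.prime
      obtain ⟨Q, hQ, hQP⟩ := Ideal.exists_minimalPrimes_le (minors_mem hA hM hF hd hn hsm h)
      exact ⟨Q, fun _ => ⟨hQ, hQP⟩⟩
    · exact ⟨⊤, fun h' => absurd h' h⟩
  choose q hq using hex
  refine Set.Finite.of_finite_image (f := fun P => (crit F P, q P)) ?_ ?_
  · refine Set.Finite.subset (Set.finite_iUnion (fun S : Finset κ => Set.Finite.prod (Set.finite_singleton S)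
      (Ideal.finite_minimalPrimes_of_isNoetherianRing _ (mi S F)))) ?_
    rintro _ ⟨P, hP, rfl⟩
    rw [Set.mem_iUnion]
    exact ⟨crit F P, rfl, (hq P hP).1⟩
  · intro P hP P' hP' heq
    simp only [Prod.mk.injEq] at heq
    obtain ⟨hQ1, hQ2⟩ := hq P hP
    obtain ⟨hQ1', hQ2'⟩ := hq P' hP'
    refine le_antisymm ?_ ?_
    · exact le_of_same hA hM hU hF hd hn hsm hP hP' heq.1 hQ1 hQ2 (heq.2 ▸ hQ2')
    · exact le_of_same hA hM hU hF hd hn hsm hP' hP heq.1.symm hQ1' hQ2' (heq.2 ▸ hQ2)

/-- the point `x` is special: on the whole fibre through `x` over some of the factors all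
derivatives in the directions of these factors vanish -/
def Spec (F : MvPolynomial (Pc n) k) (x : Pc n → k) : Prop :=
  ∃ S : Finset κ, S.Nonempty ∧ ∀ y : Pc n → k, (∀ t : Pc n, t.1 ∈ S → y t = x t) → eval y F = 0 →
    ∀ s : Pc n, s.1 ∈ S → eval y (pderiv s F) = 0

/-- through a point which is not special there is no proper saturated subvariety -/
theorem eq_of_not_spec (hA : S_A) (hM : S_MIN) (hU : S_U) (hF : MH Set.univ d F)
    (hd : ∀ l, d l ≠ 0) (hn : ∀ l, 2 ≤ n l) (hsm : Smth F) {P : Ideal (MvPolynomial (Pc n) k)}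
    (h : Sat F P) {x : Pc n → k} (hx : Van P x) (hxn : Nz Set.univ x) (hsp : ¬ Spec F x) :
    P = Ideal.span {F} := by
  classical
  have hcr : crit F P = ∅ := by
    by_contra hne
    apply hsp
    refine ⟨crit F P, Finset.nonempty_iff_ne_empty.2 hne, fun y hy hyF s hs => ?_⟩
    have : Van P y := by
      refine fibre hA hM hU hF hd hn hsm h hx hxn (fun l hl => ⟨1, one_ne_zero, fun i => ?_⟩) hyF
      rw [one_mul]; exact hy _ hl
    refine this _ ?_
    rw [mem_crit] at hs
    exact hs s.2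
  refine le_antisymm ?_ ?_
  · obtain ⟨f, hf, hfz⟩ := step1 hA hM hF hd hn hsm h
    obtain ⟨p, hp, hpf⟩ := exists_pt h.prime hf
    obtain ⟨_, hp2⟩ := hfz p hp hpf
    intro g hg
    obtain ⟨q, hq⟩ := hp2 g hg
    rw [hcr] at hq
    have : Fro (((∅ : Finset κ)ᶜ : Finset κ) : Set κ) p = ⊥ := by
      unfold Fro
      rw [Ideal.span_eq_bot]
      rintro r ⟨s, hs, rfl⟩
      simp at hs
    rw [this, Ideal.mem_bot, sub_eq_zero] at hq
    rw [hq]
    exact Ideal.mul_mem_right _ _ (Ideal.subset_span rfl)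
  · rw [Ideal.span_le]
    rintro g rfl
    exact h.mem

end Pool.Agent.Q35.ST
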