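import Pool.Agent.Q35.ST.Cls

/-!
# Coefficients of a multihomogeneous polynomial with respect to the variables of some factors
-/

set_option autoImplicit false

namespace Pool.Agent.Q35.ST

open MvPolynomial

section vars

variable {σ k : Type} [Field k]

lemma vars_pderiv_sub (s : σ) (f : MvPolynomial σ k) (B : Set σ) (h : ∀ t ∈ f.vars, t ∈ B) :
    ∀ t ∈ (pderiv s f).vars, t ∈ B := by
  classical
  intro t ht
  obtain ⟨m, hm, htm⟩ := (mem_vars_iff_mem_support t).1 ht
  have h0 : coeff (m + Finsupp.single s 1) f ≠ 0 := by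
    intro h
    apply mem_support_iff.1 hm
    conv_lhs => rw [f.as_sum]
    rw [map_sum, coeff_sum]
    refine Finset.sum_eq_zero (fun a ha => ?_)
    rw [pderiv_monomial, coeff_monomial]
    split_ifs with hh
    · by_cases ha0 : a s = 0
      · simp [ha0]
      · exfalso
        have : a = m + Finsupp.single s 1 := by
          rw [← hh]
          ext t
          by_cases hts : t = s
          · subst hts; simp; omega
          · simp [Ne.symm hts]
        rw [this] at ha
        exact (mem_support_iff.1 ha) h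
    · rfl
  apply h
  rw [mem_vars_iff_mem_support]
  refine ⟨_, mem_support_iff.2 h0, ?_⟩
  rw [Finsupp.mem_support_iff] at htm ⊢
  rw [Finsupp.add_apply]
  omega

/-- only top coefficients see a homogeneous factor -/
lemma coeff_mul_hom {G H : MvPolynomial σ k} {D : ℕ} (hG : ∀ m, coeff m G ≠ 0 → m.degree = D)
    {c : σ →₀ ℕ} (hc : c.degree = D) : coeff c (G * H) = coeff c G * coeff 0 H := by
  classical
  rw [coeff_mul, Finset.sum_eq_single (c, 0)]
  · rintro ⟨a, b⟩ hab hne
    rw [Finset.HasAntidiagonal.mem_antidiagonal] at hab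
    simp only at hab ⊢
    by_cases ha : coeff a G = 0
    · rw [ha, zero_mul]
    · exfalso
      have h1 := hG a ha
      have h2 : a.degree + b.degree = D := by rw [← hc, ← hab, map_add]
      have h3 : b = 0 := by
        rw [← Finsupp.degree_eq_zero_iff]; omega
      subst h3
      rw [add_zero] at hab
      exact hne (by rw [hab])
  · intro h
    exfalso
    apply h
    rw [Finset.HasAntidiagonal.mem_antidiagonal]
    simp

end vars

variable {κ : Type} {n : κ → ℕ} {k : Type} [Field k]

/-- part of a monomial outside `S` -/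
noncomputable def qS [DecidableEq κ] (S : Finset κ) (m : Pc n →₀ ℕ) : Pc n →₀ ℕ := m.filter (fun s => s.1 ∉ S)

/-- part of a monomial in `S` -/
noncomputable def rS [DecidableEq κ] (S : Finset κ) (m : Pc n →₀ ℕ) : Pc n →₀ ℕ := m.filter (fun s => s.1 ∈ S)

lemma rS_add_qS [DecidableEq κ] (S : Finset κ) (m : Pc n →₀ ℕ) : rS S m + qS S m = m := by
  ext s
  by_cases h : s.1 ∈ S <;> simp [rS, qS]

lemma bd_qS [DecidableEq κ] (S : Finset κ) (m : Pc n →₀ ℕ) (l : κ) :
    bd l (qS S m) = if l ∈ S then 0 else bd l m := by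
  unfold bd qS
  by_cases h : l ∈ S <;> simp [h]

lemma bd_rS [DecidableEq κ] (S : Finset κ) (m : Pc n →₀ ℕ) (l : κ) :
    bd l (rS S m) = if l ∈ S then bd l m else 0 := by
  unfold bd rS
  by_cases h : l ∈ S <;> simp [h]

/-- the monomials of the variables outside `S` -/
noncomputable def MM [DecidableEq κ] (S : Finset κ) (F : MvPolynomial (Pc n) k) : Finset (Pc n →₀ ℕ) :=
  open Classical in F.support.image (qS S)

/-- the coefficients -/
noncomputable def co [DecidableEq κ] (S : Finset κ) (F : MvPolynomial (Pc n) k) (c : Pc n →₀ ℕ) :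
    MvPolynomial (Pc n) k :=
  open Classical in
  ∑ m ∈ F.support.filter (fun m => qS S m = c), monomial (rS S m) (coeff m F)

section

variable [DecidableEq κ] (S : Finset κ) (F : MvPolynomial (Pc n) k)

lemma MM_zero : ∀ c ∈ MM S F, ∀ s : Pc n, s.1 ∈ S → c s = 0 := by
  classical
  intro c hc s hs
  obtain ⟨m, _, rfl⟩ := Finset.mem_image.1 hc
  simp [qS, hs]

lemma MM_deg {d : κ → ℕ} (hF : MH Set.univ d F) :
    ∀ c ∈ MM S F, ∀ l, l ∉ S → ∑ i, c ⟨l, i⟩ = d l := by
  classical
  intro c hc l hl
  obtain ⟨m, hm, rfl⟩ := Finset.mem_image.1 hc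
  have := bd_qS S m l
  rw [if_neg hl] at this
  change bd l (qS S m) = d l
  rw [this]
  exact hF m hm l (Set.mem_univ _)

lemma MM_degree [Fintype κ] {d : κ → ℕ} (hF : MH Set.univ d F) :
    ∀ c ∈ MM S F, c.degree = ∑ l, if l ∈ S then 0 else d l := by
  classical
  intro c hc
  rw [Finsupp.degree_eq_sum, Fintype.sum_sigma]
  refine Finset.sum_congr rfl (fun l _ => ?_)
  split_ifs with h
  · exact Finset.sum_eq_zero (fun i _ => MM_zero S F c hc _ h)
  · exact MM_deg S F hF c hc l h

lemma co_support {c m : Pc n →₀ ℕ} (hm : coeff m (co S F c) ≠ 0) :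
    ∃ m' ∈ F.support, qS S m' = c ∧ rS S m' = m := by
  classical
  by_contra hcon
  push Not at hcon
  apply hm
  rw [co, coeff_sum]
  refine Finset.sum_eq_zero (fun a ha => ?_)
  rw [coeff_monomial, if_neg]
  rw [Finset.mem_filter] at ha
  exact hcon a ha.1 ha.2

lemma co_vars (c : Pc n →₀ ℕ) : ∀ s ∈ (co S F c).vars, s.1 ∈ S := by
  classical
  intro s hs
  obtain ⟨m, hm, hsm⟩ := (mem_vars_iff_mem_support s).1 hs
  obtain ⟨m', _, _, rfl⟩ := co_support S F (mem_support_iff.1 hm)
  by_contra h
  rw [Finsupp.mem_support_iff] at hsm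
  apply hsm
  simp [rS, h]

lemma co_MH {d : κ → ℕ} (hF : MH Set.univ d F) (c : Pc n →₀ ℕ) : MH (S : Set κ) d (co S F c) := by
  intro m hm l hl
  obtain ⟨m', hm', _, rfl⟩ := co_support S F (mem_support_iff.1 hm)
  have := bd_rS S m' l
  rw [if_pos (by simpa using hl)] at this
  change bd l (rS S m') = d l
  rw [this]
  exact hF m' hm' l (Set.mem_univ _)

lemma co_sum : F = ∑ c ∈ MM S F, co S F c * monomial c 1 := by
  classical
  have h1 : ∀ c ∈ MM S F, co S F c * monomial c 1 =
      ∑ m ∈ F.support.filter (fun m => qS S m = c), monomial m (coeff m F) := by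
    intro c _
    rw [co, Finset.sum_mul]
    refine Finset.sum_congr rfl (fun m hm => ?_)
    rw [Finset.mem_filter] at hm
    rw [monomial_mul, mul_one, ← hm.2, rS_add_qS]
  rw [Finset.sum_congr rfl h1, Finset.sum_fiberwise_of_maps_to]
  · exact F.as_sum
  · intro m hm
    exact Finset.mem_image_of_mem _ hm

end

/-! ### the minors -/

section minors

variable [DecidableEq κ]

/-- the ideal generated by the minors -/
noncomputable def mi (S : Finset κ) (F : MvPolynomial (Pc n) k) : Ideal (MvPolynomial (Pc n) k) :=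
  Ideal.span {p | ∃ c ∈ MM S F, ∃ c' ∈ MM S F, ∃ s : Pc n, s.1 ∈ S ∧
    p = co S F c' * pderiv s (co S F c) - co S F c * pderiv s (co S F c')}

lemma mi_ste {d : κ → ℕ} (S : Finset κ) {F : MvPolynomial (Pc n) k} (hF : MH Set.univ d F) (l : κ) :
    StE (mi S F) l := by
  intro f hf
  rw [← ee_apply]
  refine der_span (ee k n l) _ (mi S F) Ideal.subset_span ?_ f hf
  rintro g ⟨c, hc, c', hc', s, hs, rfl⟩
  have hmem : co S F c' * pderiv s (co S F c) - co S F c * pderiv s (co S F c') ∈ mi S F :=
    Ideal.subset_span ⟨c, hc, c', hc', s, hs, rfl⟩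
  rw [ee_apply]
  change EU l (co S F c' * pderiv s (co S F c) - co S F c * pderiv s (co S F c')) ∈ mi S F
  by_cases hl : l ∈ S
  · have h1 := co_MH S F hF c
    have h2 := co_MH S F hF c'
    have h3 := h2.mul (h1.pderiv s)
    have h4 := h1.mul (h2.pderiv s)
    rw [(h3.sub h4).EU (by simpa using hl)]
    exact Ideal.mul_mem_left _ _ hmem
  · have : EU l (co S F c' * pderiv s (co S F c) - co S F c * pderiv s (co S F c')) = 0 := by
      unfold EU
      refine Finset.sum_eq_zero (fun i _ => ?_)
      have hz : ∀ g : MvPolynomial (Pc n) k, (∀ t ∈ g.vars, t.1 ∈ S) → pderiv (⟨l, i⟩ : Pc n) g = 0 := by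
        intro g hg
        apply pderiv_eq_zero_of_notMem_vars
        intro hcon
        exact hl (hg _ hcon)
      have hv := vars_pderiv_sub (k := k) s (co S F c) {t : Pc n | t.1 ∈ S} (co_vars S F c)
      have hv' := vars_pderiv_sub (k := k) s (co S F c') {t : Pc n | t.1 ∈ S} (co_vars S F c')
      rw [map_sub, Derivation.leibniz, Derivation.leibniz, hz _ (co_vars S F c), hz _ (co_vars S F c'),
        hz _ hv, hz _ hv']
      simp
    rw [this]
    exact Ideal.zero_mem _

end minors

lemma frz_of_vars (T : Set κ) (z : Pc n → k) (f : MvPolynomial (Pc n) k)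
    (hf : ∀ s ∈ f.vars, s.1 ∉ T) : frz T z f = C (eval z f) := by
  classical
  unfold frz
  have h1 : (aeval (fun s : Pc n => if s.1 ∈ T then (X s : MvPolynomial (Pc n) k) else C (z s))) f =
      (aeval (fun s : Pc n => (C (z s) : MvPolynomial (Pc n) k))) f := by
    rw [aeval_def, aeval_def]
    apply eval₂Hom_congr' rfl _ rfl
    intro s hs _
    rw [if_neg (hf s hs)]
  rw [h1, aeval_def]
  have h2 : ∀ g : MvPolynomial (Pc n) k, eval₂ (algebraMap k (MvPolynomial (Pc n) k))
      (fun s : Pc n => (C (z s) : MvPolynomial (Pc n) k)) g = C (eval z g) := by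
    intro g
    induction g using MvPolynomial.induction_on with
    | C a => simp
    | add p q hp hq => rw [eval₂_add, hp, hq, map_add, map_add]
    | mul_X p s hp => rw [eval₂_mul, hp, eval₂_X, map_mul, map_mul, eval_X]
  exact h2 f

lemma frz_monomial (T : Set κ) (z : Pc n → k) (m : Pc n →₀ ℕ)
    (hm : ∀ s : Pc n, s.1 ∉ T → m s = 0) : frz T z (monomial m 1) = monomial m 1 := by
  classical
  unfold frz
  rw [aeval_monomial, map_one, one_mul, monomial_eq, map_one, one_mul]
  refine Finsupp.prod_congr (fun s hs => ?_)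
  rw [Finsupp.mem_support_iff] at hs
  rw [if_pos]
  by_contra h
  exact hs (hm s h)

lemma frz_fro (T : Set κ) (z : Pc n → k) {f : MvPolynomial (Pc n) k} (hf : f ∈ Fro T z) :
    frz T z f = 0 := by
  classical
  have : Fro T z ≤ RingHom.ker (frz T z) := by
    unfold Fro
    rw [Ideal.span_le]
    rintro g ⟨s, hs, rfl⟩
    rw [SetLike.mem_coe, RingHom.mem_ker]
    simp [frz, hs]
  exact this hf

end Pool.Agent.Q35.ST
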