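import Pool.Agent.Q35.ST.Dsc

/-!
# The ideals of local Zariski closures
-/

set_option autoImplicit false

namespace Pool.Agent.Q35.ST

open MvPolynomial Pool.Agent.TH178.MZ

section loc

variable {ι K : Type} [Field K] {L : Type} [NontriviallyNormedField L] (σ : K →+* L)

/-- the ideal of the polynomials which vanish at all points of `S` near `x` -/
def LI (S : Set (ι → K)) (x : ι → L) : Ideal (MvPolynomial ι K) where
  carrier := localIdeal σ S x
  add_mem' := by
    rintro f g ⟨U, hU, hf⟩ ⟨V, hV, hg⟩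
    refine ⟨U ∩ V, Filter.inter_mem hU hV, fun y hy hyU => ?_⟩
    rw [map_add, hf y hy hyU.1, hg y hy hyU.2, add_zero]
  zero_mem' := ⟨Set.univ, Filter.univ_mem, fun y _ _ => map_zero _⟩
  smul_mem' := by
    rintro c f ⟨U, hU, hf⟩
    refine ⟨U, hU, fun y hy hyU => ?_⟩
    rw [smul_eq_mul, map_mul, hf y hy hyU, mul_zero]

variable {σ}

lemma mem_LI {S : Set (ι → K)} {x : ι → L} {f : MvPolynomial ι K} :
    f ∈ LI σ S x ↔ ∃ U ∈ nhds x, ∀ y ∈ S, (fun i => σ (y i)) ∈ U → eval y f = 0 := Iff.rfl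

lemma coe_LI (S : Set (ι → K)) (x : ι → L) : (LI σ S x : Set (MvPolynomial ι K)) = localIdeal σ S x := rfl

lemma LI_radical (S : Set (ι → K)) (x : ι → L) : (LI σ S x).IsRadical := by
  rintro f ⟨m, U, hU, hf⟩
  refine ⟨U, hU, fun y hy hyU => ?_⟩
  have := hf y hy hyU
  rw [map_pow] at this
  by_contra h
  exact pow_ne_zero m h this

lemma continuous_eval₂_mv [Finite ι] (g : MvPolynomial ι K) : Continuous fun x : ι → L => eval₂ σ x g := by
  have h : (fun x : ι → L => eval₂ σ x g) = fun x => eval x (map σ g) := by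
    funext x; rw [eval_map]
  rw [h]
  exact MvPolynomial.continuous_eval _

/-- polynomials which do not vanish at `x` are not zero divisors modulo the local ideal -/
lemma LI_nzd [Finite ι] {S : Set (ι → K)} {x : ι → L} {g f : MvPolynomial ι K}
    (hg : eval₂ σ x g ≠ 0) (h : g * f ∈ LI σ S x) : f ∈ LI σ S x := by
  obtain ⟨U, hU, hf⟩ := h
  have hV : {z : ι → L | eval₂ σ z g ≠ 0} ∈ nhds x :=
    (continuous_eval₂_mv (σ := σ) g).continuousAt.eventually_ne hg
  refine ⟨U ∩ {z : ι → L | eval₂ σ z g ≠ 0}, Filter.inter_mem hU hV, fun y hy hyU => ?_⟩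
  have h1 := hf y hy hyU.1
  rw [map_mul] at h1
  refine (mul_eq_zero.1 h1).resolve_left (fun h2 => hyU.2 ?_)
  show eval₂ σ (fun i => σ (y i)) g = 0
  have : eval₂ σ (fun i => σ (y i)) g = σ (eval y g) := (eval₂_comp σ y g).symm
  rw [this, h2, map_zero]

/-- if there are points of `S` arbitrarily near to `x`, the local ideal vanishes at `x` -/
lemma LI_vanish [Finite ι] {S : Set (ι → K)} {x : ι → L} (h : LI σ S x ≠ ⊤) {g : MvPolynomial ι K}
    (hg : g ∈ LI σ S x) : eval₂ σ x g = 0 := by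
  by_contra hne
  apply h
  rw [Ideal.eq_top_iff_one]
  exact LI_nzd hne (by rw [mul_one]; exact hg)

/-- a minimal prime of the local ideal vanishes at `x` -/
lemma minimal_vanish [Finite ι] {S : Set (ι → K)} {x : ι → L} {P : Ideal (MvPolynomial ι K)}
    (hP : P ∈ (LI σ S x).minimalPrimes) {g : MvPolynomial ι K} (hg : g ∈ P) : eval₂ σ x g = 0 := by
  by_contra h
  obtain ⟨f, hf, hfg⟩ := Ideal.exists_mul_mem_of_mem_minimalPrimes hP hg
  exact hf (LI_nzd h hfg)

lemma LI_stable [CharZero K] [Fintype ι] (hσ : DenseRange σ) {S : Set (ι → K)} {x : ι → L}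
    {V : Derivation K (MvPolynomial ι K) (MvPolynomial ι K)} (hV : RationallyIntegrable S V) :
    ∀ f ∈ LI σ S x, V f ∈ LI σ S x := by
  rintro f ⟨U, hU, hf⟩
  refine ⟨interior U, interior_mem_nhds.2 hU, ?_⟩
  exact stable σ hσ hV isOpen_interior f (fun y hy hyU => hf y hy (interior_subset hyU))

end loc

end Pool.Agent.Q35.ST
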