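import Pool.Agent.Q35.ST.Stm2

/-!
# Naturality and continuity of the moves
-/

set_option autoImplicit false
set_option linter.unusedSectionVars false

namespace Pool.Agent.Q35.ST

open MvPolynomial

section nat

variable {κ : Type} [DecidableEq κ] {n : κ → ℕ} {k R R' : Type} [Field k] [CommRing R] [Algebra k R]
  [CommRing R'] [Algebra k R']

lemma upd_self {E : Type} (z : Pc n → E) (l : κ) : upd z l (fun i => z ⟨l, i⟩) = z := by
  funext s
  unfold upd
  rw [Function.update_eq_self]

lemma upd_same {E : Type} (z : Pc n → E) (l : κ) (y : Fin (n l + 1) → E) (i : Fin (n l + 1)) :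
    upd z l y ⟨l, i⟩ = y i := by
  simp [upd]

lemma upd_ne {E : Type} (z : Pc n → E) (l : κ) (y : Fin (n l + 1) → E) (s : Pc n) (hs : s.1 ≠ l) :
    upd z l y s = z s := by
  simp [upd, hs]

lemma upd_upd {E : Type} (z : Pc n → E) (l : κ) (y y' : Fin (n l + 1) → E) :
    upd (upd z l y) l y' = upd z l y' := by
  funext s
  obtain ⟨j, i⟩ := s
  by_cases h : j = l
  · subst h; rw [upd_same, upd_same]
  · rw [upd_ne _ _ _ _ h, upd_ne _ _ _ _ h, upd_ne _ _ _ _ h]

lemma upd_comp {E E' : Type} (f : E → E') (z : Pc n → E) (l : κ) (y : Fin (n l + 1) → E) :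
    (fun s => f (upd z l y s)) = upd (fun s => f (z s)) l (fun i => f (y i)) := by
  funext s
  obtain ⟨j, i⟩ := s
  by_cases h : j = l
  · subst h; rw [upd_same, upd_same]
  · rw [upd_ne _ _ _ _ h, upd_ne _ _ _ _ h]

variable (F : MvPolynomial (Pc n) k)

lemma qf_nat (φ : R →ₐ[k] R') (l : κ) (z w : Pc n → R) :
    φ (qf F l z w) = qf F l (fun s => φ (z s)) (fun s => φ (w s)) := by
  unfold qf
  rw [← upd_comp φ z l (fun i => w ⟨l, i⟩)]
  rw [← comp_aeval_apply]

lemma bf_nat (φ : R →ₐ[k] R') (l : κ) (z w : Pc n → R) :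
    φ (bf F l z w) = bf F l (fun s => φ (z s)) (fun s => φ (w s)) := by
  unfold bf
  rw [map_sum]
  refine Finset.sum_congr rfl (fun i _ => ?_)
  rw [map_mul, ← comp_aeval_apply]

lemma mv_nat (φ : R →ₐ[k] R') (l : κ) (z w : Pc n → R) :
    (fun s => φ (mv F l z w s)) = mv F l (fun s => φ (z s)) (fun s => φ (w s)) := by
  unfold mv
  rw [upd_comp φ]
  congr 1
  funext i
  rw [map_sub, map_mul, map_mul, qf_nat, bf_nat]

lemma mvl_nat (φ : R →ₐ[k] R') (s : List κ) (z : Pc n → R) (p : ℕ → Pc n → R) :
    (fun a => φ (mvl F s z p a)) = mvl F s (fun a => φ (z a)) (fun j a => φ (p j a)) := by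
  induction s generalizing z p with
  | nil => rfl
  | cons l s ih =>
    simp only [mvl]
    rw [ih, mv_nat, mv_nat]

lemma ndp_nat (φ : R →ₐ[k] R') (s : List κ) (z : Pc n → R) (p : ℕ → Pc n → R) :
    φ (ndp F s z p) = ndp F s (fun a => φ (z a)) (fun j a => φ (p j a)) := by
  induction s generalizing z p with
  | nil => simp [ndp]
  | cons l s ih =>
    simp only [ndp]
    rw [map_mul, map_mul, ih, mv_nat, mv_nat, qf_nat, qf_nat]

lemma mvl_congr (s : List κ) (z : Pc n → R) (p p' : ℕ → Pc n → R)
    (h : ∀ j < 2 * s.length, p j = p' j) : mvl F s z p = mvl F s z p' := by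
  induction s generalizing z p p' with
  | nil => rfl
  | cons l s ih =>
    simp only [mvl]
    rw [h 0 (by simp), h 1 (by simp; omega)]
    exact ih _ _ _ (fun j hj => h (j + 2) (by simp; omega))

lemma ndp_congr (s : List κ) (z : Pc n → R) (p p' : ℕ → Pc n → R)
    (h : ∀ j < 2 * s.length, p j = p' j) : ndp F s z p = ndp F s z p' := by
  induction s generalizing z p p' with
  | nil => rfl
  | cons l s ih =>
    simp only [ndp]
    rw [h 0 (by simp), h 1 (by simp; omega)]
    rw [ih _ _ _ (fun j hj => h (j + 2) (by simp; omega))]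

end nat

section moves

variable {κ : Type} [Fintype κ] [DecidableEq κ] {n : κ → ℕ} {k R : Type} [Field k] [CommRing R]
  [Algebra k R] {F : MvPolynomial (Pc n) k}

lemma mvl_zero (m1 : S_M1) (hF : MH Set.univ (fun _ => 2) F) (s : List κ) (z : Pc n → R)
    (p : ℕ → Pc n → R) (hz : aeval z F = 0) : aeval (mvl F s z p) F = 0 := by
  induction s generalizing z p with
  | nil => exact hz
  | cons l s ih =>
    simp only [mvl]
    apply ih
    rw [(m1 κ n k R F hF l _ _).2.1, (m1 κ n k R F hF l _ _).2.1, hz, mul_zero, mul_zero]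

/-- exact return -/
lemma stay (m1 : S_M1) (hF : MH Set.univ (fun _ => 2) F) (l : κ) (z w : Pc n → k)
    (h : qf F l z w ≠ 0) : mv F l (mv F l z w) (fun s => (qf F l z w)⁻¹ * w s) = z := by
  obtain ⟨-, -, h3, -, -⟩ := m1 κ n k k F hF l z w
  obtain ⟨-, -, -, h4, -⟩ := m1 κ n k k F hF l (mv F l z w) w
  rw [h4, h3]
  have h5 : ∀ y : Fin (n l + 1) → k, upd (mv F l z w) l y = upd z l y := fun y => by
    unfold mv; rw [upd_upd]
  rw [h5]
  conv_rhs => rw [← upd_self z l]
  congr 1
  funext i
  rw [upd_same, ← mul_assoc, ← mul_pow, inv_mul_cancel₀ h, one_pow, one_mul]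

lemma reach_mvl (s : List κ) (z : Pc n → k) (p : ℕ → Pc n → k) :
    Relation.ReflTransGen (DM F) z (mvl F s z p) := by
  induction s generalizing z p with
  | nil => exact Relation.ReflTransGen.refl
  | cons l s ih =>
    simp only [mvl]
    exact Relation.ReflTransGen.head (Or.inl ⟨l, p 0, p 1, rfl⟩) (ih _ _)

lemma return_mvl (m1 : S_M1) (hF : MH Set.univ (fun _ => 2) F) (s : List κ) (z : Pc n → k)
    (p : ℕ → Pc n → k) (h : ndp F s z p ≠ 0) : Relation.ReflTransGen (DM F) (mvl F s z p) z := by
  induction s generalizing z p with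
  | nil => exact Relation.ReflTransGen.refl
  | cons l s ih =>
    simp only [ndp] at h
    simp only [mvl]
    have h1 := left_ne_zero_of_mul h
    refine Relation.ReflTransGen.tail (ih _ _ (right_ne_zero_of_mul h)) (Or.inl ?_)
    refine ⟨l, fun s => (qf F l (mv F l z (p 0)) (p 1))⁻¹ * p 1 s,
      fun s => (qf F l z (p 0))⁻¹ * p 0 s, ?_⟩
    rw [stay m1 hF l (mv F l z (p 0)) (p 1), stay m1 hF l z (p 0) (left_ne_zero_of_mul h1)]
    rw [(m1 κ n k k F hF l z (p 0)).1]
    exact right_ne_zero_of_mul h1

lemma sc_inv (t : κ → k) (ht : ∀ l, t l ≠ 0) (z : Pc n → k) : sc (fun l => (t l)⁻¹) (sc t z) = z := by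
  funext s
  simp only [sc]
  rw [← mul_assoc, inv_mul_cancel₀ (ht _), one_mul]

end moves

section cont

variable {κ : Type} [Fintype κ] [DecidableEq κ] {n : κ → ℕ} {L : Type} [NontriviallyNormedField L]
  (F : MvPolynomial (Pc n) L)

lemma continuous_upd {A : Type} [TopologicalSpace A] (l : κ) {f : A → Pc n → L}
    {g : A → Fin (n l + 1) → L} (hf : Continuous f) (hg : Continuous g) :
    Continuous (fun x => upd (f x) l (g x)) := by
  rw [continuous_pi_iff]
  intro s
  obtain ⟨j, i⟩ := s
  by_cases h : j = l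
  · subst h
    simp only [upd_same]
    exact (continuous_apply i).comp hg
  · have : (fun x => upd (f x) l (g x) (⟨j, i⟩ : Pc n)) = fun x => f x ⟨j, i⟩ := by
      funext x; rw [upd_ne _ _ _ _ h]
    rw [this]
    exact (continuous_apply _).comp hf

lemma continuous_qf {A : Type} [TopologicalSpace A] (l : κ) {f g : A → Pc n → L}
    (hf : Continuous f) (hg : Continuous g) : Continuous (fun x => qf F l (f x) (g x)) := by
  unfold qf
  simp_rw [aeval_eq_eval]
  refine (MvPolynomial.continuous_eval F).comp (continuous_upd l hf ?_)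
  rw [continuous_pi_iff]
  exact fun i => (continuous_apply _).comp hg

lemma continuous_bf {A : Type} [TopologicalSpace A] (l : κ) {f g : A → Pc n → L}
    (hf : Continuous f) (hg : Continuous g) : Continuous (fun x => bf F l (f x) (g x)) := by
  unfold bf
  simp_rw [aeval_eq_eval]
  refine continuous_finsetSum _ (fun i _ => ?_)
  exact ((continuous_apply _).comp hg).mul ((MvPolynomial.continuous_eval _).comp hf)

lemma continuous_mv {A : Type} [TopologicalSpace A] (l : κ) {f g : A → Pc n → L}
    (hf : Continuous f) (hg : Continuous g) : Continuous (fun x => mv F l (f x) (g x)) := by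
  unfold mv
  refine continuous_upd l hf ?_
  rw [continuous_pi_iff]
  intro i
  exact ((continuous_qf F l hf hg).mul ((continuous_apply _).comp hf)).sub
    ((continuous_bf F l hf hg).mul ((continuous_apply _).comp hg))

lemma continuous_mvl {A : Type} [TopologicalSpace A] (s : List κ) {f : A → Pc n → L}
    {p : A → ℕ → Pc n → L} (hf : Continuous f) (hp : ∀ j, Continuous (fun x => p x j)) :
    Continuous (fun x => mvl F s (f x) (p x)) := by
  induction s generalizing f p with
  | nil => exact hf
  | cons l s ih =>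
    simp only [mvl]
    exact ih (continuous_mv F l (continuous_mv F l hf (hp 0)) (hp 1)) (fun j => hp (j + 2))

lemma continuous_ndp {A : Type} [TopologicalSpace A] (s : List κ) {f : A → Pc n → L}
    {p : A → ℕ → Pc n → L} (hf : Continuous f) (hp : ∀ j, Continuous (fun x => p x j)) :
    Continuous (fun x => ndp F s (f x) (p x)) := by
  induction s generalizing f p with
  | nil => exact continuous_const
  | cons l s ih =>
    simp only [ndp]
    exact ((continuous_qf F l hf (hp 0)).mul (continuous_qf F l hf (hp 1))).mul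
      (ih (continuous_mv F l (continuous_mv F l hf (hp 0)) (hp 1)) (fun j => hp (j + 2)))

end cont

end Pool.Agent.Q35.ST
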