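import Pool.Agent.Q35.ST.All2

/-!
# The closure of the set of the rational points is open at the points which are not special
-/

set_option autoImplicit false

namespace Pool.Agent.Q35.ST

open MvPolynomial

variable {κ : Type} [Fintype κ] [DecidableEq κ] {n : κ → ℕ} {K : Type} [Field K]
  {F : MvPolynomial (Pc n) K}

/-- points which are not special are free -/
lemma free_of_not_spec {d : κ → ℕ} (hF : MH Set.univ d F) (hd : ∀ l, d l ≠ 0)
    (hn : ∀ l, 2 ≤ n l) {L : Type} [Field L] [CharZero L] (σ : K →+* L)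
    (hsm : ∀ {E : Type} [Field E] (φ : K →+* E), Smth (map φ F)) {x : Pc n → L}
    (hx : Nz Set.univ x) (hsp : ∀ S, ¬ SpecIn (map σ F) S x) :
    Free (map σ F) x ∧ ∀ P : Ideal (MvPolynomial (Pc n) K), Sat F P →
      (∀ f ∈ P, eval₂ σ x f = 0) → P = Ideal.span {F} := by
  refine ⟨fun P hP hPx => ?_, fun P hP hPx => ?_⟩
  · refine eq_of_not_spec_L sA sMIN sU (hF.map σ) hd hn (RingHom.id L) ?_ hP (x := x) ?_ hx ?_
    · rw [map_map]; exact hsm _
    · intro f hf; exact hPx f hf
    · rw [map_id]; exact hsp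
  · exact eq_of_not_spec_L sA sMIN sU hF hd hn σ (hsm _) hP hPx hx hsp

/-- **The closure of the set of the rational points is open at the points which are not special.** -/
theorem open_closure [CharZero K] {ι : Type} [Fintype ι] [Nonempty ι] {L : ι → Type}
    [∀ v, NontriviallyNormedField (L v)] [∀ v, CompleteSpace (L v)] {σ : ∀ v, K →+* L v}
    (hσ : DenseRange (fun a : K => fun v => σ v a)) (hF : MH Set.univ (fun _ => 2) F)
    (hn : ∀ l, 2 ≤ n l) (hsm : Smth (map (algebraMap K (AlgebraicClosure K)) F)) :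
    ∀ T ∈ closure {S : ∀ v, Pc n → L v | ∃ y : Pc n → K, eval y F = 0 ∧ S = fun v s => σ v (y s)},
    (∀ v, Nz Set.univ (T v) ∧ ∀ S, ¬ SpecIn (map (σ v) F) S (T v)) →
    ∀ᶠ S in nhds T, (∀ v, eval (S v) (map (σ v) F) = 0) →
    S ∈ closure {S : ∀ v, Pc n → L v | ∃ y : Pc n → K, eval y F = 0 ∧ S = fun v s => σ v (y s)} := by
  intro T hT hTs
  have hchar : ∀ v, CharZero (L v) := fun v => charZero_of_injective_ringHom (σ v).injective
  have hF0 : F ≠ 0 := by
    rintro rfl
    have h1 : Nz Set.univ (fun _ : Pc n => (1 : AlgebraicClosure K)) :=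
      fun l _ => ⟨0, one_ne_zero⟩
    obtain ⟨s, hs⟩ := hsm _ h1 (by simp)
    exact hs (by simp)
  refine sOP κ n K ι L σ hσ F hF hF0 T hT (fun v => ?_)
  obtain ⟨h1, h2⟩ := hTs v
  obtain ⟨h3, h4⟩ := free_of_not_spec (d := fun _ => 2) hF (fun _ => two_ne_zero) hn (σ v)
    (fun φ => smth_ext hsm φ) h1 h2
  exact ⟨h1, h3, h4⟩

end Pool.Agent.Q35.ST
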