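import Pool.Agent.Q35.ST.Nat

/-!
# Points near to a free point are reached by moves
-/

set_option autoImplicit false
set_option linter.unusedSectionVars false

namespace Pool.Agent.Q35.ST

open MvPolynomial

section

variable {κ : Type} [Fintype κ] [DecidableEq κ] {n : κ → ℕ} {k : Type} [Field k]

/-- parameters of the generic moves -/
noncomputable def pz (k : Type) [Field k] (n : κ → ℕ) (N : ℕ) :
    ℕ → Pc n → MvPolynomial (κ ⊕ (Fin N × Pc n)) k :=
  fun j σ => if h : j < N then X (Sum.inr (⟨j, h⟩, σ)) else 0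

/-- the values of the parameters -/
def pq {N : ℕ} (q : κ ⊕ (Fin N × Pc n) → k) : ℕ → Pc n → k :=
  fun j σ => if h : j < N then q (Sum.inr (⟨j, h⟩, σ)) else 0

/-- the generic point reached by moves -/
noncomputable def gpt (F : MvPolynomial (Pc n) k) (s : List κ) (T : Pc n → k) :
    Pc n → MvPolynomial (κ ⊕ (Fin (2 * s.length) × Pc n)) k :=
  sc (fun l => X (Sum.inl l)) (mvl F s (fun σ => C (T σ)) (pz k n (2 * s.length)))

lemma eval_pz {N : ℕ} (q : κ ⊕ (Fin N × Pc n) → k) (j : ℕ) (σ : Pc n) :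
    eval q (pz k n N j σ) = pq q j σ := by
  unfold pz pq
  split_ifs <;> simp

lemma eval_gpt (F : MvPolynomial (Pc n) k) (s : List κ) (T : Pc n → k)
    (q : κ ⊕ (Fin (2 * s.length) × Pc n) → k) :
    (fun σ => eval q (gpt F s T σ)) = sc (fun l => q (Sum.inl l)) (mvl F s T (pq q)) := by
  have h := mvl_nat F (aeval q : MvPolynomial (κ ⊕ (Fin (2 * s.length) × Pc n)) k →ₐ[k] k) s
    (fun σ => C (T σ)) (pz k n (2 * s.length))
  have h1 : (fun a : Pc n => (aeval q) (C (T a) : MvPolynomial (κ ⊕ (Fin (2 * s.length) × Pc n)) k)) = T := by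
    funext a; simp
  have h2 : (fun (j : ℕ) (a : Pc n) => (aeval q) (pz k n (2 * s.length) j a)) = pq q := by
    funext j a
    rw [aeval_eq_eval]
    exact eval_pz q j a
  rw [h1, h2] at h
  funext σ
  unfold gpt sc
  rw [map_mul, eval_X]
  congr 1
  have h3 := congrFun h σ
  rw [aeval_eq_eval] at h3
  exact h3

lemma eval_ndp (F : MvPolynomial (Pc n) k) (s : List κ) (T : Pc n → k)
    (q : κ ⊕ (Fin (2 * s.length) × Pc n) → k) :
    eval q (ndp F s (fun σ => C (T σ)) (pz k n (2 * s.length))) = ndp F s T (pq q) := by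
  have h := ndp_nat F (aeval q : MvPolynomial (κ ⊕ (Fin (2 * s.length) × Pc n)) k →ₐ[k] k) s
    (fun σ => C (T σ)) (pz k n (2 * s.length))
  have h1 : (fun a : Pc n => (aeval q) (C (T a) : MvPolynomial (κ ⊕ (Fin (2 * s.length) × Pc n)) k)) = T := by
    funext a; simp
  have h2 : (fun (j : ℕ) (a : Pc n) => (aeval q) (pz k n (2 * s.length) j a)) = pq q := by
    funext j a
    rw [aeval_eq_eval]
    exact eval_pz q j a
  rw [h1, h2, aeval_eq_eval] at h
  exact h

/-- every system of parameters is of the form considered -/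
lemma pq_surj (F : MvPolynomial (Pc n) k) (s : List κ) (T : Pc n → k) (t : κ → k)
    (p : ℕ → Pc n → k) : ∃ q : κ ⊕ (Fin (2 * s.length) × Pc n) → k,
    (fun l => q (Sum.inl l)) = t ∧ mvl F s T (pq q) = mvl F s T p ∧ ndp F s T (pq q) = ndp F s T p := by
  refine ⟨Sum.elim t (fun a => p a.1 a.2), rfl, ?_, ?_⟩
  · refine mvl_congr F s T _ _ (fun j hj => ?_)
    funext σ
    simp [pq, hj]
  · refine ndp_congr F s T _ _ (fun j hj => ?_)
    funext σ
    simp [pq, hj]

lemma eval_sc [CharZero k] {F : MvPolynomial (Pc n) k} (hF : MH Set.univ (fun _ => 2) F) (t : κ → k)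
    (z : Pc n → k) (hz : eval z F = 0) : eval (sc t z) F = 0 := by
  unfold sc
  rw [hF.eval_scale t z, hz, mul_zero]

end

theorem S_PP_of (m1 : S_M1) (m3 : S_M3) (jac : S_JAC) (ift : S_IFT) : S_PP := by
  classical
  intro κ _ _ n L _ _ _ F hF hF0 T hT hTn hfree
  obtain ⟨s, P, hP, hFP, hStD, hStE, hPT, ⟨p, hp⟩, hker⟩ := m3 κ n L F hF T hT
  have hSat : Sat F P := by
    refine ⟨hP, hFP, hStD, hStE, fun l => ?_⟩
    obtain ⟨i, hi⟩ := hTn l (Set.mem_univ _)
    refine ⟨i, fun hcon => hi ?_⟩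
    have := hPT _ hcon
    rwa [eval_X] at this
  have hPF := hfree P hSat hPT
  have hzero : ∀ (t : κ → L) (p : ℕ → Pc n → L), eval (sc t (mvl F s T p)) F = 0 := by
    intro t p
    refine eval_sc hF t _ ?_
    have := mvl_zero m1 hF s T p (by rw [aeval_eq_eval]; exact hT)
    rwa [aeval_eq_eval] at this
  set Ψ := gpt F s T with hΨ
  have hiff : ∀ g : MvPolynomial (Pc n) L, aeval Ψ g = 0 ↔ F ∣ g := by
    intro g
    have hev : ∀ q, eval q (aeval Ψ g) = eval (fun σ => eval q (Ψ σ)) g := by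
      intro q
      have h1 := comp_aeval_apply (f := Ψ) (aeval q : MvPolynomial (κ ⊕ (Fin (2 * s.length) × Pc n)) L →ₐ[L] L) g
      rw [aeval_eq_eval] at h1
      rw [h1, aeval_eq_eval]
    constructor
    · intro h
      rw [← Ideal.mem_span_singleton, ← hPF]
      apply hker
      intro t p
      obtain ⟨q, hq1, hq2, -⟩ := pq_surj F s T t p
      rw [← hq1, ← hq2, ← eval_gpt F s T q, ← hev, h, map_zero]
    · intro h
      apply MvPolynomial.funext
      intro q
      rw [hev, map_zero, hΨ, eval_gpt]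
      obtain ⟨g', rfl⟩ := h
      rw [map_mul, hzero, zero_mul]
  set h : MvPolynomial (κ ⊕ (Fin (2 * s.length) × Pc n)) L :=
    (∏ l : κ, X (Sum.inl l)) * ndp F s (fun σ => C (T σ)) (pz L n (2 * s.length)) with hh
  have hne : h ≠ 0 := by
    intro hcon
    obtain ⟨q, hq1, -, hq3⟩ := pq_surj F s T (fun _ => (1 : L)) p
    have := congrArg (eval q) hcon
    rw [hh, map_mul, map_prod, map_zero, eval_ndp, hq3] at this
    rcases mul_eq_zero.1 this with h1 | h1
    · rw [Finset.prod_eq_zero_iff] at h1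
      obtain ⟨l, -, hl⟩ := h1
      rw [eval_X] at hl
      have h2 : q (Sum.inl l) = 1 := congrFun hq1 l
      rw [h2] at hl
      exact one_ne_zero hl
    · exact hp h1
  obtain ⟨q0, hq0, hsm, hsurj⟩ := jac _ _ L Ψ F hF0 hiff h hne
  rw [hh, map_mul, map_prod, eval_ndp] at hq0
  have hq0t : ∀ l, q0 (Sum.inl l) ≠ 0 := by
    intro l hl
    apply left_ne_zero_of_mul hq0
    rw [Finset.prod_eq_zero_iff]
    exact ⟨l, Finset.mem_univ _, by rw [eval_X]; exact hl⟩
  have hq0n := right_ne_zero_of_mul hq0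
  have hA : {q : κ ⊕ (Fin (2 * s.length) × Pc n) → L | ∀ l, q (Sum.inl l) ≠ 0} ∈ nhds q0 := by
    have hopen : IsOpen {q : κ ⊕ (Fin (2 * s.length) × Pc n) → L | ∀ l, q (Sum.inl l) ≠ 0} := by
      have : {q : κ ⊕ (Fin (2 * s.length) × Pc n) → L | ∀ l, q (Sum.inl l) ≠ 0} =
          ⋂ l, {q | q (Sum.inl l) ≠ 0} := by
        ext q; simp
      rw [this]
      exact isOpen_iInter_of_finite (fun l => isOpen_ne_fun (continuous_apply _) continuous_const)
    exact hopen.mem_nhds hq0t
  have key := ift _ _ L Ψ F ((hiff F).2 (dvd_refl F)) q0 hsm hsurj _ hA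
  rw [hΨ, eval_gpt] at key
  -- the forward map
  have hcont : Continuous (fun S : Pc n → L => sc (fun l => q0 (Sum.inl l)) (mvl F s S (pq q0))) := by
    rw [continuous_pi_iff]
    intro σ
    unfold sc
    exact continuous_const.mul ((continuous_apply σ).comp
      (continuous_mvl F s continuous_id (fun j => continuous_const)))
  have h1 := hcont.continuousAt.eventually key
  have h2 : ∀ᶠ S : Pc n → L in nhds T, ndp F s S (pq q0) ≠ 0 :=
    (continuous_ndp F s (p := fun _ => pq q0) continuous_id (fun j => continuous_const)).continuousAt.eventually_ne hq0n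
  filter_upwards [h1, h2] with S hS1 hS2 hSF
  have hS3 : eval (sc (fun l => q0 (Sum.inl l)) (mvl F s S (pq q0))) F = 0 := by
    refine eval_sc hF _ _ ?_
    have := mvl_zero m1 hF s S (pq q0) (by rw [aeval_eq_eval]; exact hSF)
    rwa [aeval_eq_eval] at this
  obtain ⟨q, hqA, hq⟩ := hS1 hS3
  rw [eval_gpt] at hq
  have r1 : Relation.ReflTransGen (DM F) T (sc (fun l => q (Sum.inl l)) (mvl F s T (pq q))) :=
    Relation.ReflTransGen.tail (reach_mvl s T (pq q)) (Or.inr ⟨_, hqA, rfl⟩)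
  rw [hq] at r1
  have r2 : DM F (sc (fun l => q0 (Sum.inl l)) (mvl F s S (pq q0))) (mvl F s S (pq q0)) := by
    refine Or.inr ⟨fun l => (q0 (Sum.inl l))⁻¹, fun l => inv_ne_zero (hq0t l), ?_⟩
    rw [sc_inv _ hq0t]
  exact (r1.tail r2).trans (return_mvl m1 hF s S (pq q0) hS2)

end Pool.Agent.Q35.ST
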