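import Pool.Agent.Q35.ST.Res
import Pool.Agent.Q35.ST.Opn
import Pool.Agent.TH729.CC.Alg1
import Pool.Agent.TH729.SQ.Main

/-!
# Real closures: preparations
-/

set_option autoImplicit false
set_option linter.unusedSectionVars false

namespace Pool.Agent.Q35.ST

open MvPolynomial Pool.Agent.H581R2 Pool.Agent.TH729.SQ Pool.Agent.TH729.CC

section spec

variable {κ : Type} [Fintype κ] [DecidableEq κ] {n : κ → ℕ} {d : κ → ℕ}

/-- the special points lie over finitely many special points -/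
theorem spec_finite' (hM : S_MIN) (hU : S_U) {L : Type} [Field L] [CharZero L]
    {G : MvPolynomial (Pc n) L} (hF : MH Set.univ d G) (hd : ∀ l, d l ≠ 0)
    (hn : ∀ l, 2 ≤ n l) (hsm : Smth (map (algebraMap L (AlgebraicClosure L)) G)) :
    ∃ E : Finset (Finset κ × (Pc n → L)), (∀ a ∈ E, Nz Set.univ a.2 ∧ eval a.2 G = 0 ∧
      SpecIn G a.1 a.2) ∧ ∀ (S : Finset κ) (x : Pc n → L), Nz Set.univ x →
      eval x G = 0 → SpecIn G S x → ∃ p, (S, p) ∈ E ∧
        ∀ l ∈ S, ∃ c : L, ∀ i, x ⟨l, i⟩ = c * p ⟨l, i⟩ := by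
  classical
  set C := AlgebraicClosure L with hC
  set φ := algebraMap L C with hφ
  -- representatives
  have hex : ∀ a : Finset κ × Ideal (MvPolynomial (Pc n) C), ∃ p : Pc n → L,
      (∃ x : Pc n → L, Nz Set.univ x ∧ eval x G = 0 ∧ SpecIn G a.1 x ∧ Van a.2 (fun s => φ (x s))) →
      Nz Set.univ p ∧ eval p G = 0 ∧ SpecIn G a.1 p ∧ Van a.2 (fun s => φ (p s)) := by
    intro a
    by_cases h : ∃ x : Pc n → L, Nz Set.univ x ∧ eval x G = 0 ∧ SpecIn G a.1 x ∧ Van a.2 (fun s => φ (x s))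
    · obtain ⟨x, hx⟩ := h
      exact ⟨x, fun _ => hx⟩
    · exact ⟨0, fun h' => absurd h' h⟩
  choose p hp using hex
  have hfin : (⋃ S : Finset κ, (({S} : Set (Finset κ)) ×ˢ (mi S (map φ G)).minimalPrimes)).Finite :=
    Set.finite_iUnion (fun S : Finset κ => Set.Finite.prod (Set.finite_singleton S)
      (Ideal.finite_minimalPrimes_of_isNoetherianRing _ (mi S (map φ G))))
  refine ⟨(hfin.toFinset.image (fun a => (a.1, p a))).filter (fun a => Nz Set.univ a.2 ∧
    eval a.2 G = 0 ∧ SpecIn G a.1 a.2), fun a ha => (Finset.mem_filter.1 ha).2,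
    fun S x hxn hxG hS => ?_⟩
  have hev : ∀ (y : Pc n → L) (g : MvPolynomial (Pc n) L), eval (fun t => φ (y t)) (map φ g) = φ (eval y g) := by
    intro y g
    rw [eval_map]
    exact (eval₂_comp φ y g).symm
  have hnz : ∀ y : Pc n → L, Nz Set.univ y → Nz Set.univ (fun s => φ (y s)) := by
    intro y hy l _
    obtain ⟨i, hi⟩ := hy l (Set.mem_univ _)
    exact ⟨i, fun h => hi (φ.injective (by rw [map_zero]; exact h))⟩
  obtain ⟨Q, hQ, hQx, hQy⟩ := spec_prop hM hU (hF.map φ) hd hn hsm (hS.map φ) (hnz x hxn)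
    (by rw [hev, hxG, map_zero])
  obtain ⟨hp1, hp2, hp3, hp4⟩ := hp (S, Q) ⟨x, hxn, hxG, hS, hQx⟩
  refine ⟨p (S, Q), ?_, fun l hl => ?_⟩
  · rw [Finset.mem_filter]
    refine ⟨?_, hp1, hp2, hp3⟩
    rw [Finset.mem_image]
    refine ⟨(S, Q), ?_, rfl⟩
    rw [Set.Finite.mem_toFinset, Set.mem_iUnion]
    exact ⟨S, rfl, hQ⟩
  · obtain ⟨c, hc⟩ := hQy _ hp4 (hnz _ hp1) l hl
    obtain ⟨i0, hi0⟩ := hp1 l (Set.mem_univ _)
    refine ⟨x ⟨l, i0⟩ / p (S, Q) ⟨l, i0⟩, fun i => ?_⟩
    apply φ.injective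
    have h1 : φ (x ⟨l, i⟩) = c * φ (p (S, Q) ⟨l, i⟩) := hc i
    have h2 : φ (x ⟨l, i0⟩) = c * φ (p (S, Q) ⟨l, i0⟩) := hc i0
    have h3 : φ (p (S, Q) ⟨l, i0⟩) ≠ 0 := fun h => hi0 (φ.injective (by rw [h, map_zero]))
    rw [map_mul, map_div₀, h1, h2, mul_div_assoc, div_self h3, mul_one]

/-- special in terms of the coefficients -/
lemma specIn_iff_co {k : Type} [Field k] [Infinite k] {F : MvPolynomial (Pc n) k} {S : Finset κ}
    {x : Pc n → k} : SpecIn F S x ↔ S.Nonempty ∧ ∀ s : Pc n, s.1 ∈ S → ∃ c : k, ∀ a ∈ MM S F,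
      eval x (pderiv s (co S F a)) = c * eval x (co S F a) :=
  ⟨fun h => ⟨h.1, fun s hs => h.co_eq s hs⟩, fun h => specIn_of_co h.1 h.2⟩

end spec

section sa

variable {ι : Type} {K : Type} [Field K] (σ : K →+* ℝ) (hσ : ∀ a, IsAlgebraic ℚ (σ a))

include hσ in
/-- polynomials with coefficients in `K` -/
lemma PA_eval (f : MvPolynomial ι K) : PA (fun v : ι → ℝ => eval v (map σ f)) := by
  induction f using MvPolynomial.induction_on with
  | C a => simpa using PA.const (ι := ι) (hσ a)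
  | add p q hp hq => simpa using hp.add hq
  | mul_X p s hp =>
    have := hp.mul (PA.coord s)
    simpa using this

lemma PA_ext {f : (ι → ℝ) → ℝ} (hf : PA f) : PA (fun w : Option ι → ℝ => f (fun i => w (some i))) := by
  obtain ⟨q, hq⟩ := hf
  refine ⟨rename some q, fun w => ?_⟩
  show f (fun i => w (some i)) = _
  rw [hq, aeval_rename]
  rfl

end sa

section one

variable {κ : Type} [Fintype κ] [DecidableEq κ] {n : κ → ℕ} {K : Type} [Field K]
  {F : MvPolynomial (Pc n) K}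

/-- the case of one place -/
theorem open_closure_one [CharZero K] {L : Type} [NontriviallyNormedField L] [CompleteSpace L]
    {σ : K →+* L} (hσ : DenseRange σ) (hF : MH Set.univ (fun _ => 2) F)
    (hn : ∀ l, 2 ≤ n l) (hsm : Smth (map (algebraMap K (AlgebraicClosure K)) F)) {T : Pc n → L}
    (hT : T ∈ closure {S : Pc n → L | ∃ y : Pc n → K, eval y F = 0 ∧ S = fun s => σ (y s)})
    (hTn : Nz Set.univ T) (hTs : ∀ S, ¬ SpecIn (map σ F) S T) :
    ∀ᶠ S in nhds T, eval S (map σ F) = 0 →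
    S ∈ closure {S : Pc n → L | ∃ y : Pc n → K, eval y F = 0 ∧ S = fun s => σ (y s)} := by
  set A : Set (Pc n → L) := {S | ∃ y : Pc n → K, eval y F = 0 ∧ S = fun s => σ (y s)} with hA
  set A' : Set (Unit → Pc n → L) := {S | ∃ y : Pc n → K, eval y F = 0 ∧ S = fun _ s => σ (y s)} with hA'
  have hd : DenseRange (fun (a : K) (_ : Unit) => σ a) := by
    intro x
    have h1 : Continuous (fun (a : L) (_ : Unit) => a) := continuous_pi (fun _ => continuous_id)
    have h2 := h1.closure_preimage_subset (Set.range (fun (a : K) (_ : Unit) => σ a))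
    have h3 : x () ∈ closure ((fun (a : L) (_ : Unit) => a) ⁻¹' (Set.range (fun (a : K) (_ : Unit) => σ a))) := by
      refine closure_mono ?_ (hσ (x ()))
      rintro _ ⟨a, rfl⟩
      exact ⟨a, rfl⟩
    have h4 := h2 h3
    exact h4
  have hc : Continuous (fun (S : Pc n → L) (_ : Unit) => S) := continuous_pi (fun _ => continuous_id)
  have h1 : (fun _ : Unit => T) ∈ closure A' := by
    have := map_mem_closure hc hT (t := A') (by
      rintro _ ⟨y, hy, rfl⟩
      exact ⟨y, hy, rfl⟩)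
    exact this
  have h2 := open_closure (ι := Unit) (L := fun _ => L) (σ := fun _ => σ) hd hF hn hsm
    (fun _ => T) h1 (fun _ => ⟨hTn, hTs⟩)
  have h3 := hc.continuousAt.eventually h2
  filter_upwards [h3] with S hS hSF
  have h4 := hS (fun _ => hSF)
  have h5 : Continuous (fun S : Unit → Pc n → L => S ()) := continuous_apply ()
  exact map_mem_closure h5 h4 (t := A) (by
    rintro _ ⟨y, hy, rfl⟩
    exact ⟨y, hy, rfl⟩)

end one

end Pool.Agent.Q35.ST
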