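import Pool.Agent.Q35.ST.Real1

/-!
# The real closure of the set of the rational points is semialgebraic
-/

set_option autoImplicit false
set_option linter.unusedSectionVars false

namespace Pool.Agent.Q35.ST

open MvPolynomial Pool.Agent.H581R2 Pool.Agent.TH729.SQ Pool.Agent.TH729.CC

variable {κ : Type} [Fintype κ] [DecidableEq κ] {n : κ → ℕ} {K : Type} [Field K]

/-- the rational points of the hypersurface as real points -/
def VK (σ : K →+* ℝ) (F : MvPolynomial (Pc n) K) : Set (Pc n → ℝ) :=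
  {S | ∃ y : Pc n → K, eval y F = 0 ∧ S = fun s => σ (y s)}

/-- the real points which are not special -/
def G0 (σ : K →+* ℝ) (F : MvPolynomial (Pc n) K) : Set (Pc n → ℝ) :=
  {z | Nz Set.univ z ∧ eval z (map σ F) = 0 ∧ ∀ S, ¬ SpecIn (map σ F) S z}

/-- the points with some block equal to zero -/
def Imp (n : κ → ℕ) : Set (Pc n → ℝ) := {z | ∃ l, ∀ i, z ⟨l, i⟩ = 0}

/-- the points in the fibre over `p` -/
def Dp (σ : K →+* ℝ) (S : Finset κ) (p : Pc n → K) (W : Set (Pc (nT S n) → ℝ)) :
    Set (Pc n → ℝ) :=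
  {z | (∀ l ∈ S, ∃ c : ℝ, ∀ i, z ⟨l, i⟩ = c * σ (p ⟨l, i⟩)) ∧ (fun s => z (em S s)) ∈ W}

lemma sa_G0 {σ : K →+* ℝ} (hσ : ∀ a, IsAlgebraic ℚ (σ a)) (F : MvPolynomial (Pc n) K) :
    SA (G0 σ F) := by
  classical
  refine SAP.and ?_ (SAP.and ?_ ?_)
  · have : SAP (fun z : Pc n → ℝ => ∀ l, ∃ i, ¬ z ⟨l, i⟩ = 0) :=
      SAP.forall_fin (fun l => SAP.exists_fin (fun i => (SAP.eq_zero (PF.coord _)).not))
    refine SAP.congr this (fun z => ?_)
    constructor
    · intro h l; exact h l (Set.mem_univ _)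
    · intro h l _; exact h l
  · exact SAP.eq_zeroA (PA_eval σ hσ F)
  · refine SAP.forall_fin (fun S => SAP.not ?_)
    refine SAP.congr (p := fun z : Pc n → ℝ => S.Nonempty ∧ ∀ s : Pc n, s.1 ∈ S → ∃ c : ℝ, ∀ a ∈ MM S F,
      eval z (map σ (pderiv s (co S F a))) = c * eval z (map σ (co S F a))) ?_ ?_
    · refine SAP.and (SAP.const _) (SAP.forall_fin (fun s => SAP.imp (SAP.const _) ?_))
      have h1 : SAP (fun w : Option (Pc n) → ℝ => ∀ a ∈ MM S F,
          eval (fun i => w (some i)) (map σ (pderiv s (co S F a))) -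
            w none * eval (fun i => w (some i)) (map σ (co S F a)) = 0) := by
        refine SAP.forall_mem _ (fun a _ => SAP.eq_zeroA ?_)
        exact (PA_ext (PA_eval σ hσ _)).sub ((PA.coord none).mul (PA_ext (PA_eval σ hσ _)))
      refine SAP.congr (SAP.exists_real h1) (fun z => ?_)
      refine exists_congr (fun c => forall_congr' (fun a => forall_congr' (fun _ => ?_)))
      simp only [ext_some, ext_none]
      rw [sub_eq_zero]
    · intro z
      rw [specIn_iff_co, MM_map]
      refine and_congr_right (fun _ => forall_congr' (fun s => forall_congr' (fun _ => ?_)))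
      refine exists_congr (fun c => forall_congr' (fun a => forall_congr' (fun _ => ?_)))
      rw [co_map, pderiv_map]

lemma lc_G0 [CharZero K] {σ : K →+* ℝ} {F : MvPolynomial (Pc n) K} (hF : MH Set.univ (fun _ => 2) F)
    (hn : ∀ l, 2 ≤ n l) (hsm : Smth (map (algebraMap K (AlgebraicClosure K)) F))
    (hσ : DenseRange σ) : LC (G0 σ F) (closure (VK σ F) ∩ G0 σ F) := by
  intro z hz
  by_cases hzW : z ∈ closure (VK σ F)
  · have h1 := open_closure_one hσ hF hn hsm hzW hz.1 hz.2.2
    filter_upwards [nhdsWithin_le_nhds h1, self_mem_nhdsWithin] with y hy hyG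
    exact ⟨fun _ => ⟨hzW, hz⟩, fun _ => ⟨hy hyG.2.1, hyG⟩⟩
  · have h1 : (closure (VK σ F))ᶜ ∈ nhds z := isClosed_closure.isOpen_compl.mem_nhds hzW
    filter_upwards [nhdsWithin_le_nhds h1] with y hy
    exact ⟨fun h => absurd h.1 hy, fun h => absurd h.1 hzW⟩

lemma sa_Imp : SA (Imp n) :=
  SAP.exists_fin (fun _ => SAP.forall_fin (fun _ => SAP.eq_zero (PF.coord _)))

lemma closed_Imp : IsClosed (Imp n) := by
  have : Imp n = ⋃ l, ⋂ i, {z : Pc n → ℝ | z ⟨l, i⟩ = 0} := by
    ext z; simp [Imp]
  rw [this]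
  refine isClosed_iUnion_of_finite (fun l => isClosed_iInter (fun i => ?_))
  exact isClosed_eq (continuous_apply _) continuous_const

/-- approximation of a real point by rational points -/
lemma dense_pi {ι : Type} [Finite ι] {σ : K →+* ℝ} (hσ : DenseRange σ) (z : ι → ℝ) (U : Set (ι → ℝ))
    (hU : U ∈ nhds z) (A : Set ι) (hA : ∀ i ∈ A, z i = 0) :
    ∃ y : ι → K, (fun i => σ (y i)) ∈ U ∧ ∀ i ∈ A, y i = 0 := by
  classical
  rw [nhds_pi, Filter.mem_pi'] at hU
  obtain ⟨I, W, hW, hWU⟩ := hU
  have h1 : ∀ i, ∃ a : K, σ a ∈ W i ∧ (i ∈ A → a = 0) := by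
    intro i
    by_cases hi : i ∈ A
    · refine ⟨0, ?_, fun _ => rfl⟩
      rw [map_zero, ← hA i hi]
      exact mem_of_mem_nhds (hW i)
    · obtain ⟨_, ha, a, rfl⟩ := mem_closure_iff_nhds.1 (hσ (z i)) (W i) (hW i)
      exact ⟨a, ha, fun h => absurd h hi⟩
  choose y hy hy2 using h1
  exact ⟨y, hWU (fun i _ => hy i), hy2⟩

lemma Imp_sub {σ : K →+* ℝ} {F : MvPolynomial (Pc n) K} (hF : MH Set.univ (fun _ => 2) F)
    (hσ : DenseRange σ) : Imp n ⊆ closure (VK σ F) := by
  classical
  rintro z ⟨l, hl⟩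
  rw [mem_closure_iff_nhds]
  intro U hU
  obtain ⟨y, hyU, hy⟩ := dense_pi hσ z U hU {s : Pc n | s.1 = l} (by
    rintro ⟨l', i⟩ rfl
    exact hl i)
  refine ⟨_, hyU, y, ?_, rfl⟩
  have h1 : y = fun s => (if s.1 = l then 0 else 1) * y s := by
    funext s
    by_cases hs : s.1 = l
    · rw [hy s hs, mul_zero]
    · rw [if_neg hs, one_mul]
  rw [h1, hF.eval_scale (fun j => if j = l then (0 : K) else 1) y, Finset.prod_eq_zero (Finset.mem_univ l), zero_mul]
  simp

lemma sa_Dp {σ : K →+* ℝ} (hσ : ∀ a, IsAlgebraic ℚ (σ a)) (S : Finset κ) (p : Pc n → K)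
    {W : Set (Pc (nT S n) → ℝ)} (hW : SA W) : SA (Dp σ S p W) := by
  classical
  refine SAP.and (SAP.forall_mem S (fun l _ => ?_)) (SA.preimage hW (fun s => PF.coord _))
  have h1 : SAP (fun w : Option (Pc n) → ℝ => ∀ i : Fin (n l + 1),
      w (some ⟨l, i⟩) - w none * σ (p ⟨l, i⟩) = 0) :=
    SAP.forall_fin (fun i => SAP.eq_zeroA ((PA.coord _).sub ((PA.coord none).mul (PA.const (hσ _)))))
  refine SAP.congr (SAP.exists_real h1) (fun z => ?_)
  refine exists_congr (fun c => forall_congr' (fun i => ?_))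
  simp only [ext_some, ext_none]
  rw [sub_eq_zero]

lemma closed_Dp {σ : K →+* ℝ} (S : Finset κ) {p : Pc n → K} (hp : Nz Set.univ p)
    {W : Set (Pc (nT S n) → ℝ)} (hW : IsClosed W) : IsClosed (Dp σ S p W) := by
  classical
  have hb : ∀ l, ∃ i, p ⟨l, i⟩ ≠ 0 := fun l => hp l (Set.mem_univ _)
  choose b hb using hb
  have : Dp σ S p W = (⋂ l ∈ S, ⋂ i, {z : Pc n → ℝ | z ⟨l, i⟩ * σ (p ⟨l, b l⟩) =
      z ⟨l, b l⟩ * σ (p ⟨l, i⟩)}) ∩ (fun (z : Pc n → ℝ) (s : Pc (nT S n)) => z (em S s)) ⁻¹' W := by
    ext z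
    simp only [Dp, Set.mem_ofPred_eq, Set.mem_inter_iff, Set.mem_iInter, Set.mem_preimage]
    refine and_congr_left (fun _ => forall_congr' (fun l => forall_congr' (fun _ => ?_)))
    have hne : σ (p ⟨l, b l⟩) ≠ 0 := fun h => hb l (σ.injective (by rw [h, map_zero]))
    constructor
    · rintro ⟨c, hc⟩ i
      rw [hc i, hc (b l)]; ring
    · intro h
      refine ⟨z ⟨l, b l⟩ / σ (p ⟨l, b l⟩), fun i => ?_⟩
      have := h i
      field_simp
      linear_combination this
  rw [this]
  refine IsClosed.inter ?_ (hW.preimage ?_)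
  · refine isClosed_iInter (fun l => isClosed_iInter (fun _ => isClosed_iInter (fun i => ?_)))
    exact isClosed_eq ((continuous_apply _).mul continuous_const)
      ((continuous_apply _).mul continuous_const)
  · exact continuous_pi (fun s => continuous_apply _)

/-- values of `F` at points over `p` -/
lemma eval_over {k : Type} [Field k] {F : MvPolynomial (Pc n) k} (hF : MH Set.univ (fun _ => 2) F)
    {S : Finset κ} {p y : Pc n → k} {c : κ → k} (hc : ∀ l ∈ S, ∀ i, y ⟨l, i⟩ = c l * p ⟨l, i⟩) :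
    eval y F = (∏ l, (if l ∈ S then c l else 1) ^ 2) * eval (fun s => y (em S s)) (rst S p F) := by
  classical
  rw [eval_rst, ← hF.eval_scale (fun l => if l ∈ S then c l else 1)]
  congr 1
  apply congrArg (fun w => eval w)
  funext s
  by_cases hs : s.1 ∈ S
  · rw [if_pos hs, glue_mem _ _ _ _ hs]
    exact hc s.1 hs s.2
  · rw [if_neg hs, glue_notMem _ _ _ _ hs, one_mul]
    rfl

lemma Dp_sub {σ : K →+* ℝ} {F : MvPolynomial (Pc n) K} (hF : MH Set.univ (fun _ => 2) F)
    (hσ : DenseRange σ) (S : Finset κ) (p : Pc n → K) :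
    Dp σ S p (closure (VK σ (rst S p F))) ⊆ closure (VK σ F) := by
  classical
  rintro z ⟨hz1, hz2⟩
  have hc : ∀ l, ∃ c : ℝ, l ∈ S → ∀ i, z ⟨l, i⟩ = c * σ (p ⟨l, i⟩) := by
    intro l
    by_cases hl : l ∈ S
    · obtain ⟨c, hc⟩ := hz1 l hl
      exact ⟨c, fun _ => hc⟩
    · exact ⟨0, fun h => absurd h hl⟩
  choose c hc using hc
  -- the continuous map
  let f : (κ → ℝ) × (Pc (nT S n) → ℝ) → Pc n → ℝ := fun a =>
    glue S (fun s => a.1 s.1 * σ (p s)) a.2
  have hf : Continuous f := by
    refine continuous_pi (fun s => ?_)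
    by_cases hs : s.1 ∈ S
    · have : (fun a : (κ → ℝ) × (Pc (nT S n) → ℝ) => f a s) = fun a => a.1 s.1 * σ (p s) := by
        funext a; exact glue_mem _ _ _ _ hs
      rw [this]
      exact ((continuous_apply _).comp continuous_fst).mul continuous_const
    · have : (fun a : (κ → ℝ) × (Pc (nT S n) → ℝ) => f a s) = fun a => a.2 ⟨⟨s.1, hs⟩, s.2⟩ := by
        funext a; exact glue_notMem _ _ _ _ hs
      rw [this]
      exact (continuous_apply _).comp continuous_snd
  have hfz : f (c, fun s => z (em S s)) = z := by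
    funext s
    by_cases hs : s.1 ∈ S
    · show glue S _ _ s = _
      rw [glue_mem _ _ _ _ hs]
      exact (hc s.1 hs s.2).symm
    · show glue S _ _ s = _
      rw [glue_notMem _ _ _ _ hs]
      rfl
  have h1 : (c, fun s => z (em S s)) ∈ closure ((Set.range (fun (a : κ → K) l => σ (a l))) ×ˢ
      (VK σ (rst S p F))) := by
    rw [closure_prod_eq]
    refine ⟨?_, hz2⟩
    rw [mem_closure_iff_nhds]
    intro U hU
    obtain ⟨y, hyU, -⟩ := dense_pi hσ c U hU ∅ (by simp)
    exact ⟨_, hyU, y, rfl⟩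
  rw [← hfz]
  refine map_mem_closure hf h1 ?_
  rintro ⟨_, _⟩ ⟨⟨a, rfl⟩, y, hy, rfl⟩
  refine ⟨glue S (fun s => a s.1 * p s) y, ?_, ?_⟩
  · rw [eval_over hF (S := S) (p := p) (c := a) (fun l hl i => glue_mem _ _ _ _ hl)]
    have : (fun s => glue S (fun s => a s.1 * p s) y (em S s)) = y := by
      funext s; exact glue_em _ _ _ _
    rw [this, hy, mul_zero]
  · show glue S (fun s => σ (a s.1) * σ (p s)) (fun s => σ (y s)) = _
    rw [glue_comp]
    congr 1
    funext s
    rw [map_mul]

/-- **The real closure of the set of the rational points is semialgebraic.** -/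
theorem closure_SA [CharZero K] {σ : K →+* ℝ} (hσ : ∀ a, IsAlgebraic ℚ (σ a)) (hd : DenseRange σ) :
    ∀ (m : ℕ) (κ : Type) [Fintype κ] [DecidableEq κ] (n : κ → ℕ), Fintype.card κ = m →
    (∀ l, 2 ≤ n l) → ∀ F : MvPolynomial (Pc n) K, MH Set.univ (fun _ => 2) F →
    Smth (map (algebraMap K (AlgebraicClosure K)) F) → SA (closure (VK σ F)) := by
  classical
  intro m
  induction m using Nat.strong_induction_on with
  | _ m ih =>
  intro κ _ _ n hm hn F hF hsm
  obtain ⟨E, hE1, hE2⟩ := spec_finite' (G := F) sMIN sU hF (fun _ => two_ne_zero) hn hsm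
  have hES : ∀ a ∈ E, SA (closure (VK σ (rst a.1 a.2 F))) := by
    intro a ha
    obtain ⟨h1, h2, h3⟩ := hE1 a ha
    have hcard : Fintype.card {l // l ∉ a.1} < m := by
      rw [← hm]
      obtain ⟨l, hl⟩ := h3.1
      exact Fintype.card_subtype_lt (x := l) (not_not.2 hl)
    refine ih _ hcard {l // l ∉ a.1} (nT a.1 n) rfl (fun l => hn l.1) _ (hF.rst a.1 a.2) ?_
    rw [map_rst]
    refine rst_smth hsm ?_ (h3.map _)
    intro l _
    obtain ⟨i, hi⟩ := h1 l (Set.mem_univ _)
    exact ⟨i, fun h => hi ((algebraMap K (AlgebraicClosure K)).injective (by rw [map_zero]; exact h))⟩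
  have heq : closure (VK σ F) = closure (closure (VK σ F) ∩ G0 σ F) ∪ (Imp n ∪
      ⋃ a ∈ E, Dp σ a.1 a.2 (closure (VK σ (rst a.1 a.2 F)))) := by
    apply Set.Subset.antisymm
    · refine closure_minimal ?_ (isClosed_closure.union (closed_Imp.union ?_))
      · rintro _ ⟨y, hy, rfl⟩
        by_cases hyn : Nz Set.univ y
        · by_cases hsp : ∃ S, SpecIn F S y
          · obtain ⟨S, hS⟩ := hsp
            right; right
            obtain ⟨p, hp, hc⟩ := hE2 S y hyn hy hS
            rw [Set.mem_iUnion₂]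
            refine ⟨(S, p), hp, ?_, ?_⟩
            · intro l hl
              obtain ⟨c, hc⟩ := hc l hl
              exact ⟨σ c, fun i => by
                show σ (y ⟨l, i⟩) = _
                rw [hc i, map_mul]⟩
            · apply subset_closure
              refine ⟨fun s => y (em S s), ?_, rfl⟩
              have hc' : ∀ l, ∃ c : K, l ∈ S → ∀ i, y ⟨l, i⟩ = c * p ⟨l, i⟩ := by
                intro l
                by_cases hl : l ∈ S
                · obtain ⟨c, hc⟩ := hc l hl
                  exact ⟨c, fun _ => hc⟩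
                · exact ⟨0, fun h => absurd h hl⟩
              choose c hc' using hc'
              have h1 := eval_over hF (S := S) (p := p) (y := y) (c := c) hc'
              rw [hy] at h1
              rcases mul_eq_zero.1 h1.symm with h2 | h2
              · exfalso
                rw [Finset.prod_eq_zero_iff] at h2
                obtain ⟨l, -, hl⟩ := h2
                by_cases hlS : l ∈ S
                · rw [if_pos hlS] at hl
                  have hl0 : c l = 0 := by
                    by_contra h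
                    exact pow_ne_zero 2 h hl
                  obtain ⟨i, hi⟩ := hyn l (Set.mem_univ _)
                  apply hi
                  rw [hc' l hlS i, hl0, zero_mul]
                · rw [if_neg hlS] at hl
                  simp at hl
              · exact h2
          · left
            apply subset_closure
            refine ⟨subset_closure ⟨y, hy, rfl⟩, ?_, ?_, ?_⟩
            · intro l _
              obtain ⟨i, hi⟩ := hyn l (Set.mem_univ _)
              exact ⟨i, fun h => hi (σ.injective (by rw [map_zero]; exact h))⟩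
            · rw [eval_map]
              have := eval₂_comp σ y F
              rw [hy, map_zero] at this
              exact this.symm
            · intro S hS
              exact hsp ⟨S, specIn_of_map σ hS⟩
        · right; left
          unfold Nz at hyn
          push Not at hyn
          obtain ⟨l, -, hl⟩ := hyn
          exact ⟨l, fun i => by
            show σ (y ⟨l, i⟩) = 0
            rw [hl i, map_zero]⟩
      · refine Set.Finite.isClosed_biUnion E.finite_toSet (fun a ha => ?_)
        exact closed_Dp a.1 (hE1 a ha).1 isClosed_closure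
    · refine Set.union_subset ?_ (Set.union_subset (Imp_sub hF hd) ?_)
      · exact closure_minimal Set.inter_subset_left isClosed_closure
      · exact Set.iUnion₂_subset (fun a _ => Dp_sub hF hd a.1 a.2)
  rw [heq]
  refine SA.union ?_ (SA.union sa_Imp ?_)
  · exact SA.closure (sa_of_lc (Pc n) (G0 σ F) _ (sa_G0 hσ F) Set.inter_subset_right
      (lc_G0 hF hn hsm hd))
  · exact SAP.congr (q := fun z => z ∈ ⋃ a ∈ E, Dp σ a.1 a.2 (closure (VK σ (rst a.1 a.2 F))))
      (SAP.exists_mem E (p := fun a z => z ∈ Dp σ a.1 a.2 (closure (VK σ (rst a.1 a.2 F))))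
      (fun a ha => sa_Dp hσ a.1 a.2 (hES a ha))) (fun z => by simp)

end Pool.Agent.Q35.ST
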