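import Pool.Agent.Q35.ST.Real2

/-!
# Closures of sets of values of rational functions at `K`-points of products
-/

set_option autoImplicit false
set_option linter.unusedSectionVars false

namespace Pool.Agent.Q35.ST

open MvPolynomial Pool.Agent.H581R2 Pool.Agent.TH729.SQ Pool.Agent.TH729.CC

variable {K : Type} [Field K]

/-- the real points given by `K`-points -/
def rK (σ : K →+* ℝ) {n : Type} (D : Set (n → K)) : Set (n → ℝ) :=
  {x | ∃ r ∈ D, x = fun i => σ (r i)}

lemma eval_castK (σ : K →+* ℝ) {n : Type} (r : n → K) (p : MvPolynomial n K) :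
    eval (fun i => σ (r i)) (map σ p) = σ (eval r p) := by
  rw [eval_map]
  exact (eval₂_comp σ r p).symm

lemma SA.image_ratK {ι κ : Type} [Finite ι] [Finite κ] {S : Set (ι → ℝ)} (hS : SA S)
    {σ : K →+* ℝ} (hσ : ∀ a, IsAlgebraic ℚ (σ a))
    (p : κ → MvPolynomial ι K) (q : MvPolynomial ι K) :
    SA {y : κ → ℝ | ∃ x ∈ S, eval x (map σ q) ≠ 0 ∧
      ∀ k, y k = eval x (map σ (p k)) / eval x (map σ q)} := by
  refine SAP.congr (SAP.exists_fun ι κ (fun w => (fun i => w (Sum.inl i)) ∈ S ∧
    eval (fun i => w (Sum.inl i)) (map σ q) ≠ 0 ∧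
    ∀ k, w (Sum.inr k) * eval (fun i => w (Sum.inl i)) (map σ q) -
      eval (fun i => w (Sum.inl i)) (map σ (p k)) = 0) ?_) fun v => ?_
  · have hc : ∀ r : MvPolynomial ι K, PA (fun w : ι ⊕ κ → ℝ =>
        eval (fun i => w (Sum.inl i)) (map σ r)) := by
      intro r
      obtain ⟨q, hq⟩ := PA_eval (ι := ι) σ hσ r
      refine ⟨rename Sum.inl q, fun w => ?_⟩
      rw [hq, aeval_rename]
      rfl
    refine SAP.and ?_ (SAP.and (SAP.eq_zeroA (hc q)).not (SAP.forall_fin fun k => ?_))
    · exact SAP.preimage (p := fun v => v ∈ S) hS (fun i => PF.coord _)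
    · exact SAP.eq_zeroA (((PA.coord _).mul (hc q)).sub (hc (p k)))
  · refine exists_congr fun x => and_congr_right fun _ => and_congr_right fun hq => ?_
    refine forall_congr' fun k => ?_
    rw [sub_eq_zero]
    exact eq_div_iff hq

lemma continuous_evalR {n : Type} (p : MvPolynomial n ℝ) : Continuous (fun w : n → ℝ => eval w p) :=
  MvPolynomial.continuous_eval p

/-- **closures of sets of values of rational functions on products** -/
theorem values_mainK {ι κ : Type} [Finite ι] [Finite κ] {n : ι → Type} [∀ j, Finite (n j)]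
    {σ : K →+* ℝ} (hσ : ∀ a, IsAlgebraic ℚ (σ a)) (hd : DenseRange σ)
    (D : ∀ j, Set (n j → K)) (hD : ∀ j, SA (closure (rK σ (D j)))) {m : Type} [Finite m]
    (p : m → MvPolynomial ((Σ j, n j) ⊕ κ) K) (q : MvPolynomial ((Σ j, n j) ⊕ κ) K) :
    SA (closure {y : m → ℝ | ∃ (x : ∀ j, n j → K) (u : κ → K), (∀ j, x j ∈ D j) ∧
      eval (Sum.elim (fun r => x r.1 r.2) u) q ≠ 0 ∧
      ∀ k, y k = σ (eval (Sum.elim (fun r => x r.1 r.2) u) (p k) /
        eval (Sum.elim (fun r => x r.1 r.2) u) q)}) := by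
  classical
  set Y : Set (m → ℝ) := {y : m → ℝ | ∃ (x : ∀ j, n j → K) (u : κ → K), (∀ j, x j ∈ D j) ∧
      eval (Sum.elim (fun r => x r.1 r.2) u) q ≠ 0 ∧
      ∀ k, y k = σ (eval (Sum.elim (fun r => x r.1 r.2) u) (p k) /
        eval (Sum.elim (fun r => x r.1 r.2) u) q)} with hY
  set Pw : Set ((Σ j, n j) ⊕ κ → ℝ) := {w | ∀ j, (fun i => w (Sum.inl ⟨j, i⟩)) ∈
    closure (rK σ (D j))} with hPw
  have hPws : SA Pw := by
    refine SAP.forall_fin fun j => ?_
    exact SAP.preimage (p := fun v => v ∈ closure (rK σ (D j))) (hD j) (fun i => PF.coord _)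
  set Im : Set (m → ℝ) := {y : m → ℝ | ∃ x ∈ Pw, eval x (map σ q) ≠ 0 ∧
      ∀ k, y k = eval x (map σ (p k)) / eval x (map σ q)} with hIm
  have hIms : SA Im := SA.image_ratK hPws hσ p q
  have hcl : closure Y = closure Im := by
    apply Set.Subset.antisymm
    · apply closure_mono
      rintro y ⟨x, u, hx, hq, hy⟩
      set r : (Σ j, n j) ⊕ κ → K := Sum.elim (fun r => x r.1 r.2) u with hr
      refine ⟨fun s => σ (r s), fun j => subset_closure ⟨x j, hx j, rfl⟩, ?_, fun k => ?_⟩
      · rw [eval_castK]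
        exact fun h => hq (σ.injective (by rw [h, map_zero]))
      · rw [eval_castK, eval_castK, hy k, map_div₀]
    · refine closure_minimal ?_ isClosed_closure
      rintro y ⟨w, hw, hq, hy⟩
      -- approximation of `w` by rational tuples
      set A : Set ((∀ j, n j → ℝ) × (κ → ℝ)) :=
        (Set.pi Set.univ fun j => rK σ (D j)) ×ˢ (Set.range fun (u : κ → K) k => σ (u k)) with hA
      set Ψ : (∀ j, n j → ℝ) × (κ → ℝ) → ((Σ j, n j) ⊕ κ → ℝ) := fun a s =>
        Sum.elim (fun r : Σ j, n j => a.1 r.1 r.2) a.2 s with hΨ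
      have hΨc : Continuous Ψ := by
        refine continuous_pi fun s => ?_
        rcases s with s | s
        · exact (continuous_apply s.2).comp ((continuous_apply s.1).comp continuous_fst)
        · exact (continuous_apply s).comp continuous_snd
      have hdense : Dense (Set.range fun (u : κ → K) k => σ (u k)) := by
        have h1 : DenseRange (Pi.map fun _ : κ => (σ : K → ℝ)) :=
          DenseRange.piMap fun _ => hd
        exact h1
      have haA : ((fun j i => w (Sum.inl ⟨j, i⟩), fun k => w (Sum.inr k)) :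
          (∀ j, n j → ℝ) × (κ → ℝ)) ∈ closure A := by
        rw [hA, closure_prod_eq, closure_pi_set]
        exact ⟨fun j _ => hw j, hdense _⟩
      have hw2 : w ∈ closure (Ψ '' A) := by
        have h1 := image_closure_subset_closure_image hΨc ⟨_, haA, rfl⟩
        have e : Ψ ((fun j i => w (Sum.inl ⟨j, i⟩), fun k => w (Sum.inr k)) :
          (∀ j, n j → ℝ) × (κ → ℝ)) = w := by
          funext s
          rcases s with s | s <;> rfl
        rwa [e] at h1
      have hqo : IsOpen {w : (Σ j, n j) ⊕ κ → ℝ | eval w (map σ q) ≠ 0} :=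
        isOpen_ne_fun (continuous_evalR _) continuous_const
      have hw3 : w ∈ closure ((Ψ '' A) ∩ {w | eval w (map σ q) ≠ 0}) := by
        rw [mem_closure_iff_nhds] at hw2 ⊢
        intro t ht
        obtain ⟨z, hz1, hz2⟩ := hw2 _ (Filter.inter_mem ht (hqo.mem_nhds hq))
        exact ⟨z, hz1.1, hz2, hz1.2⟩
      set φ : ((Σ j, n j) ⊕ κ → ℝ) → m → ℝ := fun w k =>
        eval w (map σ (p k)) / eval w (map σ q) with hφ
      have hφc : ContinuousWithinAt φ ((Ψ '' A) ∩ {w | eval w (map σ q) ≠ 0}) w := by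
        refine ContinuousAt.continuousWithinAt (continuousAt_pi.2 fun k => ?_)
        exact (continuous_evalR _).continuousAt.div (continuous_evalR _).continuousAt hq
      have hyφ : y = φ w := funext hy
      rw [hyφ]
      refine closure_mono ?_ (hφc.mem_closure_image hw3)
      rintro _ ⟨z, ⟨⟨a, ⟨ha1, ⟨u, hu⟩⟩, rfl⟩, hz⟩, rfl⟩
      choose x hx hx2 using fun j => ha1 j (Set.mem_univ j)
      have hza : Ψ a = fun s => σ (Sum.elim (fun r : Σ j, n j => x r.1 r.2) u s) := by
        funext s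
        rcases s with s | s
        · exact congrFun (hx2 s.1) s.2
        · exact (congrFun hu s).symm
      refine ⟨x, u, hx, ?_, fun k => ?_⟩
      · intro h0
        apply hz
        show eval (Ψ a) (map σ q) = 0
        rw [hza, eval_castK, h0, map_zero]
      · change eval (Ψ a) (map σ (p k)) / eval (Ψ a) (map σ q) = _
        rw [hza, eval_castK, eval_castK, map_div₀]
  rw [hcl]
  exact SA.closure hIms

section proper

variable {κ : Type} [Fintype κ] [DecidableEq κ] {n : κ → ℕ}

lemma sa_Nz : SA {z : Pc n → ℝ | Nz Set.univ z} := by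
  have : SAP (fun z : Pc n → ℝ => ∀ l, ∃ i, ¬ z ⟨l, i⟩ = 0) :=
    SAP.forall_fin (fun l => SAP.exists_fin (fun i => (SAP.eq_zero (PF.coord _)).not))
  refine SAP.congr this (fun z => ?_)
  constructor
  · intro h l; exact h l (Set.mem_univ _)
  · intro h l _; exact h l

lemma open_Nz : IsOpen {z : Pc n → ℝ | Nz Set.univ z} := by
  have : {z : Pc n → ℝ | Nz Set.univ z} = ⋂ l, ⋃ i, {z | z ⟨l, i⟩ ≠ 0} := by
    ext z; simp [Nz]
  rw [this]
  exact isOpen_iInter_of_finite (fun l => isOpen_iUnion (fun i =>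
    isOpen_ne_fun (continuous_apply _) continuous_const))

/-- the same for the points of `X` -/
theorem closure_SA' [CharZero K] {σ : K →+* ℝ} (hσ : ∀ a, IsAlgebraic ℚ (σ a)) (hd : DenseRange σ)
    (hn : ∀ l, 2 ≤ n l) {F : MvPolynomial (Pc n) K} (hF : MH Set.univ (fun _ => 2) F)
    (hsm : Smth (map (algebraMap K (AlgebraicClosure K)) F)) :
    SA (closure (rK σ {y : Pc n → K | Nz Set.univ y ∧ eval y F = 0})) := by
  have h1 := closure_SA hσ hd _ κ n rfl hn F hF hsm
  have h2 : closure (rK σ {y : Pc n → K | Nz Set.univ y ∧ eval y F = 0}) =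
      closure (closure (VK σ F) ∩ {z : Pc n → ℝ | Nz Set.univ z}) := by
    apply Set.Subset.antisymm
    · apply closure_mono
      rintro _ ⟨y, ⟨hy, hyF⟩, rfl⟩
      refine ⟨subset_closure ⟨y, hyF, rfl⟩, ?_⟩
      intro l _
      obtain ⟨i, hi⟩ := hy l (Set.mem_univ _)
      exact ⟨i, fun h => hi (σ.injective (by rw [map_zero]; exact h))⟩
    · refine closure_minimal ?_ isClosed_closure
      rintro z ⟨hz, hzn⟩
      rw [mem_closure_iff_nhds] at hz ⊢
      intro t ht
      obtain ⟨_, hx1, y, hyF, rfl⟩ := hz _ (Filter.inter_mem ht (open_Nz.mem_nhds hzn))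
      refine ⟨_, hx1.1, y, ⟨?_, hyF⟩, rfl⟩
      intro l _
      obtain ⟨i, hi⟩ := hx1.2 l (Set.mem_univ _)
      exact ⟨i, fun h => hi (by show σ (y ⟨l, i⟩) = 0; rw [h, map_zero])⟩
  rw [h2]
  exact SA.closure (SA.inter h1 sa_Nz)

end proper

end Pool.Agent.Q35.ST
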