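import Pool.Agent.Q35.ST.Spc

/-!
# Restriction of a multihomogeneous polynomial to a fibre over some of the factors
-/

set_option autoImplicit false
set_option linter.unusedSectionVars false

namespace Pool.Agent.Q35.ST

open MvPolynomial

variable {κ : Type} [DecidableEq κ] {n : κ → ℕ}

/-- the dimensions of the remaining factors -/
abbrev nT (S : Finset κ) (n : κ → ℕ) : {l // l ∉ S} → ℕ := fun l => n l.1

/-- the remaining coordinates -/
def em (S : Finset κ) (s : Pc (nT S n)) : Pc n := ⟨s.1.1, s.2⟩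

lemma em_injective (S : Finset κ) : Function.Injective (em (n := n) S) := by
  rintro ⟨⟨l, hl⟩, i⟩ ⟨⟨l', hl'⟩, i'⟩ h
  simp only [em] at h
  obtain ⟨h1, h2⟩ := Sigma.mk.inj_iff.1 h
  subst h1
  rw [eq_of_heq h2]

/-- the point with coordinates `p` in the factors in `S` and `z` in the other factors -/
def glue {R : Type} (S : Finset κ) (p : Pc n → R) (z : Pc (nT S n) → R) : Pc n → R :=
  fun s => if h : s.1 ∉ S then z ⟨⟨s.1, h⟩, s.2⟩ else p s

lemma glue_em {R : Type} (S : Finset κ) (p : Pc n → R) (z : Pc (nT S n) → R) (s : Pc (nT S n)) :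
    glue S p z (em S s) = z s := by
  unfold glue em
  rw [dif_pos s.1.2]

lemma glue_mem {R : Type} (S : Finset κ) (p : Pc n → R) (z : Pc (nT S n) → R) (s : Pc n)
    (hs : s.1 ∈ S) : glue S p z s = p s := by
  unfold glue
  rw [dif_neg (not_not.2 hs)]

lemma glue_notMem {R : Type} (S : Finset κ) (p : Pc n → R) (z : Pc (nT S n) → R) (s : Pc n)
    (hs : s.1 ∉ S) : glue S p z s = z ⟨⟨s.1, hs⟩, s.2⟩ := by
  unfold glue
  rw [dif_pos hs]

lemma glue_comp {R R' : Type} (f : R → R') (S : Finset κ) (p : Pc n → R) (z : Pc (nT S n) → R) :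
    (fun s => f (glue S p z s)) = glue S (fun s => f (p s)) (fun s => f (z s)) := by
  funext s
  unfold glue
  split_ifs <;> rfl

section

variable {k : Type} [Field k]

/-- the restriction of `F` to the fibre over `p` -/
noncomputable def rst (S : Finset κ) (p : Pc n → k) (F : MvPolynomial (Pc n) k) :
    MvPolynomial (Pc (nT S n)) k :=
  aeval (glue S (fun s => (C (p s) : MvPolynomial (Pc (nT S n)) k)) X) F

lemma eval_rst (S : Finset κ) (p : Pc n → k) (F : MvPolynomial (Pc n) k) (z : Pc (nT S n) → k) :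
    eval z (rst S p F) = eval (glue S p z) F := by
  unfold rst
  have h := comp_aeval_apply (f := glue S (fun s => (C (p s) : MvPolynomial (Pc (nT S n)) k)) X)
    (aeval z : MvPolynomial (Pc (nT S n)) k →ₐ[k] k) F
  rw [aeval_eq_eval] at h
  rw [h, aeval_eq_eval]
  congr 2
  have h2 := glue_comp (fun g : MvPolynomial (Pc (nT S n)) k => eval z g) S
    (fun s => (C (p s) : MvPolynomial (Pc (nT S n)) k)) X
  rw [h2]
  congr 1
  · funext s; simp
  · funext s; simp

lemma map_rst {C' : Type} [Field C'] (φ : k →+* C') (S : Finset κ) (p : Pc n → k)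
    (F : MvPolynomial (Pc n) k) :
    map φ (rst S p F) = rst S (fun s => φ (p s)) (map φ F) := by
  unfold rst
  induction F using MvPolynomial.induction_on with
  | C a => simp [algebraMap_eq]
  | add f g hf hg => rw [map_add, map_add, hf, hg, map_add, map_add]
  | mul_X f s hf =>
    rw [map_mul, map_mul, hf, map_mul, map_mul, aeval_X, map_X, aeval_X]
    congr 1
    by_cases hs : s.1 ∈ S
    · rw [glue_mem _ _ _ _ hs, glue_mem _ _ _ _ hs, map_C]
    · rw [glue_notMem _ _ _ _ hs, glue_notMem _ _ _ _ hs, map_X]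

lemma pderiv_rst (S : Finset κ) (p : Pc n → k) (F : MvPolynomial (Pc n) k) (s : Pc (nT S n)) :
    pderiv s (rst S p F) = rst S p (pderiv (em S s) F) := by
  classical
  unfold rst
  induction F using MvPolynomial.induction_on with
  | C a => simp
  | add f g hf hg => rw [map_add, map_add, hf, hg, map_add, map_add]
  | mul_X f t hf =>
    rw [map_mul, pderiv_mul, hf, pderiv_mul, map_add, map_mul, map_mul, aeval_X]
    congr 2
    by_cases ht : t.1 ∈ S
    · rw [glue_mem _ _ _ _ ht, pderiv_C, pderiv_X_of_ne, map_zero]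
      rintro h
      apply s.1.2
      rw [h] at ht
      exact ht
    · rw [glue_notMem _ _ _ _ ht]
      by_cases h : t = em S s
      · subst h
        have h1 : (⟨⟨(em S s).1, ht⟩, (em S s).2⟩ : Pc (nT S n)) = s := rfl
        rw [h1, pderiv_X_self, pderiv_X_self, map_one]
      · rw [pderiv_X_of_ne h, map_zero, pderiv_X_of_ne]
        intro h'
        apply h
        rw [← h']
        rfl

lemma rename_rst (S : Finset κ) (p : Pc n → k) (F : MvPolynomial (Pc n) k) :
    rename (em S) (rst S p F) = frz {l | l ∉ S} p F := by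
  classical
  unfold rst frz
  rw [comp_aeval_apply]
  congr 2
  funext s
  by_cases hs : s.1 ∈ S
  · rw [glue_mem _ _ _ _ hs, rename_C, if_neg (by simpa using hs)]
  · rw [glue_notMem _ _ _ _ hs, rename_X, if_pos (by simpa using hs)]
    rfl

lemma MH.rst [Fintype κ] {d : κ → ℕ} {F : MvPolynomial (Pc n) k} (hF : MH Set.univ d F) (S : Finset κ)
    (p : Pc n → k) : MH Set.univ (fun l : {l // l ∉ S} => d l.1) (rst S p F) := by
  classical
  intro m hm l _
  have h1 : coeff (m.mapDomain (em S)) (frz {l | l ∉ S} p F) ≠ 0 := by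
    rw [← rename_rst, coeff_rename_mapDomain _ (em_injective S)]
    exact mem_support_iff.1 hm
  rw [frz_co, coeff_sum] at h1
  obtain ⟨a, ha, ha'⟩ := Finset.exists_ne_zero_of_sum_ne_zero h1
  rw [coeff_monomial] at ha'
  have h2 : a = m.mapDomain (em S) := by
    by_contra hne
    rw [if_neg hne] at ha'
    exact ha' rfl
  have h3 := MM_deg S F hF a ha l.1 l.2
  rw [h2] at h3
  refine Eq.trans ?_ h3
  refine Finset.sum_congr rfl (fun i _ => ?_)
  have h4 : (⟨l.1, i⟩ : Pc n) = em S ⟨l, i⟩ := rfl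
  rw [h4, Finsupp.mapDomain_apply (em_injective S)]

/-- the fibres over special points are smooth -/
lemma rst_smth {F : MvPolynomial (Pc n) k} (hsm : Smth F) {S : Finset κ} {p : Pc n → k}
    (hp : Nz Set.univ p) (hS : SpecIn F S p) : Smth (rst S p F) := by
  intro z hz hzF
  rw [eval_rst] at hzF
  have hn : Nz Set.univ (glue S p z) := by
    intro l _
    by_cases hl : l ∈ S
    · obtain ⟨i, hi⟩ := hp l (Set.mem_univ _)
      exact ⟨i, by rw [glue_mem _ _ _ _ hl]; exact hi⟩
    · obtain ⟨i, hi⟩ := hz ⟨l, hl⟩ (Set.mem_univ _)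
      exact ⟨i, by rw [glue_notMem _ _ _ _ hl]; exact hi⟩
  obtain ⟨s, hs⟩ := hsm _ hn hzF
  have hsS : s.1 ∉ S := by
    intro hsS
    obtain ⟨c, hc⟩ := hS.2 s hsS
    apply hs
    rw [hc _ (fun t ht => glue_mem _ _ _ _ ht), hzF, mul_zero]
  refine ⟨⟨⟨s.1, hsS⟩, s.2⟩, ?_⟩
  rw [pderiv_rst, eval_rst]
  exact hs

end

end Pool.Agent.Q35.ST
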