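import Pool.Agent.Q35.ST.Main

/-!
# Special points
-/

set_option autoImplicit false
set_option linter.unusedSectionVars false

namespace Pool.Agent.Q35.ST

open MvPolynomial

section

variable {κ : Type} {n : κ → ℕ} {k : Type} [Field k]

/-- the point `x` is special for the set `S` of factors: over the coordinates of `x` in the factors
in `S` all derivatives of `F` in the directions in `S` are multiples of `F` -/
def SpecIn (F : MvPolynomial (Pc n) k) (S : Finset κ) (x : Pc n → k) : Prop :=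
  S.Nonempty ∧ ∀ s : Pc n, s.1 ∈ S → ∃ c : k, ∀ y : Pc n → k,
    (∀ t : Pc n, t.1 ∈ S → y t = x t) → eval y (pderiv s F) = c * eval y F

lemma specIn_of_map {C : Type} [Field C] (φ : k →+* C) {F : MvPolynomial (Pc n) k} {S : Finset κ}
    {x : Pc n → k} (h : SpecIn (map φ F) S (fun s => φ (x s))) : SpecIn F S x := by
  classical
  refine ⟨h.1, fun s hs => ?_⟩
  obtain ⟨c, hc⟩ := h.2 s hs
  have hev : ∀ (y : Pc n → k) (g : MvPolynomial (Pc n) k), eval (fun t => φ (y t)) (map φ g) = φ (eval y g) := by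
    intro y g
    rw [eval_map]
    exact (eval₂_comp φ y g).symm
  have hc' : ∀ y : Pc n → k, (∀ t : Pc n, t.1 ∈ S → y t = x t) →
      φ (eval y (pderiv s F)) = c * φ (eval y F) := by
    intro y hy
    have := hc (fun t => φ (y t)) (fun t ht => by rw [hy t ht])
    rw [pderiv_map, hev, hev] at this
    exact this
  by_cases h0 : ∃ y : Pc n → k, (∀ t : Pc n, t.1 ∈ S → y t = x t) ∧ eval y F ≠ 0
  · obtain ⟨y0, hy0, hy1⟩ := h0
    refine ⟨eval y0 (pderiv s F) / eval y0 F, fun y hy => ?_⟩
    apply φ.injective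
    rw [hc' y hy, map_mul, map_div₀, hc' y0 hy0]
    have : φ (eval y0 F) ≠ 0 := fun h => hy1 (φ.injective (by rw [h, map_zero]))
    field_simp
  · push Not at h0
    refine ⟨0, fun y hy => ?_⟩
    apply φ.injective
    rw [hc' y hy, h0 y hy, map_zero, mul_zero, mul_zero, map_zero]

variable [DecidableEq κ]

lemma frz_co (S : Finset κ) (F : MvPolynomial (Pc n) k) (z : Pc n → k) :
    frz {l | l ∉ S} z F = ∑ a ∈ MM S F, monomial a (eval z (co S F a)) := by
  classical
  conv_lhs => rw [co_sum S F]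
  rw [map_sum]
  refine Finset.sum_congr rfl (fun a ha => ?_)
  rw [map_mul, frz_of_vars _ z _ (fun t ht => by simpa using co_vars S F a t ht),
    frz_monomial _ z a (fun t ht => by
      simp only [Set.mem_ofPred_eq, not_not] at ht
      exact MM_zero S F a ha t ht), C_mul_monomial, mul_one]

lemma frz_co_pderiv (S : Finset κ) (F : MvPolynomial (Pc n) k) (z : Pc n → k) (s : Pc n)
    (hs : s.1 ∈ S) :
    frz {l | l ∉ S} z (pderiv s F) = ∑ a ∈ MM S F, monomial a (eval z (pderiv s (co S F a))) := by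
  classical
  conv_lhs => rw [co_sum S F]
  rw [map_sum, map_sum]
  refine Finset.sum_congr rfl (fun a ha => ?_)
  have h3 : pderiv s (monomial a (1 : k)) = 0 := by
    rw [pderiv_monomial, MM_zero S F a ha s hs]
    simp
  have hv := vars_pderiv_sub (k := k) s (co S F a) {t : Pc n | t.1 ∈ S} (co_vars S F a)
  rw [Derivation.leibniz, h3, smul_zero, zero_add, smul_eq_mul, map_mul, mul_comm,
    frz_of_vars _ z _ (fun t ht => by simpa using hv t ht),
    frz_monomial _ z a (fun t ht => by
      simp only [Set.mem_ofPred_eq, not_not] at ht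
      exact MM_zero S F a ha t ht), C_mul_monomial, mul_one]

lemma coeff_sum_mono (M : Finset (Pc n →₀ ℕ)) (w : (Pc n →₀ ℕ) → k) :
    ∀ a ∈ M, coeff a (∑ b ∈ M, monomial b (w b)) = w a := by
  classical
  intro a ha
  rw [coeff_sum, Finset.sum_eq_single a]
  · rw [coeff_monomial, if_pos rfl]
  · intro b _ hba
    rw [coeff_monomial, if_neg hba]
  · intro h; exact absurd ha h

lemma eval_frz (T : Set κ) (z y : Pc n → k) (g : MvPolynomial (Pc n) k) (w : Pc n → k)
    (h1 : ∀ s : Pc n, s.1 ∈ T → w s = y s) (h2 : ∀ s : Pc n, s.1 ∉ T → w s = z s) :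
    eval y (frz T z g) = eval w g := by
  classical
  unfold frz
  have h := comp_aeval_apply (f := fun s : Pc n => if s.1 ∈ T then (X s : MvPolynomial (Pc n) k) else C (z s))
    (aeval y : MvPolynomial (Pc n) k →ₐ[k] k) g
  rw [aeval_eq_eval] at h
  rw [h, aeval_eq_eval]
  congr 2
  funext s
  by_cases hs : s.1 ∈ T
  · rw [if_pos hs, eval_X, h1 s hs]
  · rw [if_neg hs, eval_C, h2 s hs]

/-- the derivatives of the coefficients are proportional to the coefficients at special points -/
lemma SpecIn.co_eq [Infinite k] {F : MvPolynomial (Pc n) k} {S : Finset κ}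
    {x : Pc n → k} (h : SpecIn F S x) (s : Pc n) (hs : s.1 ∈ S) :
    ∃ c : k, ∀ a ∈ MM S F, eval x (pderiv s (co S F a)) = c * eval x (co S F a) := by
  classical
  obtain ⟨c, hc⟩ := h.2 s hs
  refine ⟨c, fun a ha => ?_⟩
  have h1 : frz {l | l ∉ S} x (pderiv s F) = C c * frz {l | l ∉ S} x F := by
    apply MvPolynomial.funext
    intro y
    set w : Pc n → k := fun t => if t.1 ∈ S then x t else y t with hw
    have hw1 : ∀ s : Pc n, s.1 ∈ {l | l ∉ S} → w s = y s := by
      intro s hs; rw [hw]; simp only; rw [if_neg hs]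
    have hw2 : ∀ s : Pc n, s.1 ∉ {l | l ∉ S} → w s = x s := by
      intro s hs
      simp only [Set.mem_ofPred_eq, not_not] at hs
      rw [hw]; simp only; rw [if_pos hs]
    rw [eval_frz _ x y _ w hw1 hw2, map_mul, eval_C, eval_frz _ x y _ w hw1 hw2]
    exact hc w (fun t ht => by rw [hw]; simp only; rw [if_pos ht])
  rw [frz_co_pderiv S F x s hs, frz_co S F x] at h1
  have h2 := congrArg (coeff a) h1
  rw [coeff_C_mul, coeff_sum_mono _ _ a ha, coeff_sum_mono _ _ a ha] at h2
  exact h2

/-- conversely -/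
lemma specIn_of_co {F : MvPolynomial (Pc n) k} {S : Finset κ} (hS : S.Nonempty) {x : Pc n → k}
    (h : ∀ s : Pc n, s.1 ∈ S → ∃ c : k, ∀ a ∈ MM S F,
      eval x (pderiv s (co S F a)) = c * eval x (co S F a)) : SpecIn F S x := by
  classical
  refine ⟨hS, fun s hs => ?_⟩
  obtain ⟨c, hc⟩ := h s hs
  refine ⟨c, fun y hy => ?_⟩
  have e1 : eval y F = ∑ a ∈ MM S F, eval x (co S F a) * eval y (monomial a 1) := by
    have := eval_frz {l | l ∉ S} x y F y (fun _ _ => rfl) (fun s hs => hy s (by simpa using hs))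
    rw [← this, frz_co, map_sum]
    refine Finset.sum_congr rfl (fun a _ => ?_)
    rw [← mul_one (eval x (co S F a)), ← C_mul_monomial, map_mul, eval_C, mul_one]
  have e2 : eval y (pderiv s F) = ∑ a ∈ MM S F, eval x (pderiv s (co S F a)) * eval y (monomial a 1) := by
    have := eval_frz {l | l ∉ S} x y (pderiv s F) y (fun _ _ => rfl) (fun s hs => hy s (by simpa using hs))
    rw [← this, frz_co_pderiv S F x s hs, map_sum]
    refine Finset.sum_congr rfl (fun a _ => ?_)
    rw [← mul_one (eval x (pderiv s (co S F a))), ← C_mul_monomial, map_mul, eval_C, mul_one]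
  rw [e1, e2, Finset.mul_sum]
  refine Finset.sum_congr rfl (fun a ha => ?_)
  rw [hc a ha, mul_assoc]

lemma MM_map {C : Type} [Field C] (φ : k →+* C) (S : Finset κ) (F : MvPolynomial (Pc n) k) :
    MM S (map φ F) = MM S F := by
  unfold MM
  rw [support_map_of_injective F φ.injective]

lemma co_map {C : Type} [Field C] (φ : k →+* C) (S : Finset κ) (F : MvPolynomial (Pc n) k)
    (a : Pc n →₀ ℕ) : co S (map φ F) a = map φ (co S F a) := by
  unfold co
  rw [map_sum, support_map_of_injective F φ.injective]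
  refine Finset.sum_congr rfl (fun m _ => ?_)
  rw [map_monomial, coeff_map]

lemma SpecIn.map [Infinite k] {C : Type} [Field C] (φ : k →+* C) {F : MvPolynomial (Pc n) k}
    {S : Finset κ} {x : Pc n → k} (h : SpecIn F S x) :
    SpecIn (MvPolynomial.map φ F) S (fun s => φ (x s)) := by
  refine specIn_of_co h.1 (fun s hs => ?_)
  obtain ⟨c, hc⟩ := h.co_eq s hs
  refine ⟨φ c, fun a ha => ?_⟩
  rw [MM_map] at ha
  have hev : ∀ g : MvPolynomial (Pc n) k,
      eval (fun t => φ (x t)) (MvPolynomial.map φ g) = φ (eval x g) := by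
    intro g
    rw [eval_map]
    exact (eval₂_comp φ x g).symm
  rw [co_map, pderiv_map, hev, hev, hc a ha, map_mul]

end

section

variable {κ : Type} [Fintype κ] [DecidableEq κ] {n : κ → ℕ} {k : Type} [Field k] [CharZero k]
  [IsAlgClosed k] {F : MvPolynomial (Pc n) k} {d : κ → ℕ}

/-- the points of saturated subvarieties are special for the critical directions -/
theorem specIn_crit (hA : S_A) (hM : S_MIN) (hU : S_U) (hF : MH Set.univ d F)
    (hd : ∀ l, d l ≠ 0) (hn : ∀ l, 2 ≤ n l) (hsm : Smth F) {P : Ideal (MvPolynomial (Pc n) k)}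
    (h : Sat F P) {x : Pc n → k} (hx : Van P x) (hxn : Nz Set.univ x) (hS : (crit F P).Nonempty) :
    SpecIn F (crit F P) x := by
  classical
  obtain ⟨c0, hc0, hc0P⟩ := co_notMem hsm h
  -- the coefficient does not vanish at x
  have hb := h.prop
  choose b hb using hb
  have hX : (∏ l, X (⟨l, b l⟩ : Pc n) : MvPolynomial (Pc n) k) ∉ P := by
    rw [h.prime.prod_mem_iff]
    push Not
    exact fun l _ => hb l
  have hmul : (∏ l, X (⟨l, b l⟩ : Pc n) : MvPolynomial (Pc n) k) * co (crit F P) F c0 ∉ P := by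
    intro h1
    rcases h.prime.mem_or_mem h1 with h2 | h2
    · exact hX h2
    · exact hc0P h2
  obtain ⟨p, hp, hp'⟩ := exists_pt h.prime hmul
  rw [map_mul] at hp'
  have hpn : Nz Set.univ p := by
    intro l _
    have := left_ne_zero_of_mul hp'
    rw [map_prod, Finset.prod_ne_zero_iff] at this
    exact ⟨b l, by simpa using this l (Finset.mem_univ _)⟩
  have hmin := minors_mem hA hM hF hd hn hsm h
  have hpr := isol hU hF hd hn hsm h (le_refl P) h.prime h.ste hmin x p hx hp hxn hpn
  have hx0 : eval x (co (crit F P) F c0) ≠ 0 := by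
    intro hcon
    apply right_ne_zero_of_mul hp'
    have hc : ∀ l, ∃ c : k, l ∈ crit F P → ∀ i, p ⟨l, i⟩ = c * x ⟨l, i⟩ := by
      intro l
      by_cases hl : l ∈ crit F P
      · obtain ⟨c, hc⟩ := hpr l hl
        exact ⟨c, fun _ => hc⟩
      · exact ⟨0, fun h => absurd h hl⟩
    choose c hc using hc
    -- compare with the scaled point
    have hvars := co_vars (crit F P) F c0
    have h1 : eval p (co (crit F P) F c0) = eval (fun s => c s.1 * x s) (co (crit F P) F c0) := by
      change eval₂Hom (RingHom.id k) p _ = eval₂Hom (RingHom.id k) (fun s => c s.1 * x s) _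
      apply eval₂Hom_congr' rfl _ rfl
      intro s hs _
      exact hc s.1 (hvars s hs) s.2
    rw [h1]
    have hz : ∀ m, coeff m (co (crit F P) F c0) ≠ 0 → True := fun _ _ => trivial
    -- scaling in the factors in S only
    have h2 : eval (fun s => c s.1 * x s) (co (crit F P) F c0) =
        (∏ j ∈ crit F P, c j ^ d j) * eval x (co (crit F P) F c0) := by
      conv_lhs => rw [(co (crit F P) F c0).as_sum]
      conv_rhs => rw [(co (crit F P) F c0).as_sum]
      rw [map_sum, map_sum, Finset.mul_sum]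
      refine Finset.sum_congr rfl (fun m hm => ?_)
      rw [eval_scale_monomial]
      congr 1
      have hMH := co_MH (crit F P) F hF c0
      rw [← Finset.prod_subset (Finset.subset_univ (crit F P))]
      · refine Finset.prod_congr rfl (fun j hj => ?_)
        rw [hMH.bd_eq (mem_support_iff.1 hm) (by simpa using hj)]
      · intro j _ hj
        have : bd j m = 0 := by
          unfold bd
          refine Finset.sum_eq_zero (fun i _ => ?_)
          by_contra hne
          have hmem : (⟨j, i⟩ : Pc n) ∈ (co (crit F P) F c0).vars := by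
            rw [mem_vars_iff_mem_support]
            exact ⟨m, hm, Finsupp.mem_support_iff.2 hne⟩
          exact hj (hvars _ hmem)
        rw [this, pow_zero]
    rw [h2, hcon, mul_zero]
  refine specIn_of_co hS (fun s hs => ?_)
  refine ⟨eval x (pderiv s (co (crit F P) F c0)) / eval x (co (crit F P) F c0), fun a ha => ?_⟩
  have h3 := hx _ (hmin (Ideal.subset_span ⟨a, ha, c0, hc0, s, hs, rfl⟩))
  rw [map_sub, map_mul, map_mul, sub_eq_zero] at h3
  field_simp
  linear_combination h3

/-- through a point which is not special there is no proper saturated subvariety -/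
theorem eq_of_not_spec' (hA : S_A) (hM : S_MIN) (hU : S_U) (hF : MH Set.univ d F)
    (hd : ∀ l, d l ≠ 0) (hn : ∀ l, 2 ≤ n l) (hsm : Smth F) {P : Ideal (MvPolynomial (Pc n) k)}
    (h : Sat F P) {x : Pc n → k} (hx : Van P x) (hxn : Nz Set.univ x) (hsp : ∀ S, ¬ SpecIn F S x) :
    P = Ideal.span {F} := by
  classical
  have hcr : crit F P = ∅ := by
    by_contra hne
    exact hsp _ (specIn_crit hA hM hU hF hd hn hsm h hx hxn (Finset.nonempty_iff_ne_empty.2 hne))
  refine le_antisymm ?_ ?_
  · obtain ⟨f, hf, hfz⟩ := step1 hA hM hF hd hn hsm h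
    obtain ⟨p, hp, hpf⟩ := exists_pt h.prime hf
    obtain ⟨_, hp2⟩ := hfz p hp hpf
    intro g hg
    obtain ⟨q, hq⟩ := hp2 g hg
    rw [hcr] at hq
    have : Fro (((∅ : Finset κ)ᶜ : Finset κ) : Set κ) p = ⊥ := by
      unfold Fro
      rw [Ideal.span_eq_bot]
      rintro r ⟨s, hs, rfl⟩
      simp at hs
    rw [this, Ideal.mem_bot, sub_eq_zero] at hq
    rw [hq]
    exact Ideal.mul_mem_right _ _ (Ideal.subset_span rfl)
  · rw [Ideal.span_le]
    rintro g rfl
    exact h.mem

/-- the special points are isolated in the special directions -/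
theorem spec_prop (hM : S_MIN) (hU : S_U) (hF : MH Set.univ d F)
    (hd : ∀ l, d l ≠ 0) (hn : ∀ l, 2 ≤ n l) (hsm : Smth F) {S : Finset κ} {x : Pc n → k}
    (h : SpecIn F S x) (hxn : Nz Set.univ x) (hxF : eval x F = 0) :
    ∃ Q ∈ (mi S F).minimalPrimes, Van Q x ∧ ∀ y, Van Q y → Nz Set.univ y → ∀ l ∈ S,
      ∃ c : k, ∀ i, x ⟨l, i⟩ = c * y ⟨l, i⟩ := by
  classical
  have hmin : mi S F ≤ RingHom.ker (eval x) := by
    unfold mi
    rw [Ideal.span_le]
    rintro g ⟨a, ha, a', ha', s, hs, rfl⟩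
    obtain ⟨c, hc⟩ := h.co_eq s hs
    rw [SetLike.mem_coe, RingHom.mem_ker, map_sub, map_mul, map_mul, hc a ha, hc a' ha']
    ring
  have hker : (RingHom.ker (eval x)).IsPrime := RingHom.ker_isPrime _
  obtain ⟨Q, hQ, hQk⟩ := Ideal.exists_minimalPrimes_le hmin
  have hQx : Van Q x := fun f hf => by
    have := hQk hf
    rwa [RingHom.mem_ker] at this
  have hSne : S ≠ Finset.univ := by
    rintro rfl
    obtain ⟨s, hs⟩ := hsm x hxn hxF
    obtain ⟨c, hc⟩ := h.2 s (Finset.mem_univ _)
    exact hs (by rw [hc x (fun _ _ => rfl), hxF, mul_zero])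
  -- some coefficient does not vanish
  have hco : ∃ c ∈ MM S F, eval x (co S F c) ≠ 0 := by
    by_contra hcon
    push Not at hcon
    obtain ⟨s, hs⟩ := hsm x hxn hxF
    apply hs
    by_cases hsS : s.1 ∈ S
    · obtain ⟨c, hc⟩ := h.2 s hsS
      rw [hc x (fun _ _ => rfl), hxF, mul_zero]
    · rw [co_sum S F, map_sum, map_sum]
      refine Finset.sum_eq_zero (fun a ha => ?_)
      have h2 : pderiv s (co S F a) = 0 := by
        apply pderiv_eq_zero_of_notMem_vars
        intro h3
        exact hsS (co_vars _ F a _ h3)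
      rw [Derivation.leibniz, h2, smul_zero, add_zero, smul_eq_mul, map_mul, hcon a ha, zero_mul]
  refine ⟨Q, hQ, hQx, fun y hy hyn l hl => ?_⟩
  have := hU κ n k F d hF hd hn hsm S hSne (MM S F) (co S F)
    (MM_zero _ F) (MM_deg _ F hF) (fun c _ => co_vars _ F c) (fun c _ => co_MH _ F hF c)
    (co_sum _ F) Q hQ.1.1 (fun l => StE.min hM (mi_ste S hF l) hQ) (by
      intro l
      obtain ⟨i, hi⟩ := hxn l (Set.mem_univ _)
      refine ⟨i, fun hcon => hi ?_⟩
      have := hQx _ hcon
      rwa [eval_X] at this) (fun c hc c' hc' s hs => hQ.1.2 (Ideal.subset_span ⟨c, hc, c', hc', s, hs, rfl⟩)) (by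
      obtain ⟨c, hc, hc'⟩ := hco
      exact ⟨c, hc, fun hcon => hc' (hQx _ hcon)⟩) y x hy hQx hyn hxn l hl
  exact this

end

section

variable {κ : Type} [Fintype κ] [DecidableEq κ] {n : κ → ℕ} {K : Type} [Field K]
  {F : MvPolynomial (Pc n) K} {d : κ → ℕ}

/-- no proper saturated subvariety through points which are not special -/
theorem eq_of_not_spec_L (hA : S_A) (hM : S_MIN) (hU : S_U) (hF : MH Set.univ d F) (hd : ∀ l, d l ≠ 0)
    (hn : ∀ l, 2 ≤ n l) {L : Type} [Field L] [CharZero L] (φ : K →+* L)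
    (hsm : Smth (map ((algebraMap L (AlgebraicClosure L)).comp φ) F))
    {P : Ideal (MvPolynomial (Pc n) K)} (h : Sat F P) {x : Pc n → L}
    (hx : ∀ f ∈ P, eval₂ φ x f = 0) (hxn : Nz Set.univ x) (hsp : ∀ S, ¬ SpecIn (map φ F) S x) :
    P = Ideal.span {F} := by
  classical
  set C := AlgebraicClosure L with hC
  set ψ : K →+* C := (algebraMap L C).comp φ with hψ
  have hker : (RingHom.ker (eval (fun s => algebraMap L C (x s)))).IsPrime := RingHom.ker_isPrime _
  obtain ⟨P', hP'Q, hP's, hP'⟩ := h.over ψ hM hker (fun f hf => by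
    rw [RingHom.mem_ker, eval_map]
    have h2 := congrArg (algebraMap L C) (hx f hf)
    rw [eval₂_comp_left, map_zero] at h2
    exact h2) (by
    intro l
    obtain ⟨i, hi⟩ := hxn l (Set.mem_univ _)
    refine ⟨i, fun hcon => hi ?_⟩
    rw [RingHom.mem_ker, eval_X] at hcon
    exact (algebraMap L C).injective (by rw [map_zero]; exact hcon))
  have h1 : P' = Ideal.span {map ψ F} := by
    refine eq_of_not_spec' hA hM hU (hF.map ψ) hd hn hsm hP's (x := fun s => algebraMap L C (x s))
      ?_ ?_ ?_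
    · intro f hf
      have := hP'Q hf
      rwa [RingHom.mem_ker] at this
    · intro l _
      obtain ⟨i, hi⟩ := hxn l (Set.mem_univ _)
      exact ⟨i, fun h => hi ((algebraMap L C).injective (by rw [map_zero]; exact h))⟩
    · intro S hS
      refine hsp S (specIn_of_map (algebraMap L C) ?_)
      rw [map_map]
      exact hS
  refine le_antisymm ?_ ?_
  · intro f hf
    rw [Ideal.mem_span_singleton]
    apply dvd_of_map_dvd ψ
    rw [← Ideal.mem_span_singleton, ← h1]
    exact hP' f hf
  · rw [Ideal.span_le]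
    rintro g rfl
    exact h.mem

/-- the special points lie over finitely many points in the special directions -/
theorem spec_finite (hM : S_MIN) (hU : S_U) {L : Type} [Field L] [CharZero L]
    {G : MvPolynomial (Pc n) L} (hF : MH Set.univ d G) (hd : ∀ l, d l ≠ 0)
    (hn : ∀ l, 2 ≤ n l) (hsm : Smth (map (algebraMap L (AlgebraicClosure L)) G)) :
    ∃ E : Finset (Finset κ × (Pc n → L)), ∀ (S : Finset κ) (x : Pc n → L), Nz Set.univ x →
      eval x G = 0 → SpecIn G S x → ∃ p, (S, p) ∈ E ∧ Nz Set.univ p ∧ eval p G = 0 ∧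
        ∀ l ∈ S, ∃ c : L, ∀ i, x ⟨l, i⟩ = c * p ⟨l, i⟩ := by
  classical
  set C := AlgebraicClosure L with hC
  set φ := algebraMap L C with hφ
  -- representatives
  have hex : ∀ a : Finset κ × Ideal (MvPolynomial (Pc n) C), ∃ p : Pc n → L,
      (∃ x : Pc n → L, Nz Set.univ x ∧ eval x G = 0 ∧ Van a.2 (fun s => φ (x s))) →
      Nz Set.univ p ∧ eval p G = 0 ∧ Van a.2 (fun s => φ (p s)) := by
    intro a
    by_cases h : ∃ x : Pc n → L, Nz Set.univ x ∧ eval x G = 0 ∧ Van a.2 (fun s => φ (x s))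
    · obtain ⟨x, hx⟩ := h
      exact ⟨x, fun _ => hx⟩
    · exact ⟨0, fun h' => absurd h' h⟩
  choose p hp using hex
  have hfin : (⋃ S : Finset κ, (({S} : Set (Finset κ)) ×ˢ (mi S (map φ G)).minimalPrimes)).Finite :=
    Set.finite_iUnion (fun S : Finset κ => Set.Finite.prod (Set.finite_singleton S)
      (Ideal.finite_minimalPrimes_of_isNoetherianRing _ (mi S (map φ G))))
  refine ⟨hfin.toFinset.image (fun a => (a.1, p a)), fun S x hxn hxG hS => ?_⟩
  have hev : ∀ (y : Pc n → L) (g : MvPolynomial (Pc n) L), eval (fun t => φ (y t)) (map φ g) = φ (eval y g) := by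
    intro y g
    rw [eval_map]
    exact (eval₂_comp φ y g).symm
  have hnz : ∀ y : Pc n → L, Nz Set.univ y → Nz Set.univ (fun s => φ (y s)) := by
    intro y hy l _
    obtain ⟨i, hi⟩ := hy l (Set.mem_univ _)
    exact ⟨i, fun h => hi (φ.injective (by rw [map_zero]; exact h))⟩
  obtain ⟨Q, hQ, hQx, hQy⟩ := spec_prop hM hU (hF.map φ) hd hn hsm (hS.map φ) (hnz x hxn)
    (by rw [hev, hxG, map_zero])
  obtain ⟨hp1, hp2, hp3⟩ := hp (S, Q) ⟨x, hxn, hxG, hQx⟩
  refine ⟨p (S, Q), ?_, hp1, hp2, fun l hl => ?_⟩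
  · rw [Finset.mem_image]
    refine ⟨(S, Q), ?_, rfl⟩
    rw [Set.Finite.mem_toFinset, Set.mem_iUnion]
    exact ⟨S, rfl, hQ⟩
  · obtain ⟨c, hc⟩ := hQy _ hp3 (hnz _ hp1) l hl
    obtain ⟨i0, hi0⟩ := hp1 l (Set.mem_univ _)
    refine ⟨x ⟨l, i0⟩ / p (S, Q) ⟨l, i0⟩, fun i => ?_⟩
    apply φ.injective
    have h1 : φ (x ⟨l, i⟩) = c * φ (p (S, Q) ⟨l, i⟩) := hc i
    have h2 : φ (x ⟨l, i0⟩) = c * φ (p (S, Q) ⟨l, i0⟩) := hc i0
    have h3 : φ (p (S, Q) ⟨l, i0⟩) ≠ 0 := fun h => hi0 (φ.injective (by rw [h, map_zero]))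
    rw [map_mul, map_div₀, h1, h2, mul_div_assoc, div_self h3, mul_one]

end

end Pool.Agent.Q35.ST
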