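import Pool.Agent.TH178.MZ.Scale

/-!
# Subvarieties of hypersurfaces in products of projective spaces which are saturated in all
directions: definitions and statements (helper35, project ST)
-/

set_option autoImplicit false

namespace Pool.Agent.Q35.ST

open MvPolynomial

/-- homogeneous coordinates of a product of projective spaces of the dimensions `n i` -/
abbrev Pc {κ : Type} (n : κ → ℕ) := (i : κ) × Fin (n i + 1)

section

variable {κ : Type} {n : κ → ℕ}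

/-- `f` is homogeneous of degree `u l` in the coordinates of the factor `l`, for all `l ∈ T` -/
def MH {k : Type} [CommSemiring k] (T : Set κ) (u : κ → ℕ) (f : MvPolynomial (Pc n) k) : Prop :=
  ∀ m ∈ f.support, ∀ l ∈ T, ∑ i, m ⟨l, i⟩ = u l

/-- for all `l ∈ T` the coordinates of the factor `l` are not all zero -/
def Nz {k : Type} [Zero k] (T : Set κ) (z : Pc n → k) : Prop := ∀ l ∈ T, ∃ i, z ⟨l, i⟩ ≠ 0

/-- the point `z` with the coordinates of the factor `l` replaced by `y` -/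
def upd [DecidableEq κ] {k : Type} (z : Pc n → k) (l : κ) (y : Fin (n l + 1) → k) : Pc n → k :=
  fun s => Function.update (fun j (i : Fin (n j + 1)) => z ⟨j, i⟩) l y s.1 s.2

/-- the ideal is stable under the vector fields tangent to `F = 0` in the direction `l` -/
def StD {k : Type} [CommRing k] (F : MvPolynomial (Pc n) k) (P : Ideal (MvPolynomial (Pc n) k))
    (l : κ) : Prop :=
  ∀ i j : Fin (n l + 1), ∀ f ∈ P,
    pderiv ⟨l, i⟩ F * pderiv ⟨l, j⟩ f - pderiv ⟨l, j⟩ F * pderiv ⟨l, i⟩ f ∈ P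

/-- the ideal is stable under the Euler vector field of the factor `l` -/
def StE {k : Type} [CommRing k] (P : Ideal (MvPolynomial (Pc n) k)) (l : κ) : Prop :=
  ∀ f ∈ P, ∑ i : Fin (n l + 1), X ⟨l, i⟩ * pderiv ⟨l, i⟩ f ∈ P

/-- the ideal of the points whose coordinates outside `T` are those of `z0` -/
noncomputable def Fro {k : Type} [CommRing k] (T : Set κ) (z0 : Pc n → k) : Ideal (MvPolynomial (Pc n) k) :=
  Ideal.span {p | ∃ s : Pc n, s.1 ∉ T ∧ p = X s - C (z0 s)}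

end

/-- all polynomials in the ideal vanish at `z` -/
def Van {σ k : Type} [CommSemiring k] (P : Ideal (MvPolynomial σ k)) (z : σ → k) : Prop :=
  ∀ f ∈ P, eval z f = 0

section

variable {κ : Type} {n : κ → ℕ} {k : Type} [Field k]

/-- an irreducible subvariety of `F = 0` with fixed coordinates in the factors outside `T`,
saturated in the directions in `T`, not contained in the critical locus of any of them, and such
that `F = 0` is smooth along it -/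
structure Hyp (F : MvPolynomial (Pc n) k) (T : Finset κ) (z0 : Pc n → k)
    (P : Ideal (MvPolynomial (Pc n) k)) : Prop where
  prime : P.IsPrime
  mem : F ∈ P
  std : ∀ l ∈ T, StD F P l
  ste : ∀ l ∈ T, StE P l
  fro : ∀ s : Pc n, s.1 ∉ T → X s - C (z0 s) ∈ P
  prop : ∀ l ∈ T, ∃ i, (X ⟨l, i⟩ : MvPolynomial (Pc n) k) ∉ P
  ns : ∀ l ∈ T, ∃ i, pderiv ⟨l, i⟩ F ∉ P
  sm : ∀ z, Van P z → Nz T z → ∃ l ∈ T, ∃ i, eval z (pderiv ⟨l, i⟩ F) ≠ 0

end

/-! ### Jobs -/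

/-- JOB AL (algebraic leaf lemma) -/
def S_AL : Prop := ∀ (σ k : Type) [Fintype σ] [Field k] [CharZero k] (G : MvPolynomial σ k)
  (B : Set σ) (P : Ideal (MvPolynomial σ k)), P.IsPrime → G ∈ P →
  (∀ f ∈ P, (∀ i ∈ f.vars, i ∉ B) → f = 0) → ∀ a ∈ B, pderiv a G ∉ P →
  (∀ b ∈ B, ∀ f ∈ P, pderiv a G * pderiv b f - pderiv b G * pderiv a f ∈ P) →
  ∃ g, Irreducible g ∧ g ∣ G ∧ P = Ideal.span {g}

/-- JOB MIN (minimal primes of an ideal stable under a derivation are stable) -/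
def S_MIN : Prop := ∀ (σ k : Type) [Field k] [CharZero k]
  (D : Derivation k (MvPolynomial σ k) (MvPolynomial σ k)) (I P : Ideal (MvPolynomial σ k)),
  (∀ f ∈ I, D f ∈ I) → P ∈ I.minimalPrimes → ∀ f ∈ P, D f ∈ P

/-- JOB LL (local leaf lemma), from AL and MIN -/
def S_LL : Prop := ∀ (κ : Type) [Fintype κ] [DecidableEq κ] (n : κ → ℕ) (k : Type) [Field k]
  [CharZero k] [IsAlgClosed k] (F : MvPolynomial (Pc n) k) (P : Ideal (MvPolynomial (Pc n) k)),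
  P.IsPrime → F ∈ P → ∀ l, StD F P l → ∀ α : MvPolynomial (Fin (n l + 1)) k, Irreducible α →
  rename (fun i => (⟨l, i⟩ : Pc n)) α ∈ P → ∀ z, Van P z → (∃ i, eval z (pderiv ⟨l, i⟩ F) ≠ 0) →
  ∀ y, eval y α = 0 → Van P (upd z l y)

/-- JOB PR (product structure), from LL -/
def S_PR : Prop := ∀ (κ : Type) [Fintype κ] [DecidableEq κ] (n : κ → ℕ) (k : Type) [Field k]
  [CharZero k] [IsAlgClosed k] (F : MvPolynomial (Pc n) k) (P : Ideal (MvPolynomial (Pc n) k))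
  (T : Finset κ), P.IsPrime → F ∈ P → (∀ l ∈ T, StD F P l) →
  ∀ α : (l : κ) → MvPolynomial (Fin (n l + 1)) k,
  (∀ l ∈ T, Irreducible (α l) ∧ rename (fun i => (⟨l, i⟩ : Pc n)) (α l) ∈ P) →
  ∀ ζ, Van P ζ → (∀ l ∈ T, ∃ i, eval ζ (pderiv ⟨l, i⟩ F) ≠ 0) →
  ∀ z : Pc n → k, (∀ s : Pc n, s.1 ∉ T → z s = ζ s) →
  (∀ l ∈ T, eval (fun i => z ⟨l, i⟩) (α l) = 0) → Van P z

/-- JOB LN (a form of positive degree has a zero on a variety which is not a point in this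
factor) -/
def S_LN : Prop := ∀ (κ : Type) [Fintype κ] [DecidableEq κ] (n : κ → ℕ) (k : Type) [Field k]
  [CharZero k] [IsAlgClosed k] (T : Finset κ) (P : Ideal (MvPolynomial (Pc n) k)), P.IsPrime →
  (∀ l ∈ T, StE P l) → ∀ z0 : Pc n → k, (∀ s : Pc n, s.1 ∉ T → X s - C (z0 s) ∈ P) →
  ∀ y y', Van P y → Van P y' → Nz (T : Set κ) y → Nz (T : Set κ) y' → ∀ m ∈ T,
  (¬ ∃ c : k, ∀ i, y' ⟨m, i⟩ = c * y ⟨m, i⟩) → ∀ (U : MvPolynomial (Pc n) k) (u : κ → ℕ),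
  MH (T : Set κ) u U → u m ≠ 0 → ∃ z, Van P z ∧ Nz (T : Set κ) z ∧ eval z U = 0

/-- JOB INF (forms in at least three variables have many zeros) -/
def S_INF : Prop := ∀ (N : ℕ) (k : Type) [Field k] [CharZero k] [IsAlgClosed k], 2 ≤ N →
  ∀ (α : MvPolynomial (Fin (N + 1)) k) (e : ℕ), e ≠ 0 → α.IsHomogeneous e →
  ∀ E : Finset (Fin (N + 1) → k), (∀ v ∈ E, v ≠ 0) →
  ∃ z : Fin (N + 1) → k, z ≠ 0 ∧ eval z α = 0 ∧ ∀ v ∈ E, ¬ ∃ c : k, ∀ i, z i = c * v i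

/-- JOB CZ (common zeros), from LN, INF and MIN -/
def S_CZ : Prop := ∀ (κ : Type) [Fintype κ] [DecidableEq κ] (n : κ → ℕ) (k : Type) [Field k]
  [CharZero k] [IsAlgClosed k] (T : Finset κ), 2 ≤ T.card → (∀ l ∈ T, 2 ≤ n l) →
  ∀ α : (l : κ) → MvPolynomial (Fin (n l + 1)) k,
  (∀ l ∈ T, ∃ e, e ≠ 0 ∧ (α l).IsHomogeneous e) →
  ∀ (U : κ → MvPolynomial (Pc n) k) (u : κ → κ → ℕ), (∀ l ∈ T, MH (T : Set κ) (u l) (U l)) →
  (∀ l ∈ T, ∀ m ∈ T, m ≠ l → u l m ≠ 0) → ∀ z0 : Pc n → k,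
  ∃ z : Pc n → k, (∀ s : Pc n, s.1 ∉ T → z s = z0 s) ∧ Nz (T : Set κ) z ∧
    ∀ l ∈ T, eval (fun i => z ⟨l, i⟩) (α l) = 0 ∧ eval z (U l) = 0

/-- JOB UL (the cofactor of an irreducible factor of the fibre, as a polynomial) -/
def S_UL : Prop := ∀ (κ : Type) [Fintype κ] [DecidableEq κ] (n : κ → ℕ) (k : Type) [Field k]
  [CharZero k] [IsAlgClosed k] (F : MvPolynomial (Pc n) k) (d : κ → ℕ), MH Set.univ d F →
  ∀ (l : κ) (α : MvPolynomial (Fin (n l + 1)) k) (e : ℕ), Irreducible α → α.IsHomogeneous e →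
  ∃ (U : MvPolynomial (Pc n) k) (u : κ → ℕ), MH Set.univ u U ∧ (∀ m, m ≠ l → u m = d m) ∧
    ∀ z : Pc n → k, (∀ y, eval y α = 0 → eval (upd z l y) F = 0) →
      eval (fun i => z ⟨l, i⟩) α = 0 → eval z U = 0 → ∀ i, eval z (pderiv ⟨l, i⟩ F) = 0

/-- JOB A1 (one moving factor), from AL, LN and INF -/
def S_A1 : Prop := ∀ (κ : Type) [Fintype κ] [DecidableEq κ] (n : κ → ℕ) (k : Type) [Field k]
  [CharZero k] [IsAlgClosed k] (F : MvPolynomial (Pc n) k) (d : κ → ℕ), MH Set.univ d F →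
  (∀ l, d l ≠ 0) → (∀ l, 2 ≤ n l) → ∀ (T : Finset κ) (z0 : Pc n → k)
  (P : Ideal (MvPolynomial (Pc n) k)), Hyp F T z0 P → ∀ l ∈ T,
  (∀ f ∈ P, (∀ s ∈ f.vars, s.1 ∈ T ∧ s.1 ≠ l) → f = 0) →
  ∀ f ∈ P, ∃ h, f - F * h ∈ Fro (T : Set κ) z0

/-- JOB A2 (at least two moving factors), from MIN, LL, PR, UL and CZ -/
def S_A2 : Prop := ∀ (κ : Type) [Fintype κ] [DecidableEq κ] (n : κ → ℕ) (k : Type) [Field k]
  [CharZero k] [IsAlgClosed k] (F : MvPolynomial (Pc n) k) (d : κ → ℕ), MH Set.univ d F →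
  (∀ l, d l ≠ 0) → (∀ l, 2 ≤ n l) → ∀ (T : Finset κ) (z0 : Pc n → k)
  (P : Ideal (MvPolynomial (Pc n) k)), Hyp F T z0 P → ∀ R ⊆ T, 2 ≤ (T \ R).card →
  (∀ f ∈ P, (∀ s ∈ f.vars, s.1 ∈ R) → f = 0) →
  (∀ l ∈ T \ R, ∃ f ∈ P, f ≠ 0 ∧ ∀ s ∈ f.vars, s.1 ∈ R ∨ s.1 = l) → False

/-- the theorem on saturated subvarieties outside the critical loci, from A1 and A2 -/
def S_A : Prop := ∀ (κ : Type) [Fintype κ] [DecidableEq κ] (n : κ → ℕ) (k : Type) [Field k]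
  [CharZero k] [IsAlgClosed k] (F : MvPolynomial (Pc n) k) (d : κ → ℕ), MH Set.univ d F →
  (∀ l, d l ≠ 0) → (∀ l, 2 ≤ n l) → ∀ (T : Finset κ) (z0 : Pc n → k)
  (P : Ideal (MvPolynomial (Pc n) k)), Hyp F T z0 P → T.Nonempty →
  ∀ f ∈ P, ∃ h, f - F * h ∈ Fro (T : Set κ) z0

/-- JOB U (the special points are isolated), from LN: if the derivatives of `F` in the directions
of `S` are proportional to `F` along `Q`, then `Q` is a point in the factors in `S`. The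
coefficients of `F` as a polynomial in the variables of the factors outside `S` are described by
`co`: `F = ∑ c ∈ M, co c * (monomial c 1)` with monomials in the variables outside `S`. -/
def S_U : Prop := ∀ (κ : Type) [Fintype κ] [DecidableEq κ] (n : κ → ℕ) (k : Type) [Field k]
  [CharZero k] [IsAlgClosed k] (F : MvPolynomial (Pc n) k) (d : κ → ℕ), MH Set.univ d F →
  (∀ l, d l ≠ 0) → (∀ l, 2 ≤ n l) →
  (∀ z, Nz Set.univ z → eval z F = 0 → ∃ s, eval z (pderiv s F) ≠ 0) →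
  ∀ (S : Finset κ), S ≠ Finset.univ → ∀ (M : Finset (Pc n →₀ ℕ))
  (co : (Pc n →₀ ℕ) → MvPolynomial (Pc n) k), (∀ c ∈ M, ∀ s : Pc n, s.1 ∈ S → c s = 0) →
  (∀ c ∈ M, ∀ l, l ∉ S → ∑ i, c ⟨l, i⟩ = d l) →
  (∀ c ∈ M, ∀ s ∈ (co c).vars, s.1 ∈ S) → (∀ c ∈ M, MH (S : Set κ) d (co c)) →
  F = ∑ c ∈ M, co c * monomial c 1 →
  ∀ Q : Ideal (MvPolynomial (Pc n) k), Q.IsPrime → (∀ l, StE Q l) →
  (∀ l, ∃ i, (X ⟨l, i⟩ : MvPolynomial (Pc n) k) ∉ Q) →
  (∀ c ∈ M, ∀ c' ∈ M, ∀ s : Pc n, s.1 ∈ S →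
    co c' * pderiv s (co c) - co c * pderiv s (co c') ∈ Q) →
  (∃ c ∈ M, co c ∉ Q) →
  ∀ y y', Van Q y → Van Q y' → Nz Set.univ y → Nz Set.univ y' → ∀ l ∈ S,
    ∃ c : k, ∀ i, y' ⟨l, i⟩ = c * y ⟨l, i⟩

/-- JOB RI (conics through rational points) -/
def S_RI : Prop := ∀ (κ : Type) [Fintype κ] [DecidableEq κ] (n : κ → ℕ) (k : Type) [Field k]
  [CharZero k] (F : MvPolynomial (Pc n) k) (d : κ → ℕ), MH Set.univ d F → ∀ l, d l ≤ 2 →
  (∀ i j : Fin (n l + 1), Pool.Agent.TH178.MZ.RationallyIntegrable {y | eval y F = 0}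
    ((pderiv (⟨l, i⟩ : Pc n) F) • (pderiv ⟨l, j⟩ : Derivation k _ (MvPolynomial (Pc n) k)) -
      (pderiv (⟨l, j⟩ : Pc n) F) • (pderiv ⟨l, i⟩ : Derivation k _ (MvPolynomial (Pc n) k)))) ∧
  Pool.Agent.TH178.MZ.RationallyIntegrable {y | eval y F = 0}
    (∑ i : Fin (n l + 1), (X (⟨l, i⟩ : Pc n) : MvPolynomial (Pc n) k) •
      (pderiv ⟨l, i⟩ : Derivation k _ (MvPolynomial (Pc n) k)))

end Pool.Agent.Q35.ST
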