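import Pool.Agent.Q35.ST.Main

/-!
# Moves along conics on hypersurfaces of multidegree (2, ..., 2) (helper35, project ST, part 2)
-/

set_option autoImplicit false

namespace Pool.Agent.Q35.ST

open MvPolynomial

section moves

variable {κ : Type} [DecidableEq κ] {n : κ → ℕ} {k R : Type} [Field k] [CommRing R] [Algebra k R]

/-- the value of `F` at the point `z` with the coordinates of the factor `l` replaced by those of
`w` -/
noncomputable def qf (F : MvPolynomial (Pc n) k) (l : κ) (z w : Pc n → R) : R :=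
  aeval (upd z l (fun i => w ⟨l, i⟩)) F

/-- the polar form of `F` in the factor `l` -/
noncomputable def bf (F : MvPolynomial (Pc n) k) (l : κ) (z w : Pc n → R) : R :=
  ∑ i, w ⟨l, i⟩ * aeval z (pderiv ⟨l, i⟩ F)

/-- the second point of the quadric in the factor `l` through `z` on the line through `z` and `w` -/
noncomputable def mv (F : MvPolynomial (Pc n) k) (l : κ) (z w : Pc n → R) : Pc n → R :=
  upd z l (fun i => qf F l z w * z ⟨l, i⟩ - bf F l z w * w ⟨l, i⟩)

/-- double moves in the directions of a list, with parameters `p 0`, `p 1`, `p 2`, ... -/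
noncomputable def mvl (F : MvPolynomial (Pc n) k) : List κ → (Pc n → R) → (ℕ → Pc n → R) → Pc n → R
  | [], z, _ => z
  | l :: s, z, p => mvl F s (mv F l (mv F l z (p 0)) (p 1)) (fun j => p (j + 2))

/-- the product of the values of the quadratic forms at the parameters of the moves -/
noncomputable def ndp (F : MvPolynomial (Pc n) k) : List κ → (Pc n → R) → (ℕ → Pc n → R) → R
  | [], _, _ => 1
  | l :: s, z, p => qf F l z (p 0) * qf F l z (p 1) *
      ndp F s (mv F l (mv F l z (p 0)) (p 1)) (fun j => p (j + 2))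

/-- scaling of the coordinates of the factors -/
def sc (t : κ → R) (z : Pc n → R) : Pc n → R := fun s => t s.1 * z s

/-- the point `b` is obtained from `a` by a double move or by scaling -/
def DM (F : MvPolynomial (Pc n) k) (a b : Pc n → k) : Prop :=
  (∃ (l : κ) (w w' : Pc n → k), b = mv F l (mv F l a w) w') ∨
    (∃ t : κ → k, (∀ l, t l ≠ 0) ∧ b = sc t a)

/-- in no factor the whole fibre through the point `y` is contained in the hypersurface -/
def ND (F : MvPolynomial (Pc n) k) (y : Pc n → k) : Prop := ∀ l, ∃ w : Pc n → k, qf F l y w ≠ 0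

/-- the only saturated subvariety through the point is the hypersurface -/
def Free (F : MvPolynomial (Pc n) k) (T : Pc n → k) : Prop :=
  ∀ P : Ideal (MvPolynomial (Pc n) k), Sat F P → Van P T → P = Ideal.span {F}

end moves

/-! ### Jobs -/

/-- JOB M1 (identities) -/
def S_M1 : Prop := ∀ (κ : Type) [Fintype κ] [DecidableEq κ] (n : κ → ℕ) (k R : Type) [Field k]
  [CommRing R] [Algebra k R] (F : MvPolynomial (Pc n) k), MH Set.univ (fun _ => 2) F →
  ∀ (l : κ) (z w : Pc n → R),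
  (∀ w', qf F l (mv F l z w) w' = qf F l z w') ∧
  aeval (mv F l z w) F = qf F l z w ^ 2 * aeval z F ∧
  mv F l (mv F l z w) w = upd z l (fun i => qf F l z w ^ 2 * z ⟨l, i⟩) ∧
  (∀ c : R, mv F l z (fun s => c * w s) = upd z l (fun i => c ^ 2 * mv F l z w ⟨l, i⟩)) ∧
  (∀ c : R, qf F l z (fun s => c * w s) = c ^ 2 * qf F l z w)

/-- JOB M2 (vector fields from moves), from M1 -/
def S_M2 : Prop := ∀ (κ : Type) [Fintype κ] [DecidableEq κ] (n : κ → ℕ) (k : Type) [Field k]
  [CharZero k] (F : MvPolynomial (Pc n) k), MH Set.univ (fun _ => 2) F →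
  ∀ (l : κ) (y : Pc n → k), (∃ w : Pc n → k, qf F l y w ≠ 0) → ∀ g : MvPolynomial (Pc n) k,
  (∀ w w' : Pc n → k, eval (mv F l (mv F l y w) w') g = 0) →
  (∀ i j, eval y (pderiv ⟨l, i⟩ F * pderiv ⟨l, j⟩ g - pderiv ⟨l, j⟩ F * pderiv ⟨l, i⟩ g) = 0) ∧
  eval y (∑ i : Fin (n l + 1), X ⟨l, i⟩ * pderiv ⟨l, i⟩ g) = 0

/-- JOB M3 (the closure of the set of the points reached by moves), from M1 and M2 -/
def S_M3 : Prop := ∀ (κ : Type) [Fintype κ] [DecidableEq κ] (n : κ → ℕ) (k : Type) [Field k]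
  [CharZero k] (F : MvPolynomial (Pc n) k), MH Set.univ (fun _ => 2) F →
  ∀ T : Pc n → k, eval T F = 0 →
  ∃ (s : List κ) (P : Ideal (MvPolynomial (Pc n) k)), P.IsPrime ∧ F ∈ P ∧ (∀ l, StD F P l) ∧
    (∀ l, StE P l) ∧ Van P T ∧ (∃ p : ℕ → Pc n → k, ndp F s T p ≠ 0) ∧
    ∀ g : MvPolynomial (Pc n) k,
      (∀ (t : κ → k) (p : ℕ → Pc n → k), eval (sc t (mvl F s T p)) g = 0) → g ∈ P

/-- JOB JAC (Jacobian criterion for dominant polynomial maps to a hypersurface) -/
def S_JAC : Prop := ∀ (σ τ k : Type) [Fintype σ] [Fintype τ] [Field k] [CharZero k]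
  (Ψ : σ → MvPolynomial τ k) (F : MvPolynomial σ k), F ≠ 0 →
  (∀ g : MvPolynomial σ k, aeval Ψ g = 0 ↔ F ∣ g) → ∀ h : MvPolynomial τ k, h ≠ 0 →
  ∃ p : τ → k, eval p h ≠ 0 ∧ (∃ s, eval (fun s => eval p (Ψ s)) (pderiv s F) ≠ 0) ∧
    ∀ t : σ → k, ∑ s, eval (fun s => eval p (Ψ s)) (pderiv s F) * t s = 0 →
      ∃ u : τ → k, ∀ s, ∑ a, eval p (pderiv a (Ψ s)) * u a = t s

/-- JOB IFT (inverse function theorem for polynomial maps to a hypersurface) -/
def S_IFT : Prop := ∀ (σ τ L : Type) [Fintype σ] [Fintype τ] [NontriviallyNormedField L]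
  [CompleteSpace L] (Ψ : σ → MvPolynomial τ L) (F : MvPolynomial σ L), aeval Ψ F = 0 →
  ∀ p : τ → L, (∃ s, eval (fun s => eval p (Ψ s)) (pderiv s F) ≠ 0) →
  (∀ t : σ → L, ∑ s, eval (fun s => eval p (Ψ s)) (pderiv s F) * t s = 0 →
      ∃ u : τ → L, ∀ s, ∑ a, eval p (pderiv a (Ψ s)) * u a = t s) →
  ∀ A ∈ nhds p, ∀ᶠ y in nhds (fun s => eval p (Ψ s)), eval y F = 0 →
    ∃ q ∈ A, (fun s => eval q (Ψ s)) = y

/-- (points near to a free point are reached by moves), from M1, M3, JAC and IFT -/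
def S_PP : Prop := ∀ (κ : Type) [Fintype κ] [DecidableEq κ] (n : κ → ℕ) (L : Type)
  [NontriviallyNormedField L] [CompleteSpace L] [CharZero L] (F : MvPolynomial (Pc n) L),
  MH Set.univ (fun _ => 2) F → F ≠ 0 → ∀ T : Pc n → L, eval T F = 0 → Nz Set.univ T → Free F T →
  ∀ᶠ S in nhds T, eval S F = 0 → Relation.ReflTransGen (DM F) T S

/-- JOB WD (the closure of the set of the nondegenerate rational points is preserved by moves at
one place), from M1 -/
def S_WD : Prop := ∀ (κ : Type) [Fintype κ] [DecidableEq κ] (n : κ → ℕ) (K : Type) [Field K]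
  [CharZero K] (ι : Type) [Fintype ι] [DecidableEq ι] (L : ι → Type)
  [∀ v, NontriviallyNormedField (L v)] (σ : ∀ v, K →+* L v), DenseRange (fun a : K => fun v => σ v a) →
  ∀ F : MvPolynomial (Pc n) K, MH Set.univ (fun _ => 2) F →
  ∀ S ∈ closure {S : ∀ v, Pc n → L v | ∃ y : Pc n → K, eval y F = 0 ∧ ND F y ∧
    S = fun v s => σ v (y s)}, ∀ (v : ι) (b : Pc n → L v), DM (map (σ v) F) (S v) b →
  Function.update S v b ∈ closure {S : ∀ v, Pc n → L v | ∃ y : Pc n → K, eval y F = 0 ∧ ND F y ∧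
    S = fun v s => σ v (y s)}

/-- JOB ML (rational points near to a free point are not all degenerate), from MIN and RI -/
def S_ML : Prop := ∀ (κ : Type) [Fintype κ] [DecidableEq κ] (n : κ → ℕ) (K : Type) [Field K]
  [CharZero K] (ι : Type) [Fintype ι] (L : ι → Type)
  [∀ v, NontriviallyNormedField (L v)] (σ : ∀ v, K →+* L v), DenseRange (fun a : K => fun v => σ v a) →
  ∀ F : MvPolynomial (Pc n) K, MH Set.univ (fun _ => 2) F → F ≠ 0 →
  ∀ T ∈ closure {S : ∀ v, Pc n → L v | ∃ y : Pc n → K, eval y F = 0 ∧ S = fun v s => σ v (y s)},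
  (∃ v, Nz Set.univ (T v) ∧ ∀ P : Ideal (MvPolynomial (Pc n) K), Sat F P →
    (∀ f ∈ P, eval₂ (σ v) (T v) f = 0) → P = Ideal.span {F}) →
  T ∈ closure {S : ∀ v, Pc n → L v | ∃ y : Pc n → K, eval y F = 0 ∧ ND F y ∧
    S = fun v s => σ v (y s)}

/-- (the closure of the set of the rational points is a neighbourhood of its free points), from PP,
WD and ML -/
def S_OP : Prop := ∀ (κ : Type) [Fintype κ] [DecidableEq κ] (n : κ → ℕ) (K : Type) [Field K]
  [CharZero K] (ι : Type) [Fintype ι] [Nonempty ι] (L : ι → Type)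
  [∀ v, NontriviallyNormedField (L v)] [∀ v, CompleteSpace (L v)] (σ : ∀ v, K →+* L v),
  DenseRange (fun a : K => fun v => σ v a) →
  ∀ F : MvPolynomial (Pc n) K, MH Set.univ (fun _ => 2) F → F ≠ 0 →
  ∀ T ∈ closure {S : ∀ v, Pc n → L v | ∃ y : Pc n → K, eval y F = 0 ∧ S = fun v s => σ v (y s)},
  (∀ v, Nz Set.univ (T v) ∧ Free (map (σ v) F) (T v) ∧ ∀ P : Ideal (MvPolynomial (Pc n) K), Sat F P →
    (∀ f ∈ P, eval₂ (σ v) (T v) f = 0) → P = Ideal.span {F}) →
  ∀ᶠ S in nhds T, (∀ v, eval (S v) (map (σ v) F) = 0) →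
    S ∈ closure {S : ∀ v, Pc n → L v | ∃ y : Pc n → K, eval y F = 0 ∧ S = fun v s => σ v (y s)}

end Pool.Agent.Q35.ST
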