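import Pool.Agent.Q35.ST.Stm

/-!
# The theorem on saturated subvarieties, from the jobs A1 and A2
-/

set_option autoImplicit false

namespace Pool.Agent.Q35.ST

open MvPolynomial

section fro

variable {κ : Type} {n : κ → ℕ} {k : Type} [Field k]

open Classical in
/-- freeze the coordinates outside `T` -/
noncomputable def frz (T : Set κ) (z0 : Pc n → k) :
    MvPolynomial (Pc n) k →ₐ[k] MvPolynomial (Pc n) k :=
  aeval (fun s => if s.1 ∈ T then X s else C (z0 s))

lemma sub_frz_mem (T : Set κ) (z0 : Pc n → k) (f : MvPolynomial (Pc n) k) :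
    f - frz T z0 f ∈ Fro T z0 := by
  classical
  induction f using MvPolynomial.induction_on with
  | C a => simp [frz]
  | add p q hp hq =>
    have : p + q - frz T z0 (p + q) = (p - frz T z0 p) + (q - frz T z0 q) := by
      rw [map_add]; ring
    rw [this]; exact Ideal.add_mem _ hp hq
  | mul_X p s hp =>
    have : p * X s - frz T z0 (p * X s) = X s * (p - frz T z0 p) +
        frz T z0 p * (X s - frz T z0 (X s)) := by
      rw [map_mul]; ring
    rw [this]
    refine Ideal.add_mem _ (Ideal.mul_mem_left _ _ hp) (Ideal.mul_mem_left _ _ ?_)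
    by_cases hs : s.1 ∈ T
    · simp [frz, hs]
    · have : X s - frz T z0 (X s) = X s - C (z0 s) := by simp [frz, hs]
      rw [this]
      exact Ideal.subset_span ⟨s, hs, rfl⟩

lemma frz_vars (T : Set κ) (z0 : Pc n → k) (f : MvPolynomial (Pc n) k) :
    ∀ s ∈ (frz T z0 f).vars, s.1 ∈ T := by
  classical
  intro s hs
  unfold frz at hs
  have h := MvPolynomial.mem_vars_bind₁ (fun s : Pc n => if s.1 ∈ T then (X s : MvPolynomial (Pc n) k) else C (z0 s)) f hs
  obtain ⟨j, hj, hs'⟩ := h
  by_cases hT : j.1 ∈ T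
  · simp only [hT, if_true] at hs'
    rw [vars_X] at hs'
    rw [Finset.mem_singleton] at hs'
    rw [hs']; exact hT
  · simp only [hT, if_false] at hs'
    rw [vars_C] at hs'
    simp at hs'

lemma pderiv_frz (T : Set κ) (z0 : Pc n → k) (s : Pc n) (hs : s.1 ∈ T)
    (f : MvPolynomial (Pc n) k) : pderiv s (frz T z0 f) = frz T z0 (pderiv s f) := by
  classical
  induction f using MvPolynomial.induction_on with
  | C a => simp [frz]
  | add p q hp hq => rw [map_add, map_add, map_add, hp, hq, map_add]
  | mul_X p t hp =>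
    rw [map_mul, pderiv_mul, pderiv_mul, hp, map_add, map_mul, map_mul]
    congr 2
    by_cases ht : t.1 ∈ T
    · have : frz T z0 (X t : MvPolynomial (Pc n) k) = X t := by simp [frz, ht]
      rw [this, pderiv_X]
      by_cases hst : t = s
      · subst hst; simp
      · simp [hst]
    · have h1 : frz T z0 (X t : MvPolynomial (Pc n) k) = C (z0 t) := by simp [frz, ht]
      have h2 : t ≠ s := fun h => ht (h ▸ hs)
      rw [h1, pderiv_C, pderiv_X]
      simp [h2]

end fro

theorem S_A_of (h1 : S_A1) (h2 : S_A2) : S_A := by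
  classical
  intro κ _ _ n k _ _ _ F d hF hd hn T z0 P H hT f hf
  set G : Finset (Finset κ) := T.powerset.filter
    (fun R => ∀ f ∈ P, (∀ s ∈ f.vars, s.1 ∈ R) → f = 0) with hG
  have hemp : ∅ ∈ G := by
    rw [hG, Finset.mem_filter]
    refine ⟨by simp, ?_⟩
    intro f hf hv
    have hv' : f.vars = ∅ := by
      by_contra hne
      obtain ⟨s, hs⟩ := Finset.nonempty_iff_ne_empty.2 hne
      simpa using hv s hs
    obtain ⟨c, rfl⟩ : ∃ c, f = C c := ⟨_, vars_eq_empty_iff_eq_C.1 hv'⟩
    by_contra hc
    have hc' : c ≠ 0 := fun h => hc (by rw [h, map_zero])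
    apply H.prime.ne_top
    rw [Ideal.eq_top_iff_one]
    have : (1 : MvPolynomial (Pc n) k) = C c⁻¹ * C c := by
      rw [← map_mul, inv_mul_cancel₀ hc', map_one]
    rw [this]
    exact Ideal.mul_mem_left _ _ hf
  obtain ⟨R, hR, hmax⟩ := G.exists_max_image Finset.card ⟨∅, hemp⟩
  rw [hG, Finset.mem_filter, Finset.mem_powerset] at hR
  obtain ⟨hRT, hR0⟩ := hR
  have hfro : Fro (T : Set κ) z0 ≤ P := by
    unfold Fro
    rw [Ideal.span_le]
    rintro p ⟨s, hs, rfl⟩
    exact H.fro s hs
  have hmemfrz : ∀ g, g ∈ P ↔ frz (T : Set κ) z0 g ∈ P := by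
    intro g
    have := hfro (sub_frz_mem (T : Set κ) z0 g)
    constructor
    · intro h
      have h' := P.sub_mem h this
      simpa using h'
    · intro h
      have h' := P.add_mem this h
      simpa using h'
  have hne : R ≠ T := by
    rintro rfl
    obtain ⟨l, hl⟩ := hT
    obtain ⟨i, hi⟩ := H.ns l hl
    have h0 : frz (R : Set κ) z0 F = 0 :=
      hR0 _ ((hmemfrz F).1 H.mem) (fun s hs => by simpa using frz_vars _ _ _ s hs)
    apply hi
    rw [hmemfrz, ← pderiv_frz _ _ _ (by simpa using hl), h0, map_zero]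
    exact P.zero_mem
  have hTR : (T \ R).Nonempty := by
    rw [Finset.sdiff_nonempty]
    exact fun h => hne (Finset.Subset.antisymm hRT h)
  by_cases hc : (T \ R).card = 1
  · obtain ⟨l, hl⟩ := Finset.card_eq_one.1 hc
    have hlT : l ∈ T \ R := by rw [hl]; simp
    refine h1 κ n k F d hF hd hn T z0 P H l (Finset.mem_sdiff.1 hlT).1 ?_ f hf
    intro g hg hv
    refine hR0 g hg (fun s hs => ?_)
    obtain ⟨hs1, hs2⟩ := hv s hs
    by_contra hsR
    have : s.1 ∈ T \ R := Finset.mem_sdiff.2 ⟨hs1, hsR⟩
    rw [hl, Finset.mem_singleton] at this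
    exact hs2 this
  · have hc2 : 2 ≤ (T \ R).card := by
      have := hTR.card_pos
      omega
    exfalso
    refine h2 κ n k F d hF hd hn T z0 P H R hRT hc2 hR0 ?_
    intro l hl
    obtain ⟨hlT, hlR⟩ := Finset.mem_sdiff.1 hl
    by_contra hcon
    push Not at hcon
    have hin : insert l R ∈ G := by
      rw [hG, Finset.mem_filter, Finset.mem_powerset]
      refine ⟨Finset.insert_subset hlT hRT, ?_⟩
      intro g hg hv
      by_contra hg0
      obtain ⟨s, hs, hs1, hs2⟩ := hcon g hg hg0
      have := hv s hs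
      rw [Finset.mem_insert] at this
      rcases this with h | h
      · exact hs2 h
      · exact hs1 h
    have := hmax _ hin
    rw [Finset.card_insert_of_notMem hlR] at this
    omega

end Pool.Agent.Q35.ST
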